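import Mathlib

set_option autoImplicit false

/-!
# Partial matrices whose minimal rank encodes the equation `z x - x z = 1`
-/

namespace Pool.Agent.R712.PM

open Matrix

universe u

/-! ### Definitions -/

/-- A partial matrix over `F` is a function `A : ι → κ → Option F`; the entry `none` is unspecified.
A completion is a matrix which agrees with `A` at all specified entries. -/
def IsCompletion {F : Type u} {ι κ : Type} (A : ι → κ → Option F) (B : Matrix ι κ F) : Prop :=
  ∀ i j a, A i j = some a → B i j = a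

/-- The minimal rank `mr(A)`: the least rank of a completion. -/
noncomputable def mr {F : Type u} {ι κ : Type} [Field F] [Fintype κ] (A : ι → κ → Option F) : ℕ :=
  sInf {r | ∃ B : Matrix ι κ F, IsCompletion A B ∧ B.rank = r}

/-- `A ⊗ I_b`: the block with indices `(i, j)` is `a_ij I_b` if the entry `(i, j)` is specified, and
consists of `b ^ 2` unspecified entries otherwise. -/
def tens {F : Type u} {ι κ : Type} [Field F] (A : ι → κ → Option F) (b : ℕ) :
    (ι × Fin b) → (κ × Fin b) → Option F :=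
  fun p q => (A p.1 q.1).map fun a => if p.2 = q.2 then a else 0

/-- The fractional minimal rank: the infimum over `b ≥ 1` of `mr(A ⊗ I_b) / b`. -/
noncomputable def fmr {F : Type u} {ι κ : Type} [Field F] [Fintype κ] (A : ι → κ → Option F) : ℝ :=
  ⨅ b : {b : ℕ // 1 ≤ b}, (mr (tens A b.1) : ℝ) / (b.1 : ℝ)

/-! ### Linear algebra -/

section linalg

variable {F : Type u} {ι κ α : Type} [Field F] [Fintype κ] [Fintype α] [DecidableEq α]

omit [Fintype κ] in
theorem linInd (M : Matrix ι κ F) (e : α → ι) (f : α → κ)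
    (h : ∀ s t, M (e s) (f t) = if s = t then 1 else 0) :
    LinearIndependent F (fun t : α => M.col (f t)) := by
  rw [Fintype.linearIndependent_iff]
  intro g hg s
  have h1 := congrFun hg (e s)
  simp only [Finset.sum_apply, Pi.smul_apply, Matrix.col_apply, smul_eq_mul, Pi.zero_apply] at h1
  simp only [h] at h1
  simpa using h1

theorem card_le_rank (M : Matrix ι κ F) (e : α → ι) (f : α → κ)
    (h : ∀ s t, M (e s) (f t) = if s = t then 1 else 0) : Fintype.card α ≤ M.rank := by
  have hl := linInd M e f h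
  rw [M.rank_eq_finrank_span_cols]
  have : FiniteDimensional F (Submodule.span F (Set.range M.col)) :=
    FiniteDimensional.span_of_finite F (Set.finite_range _)
  have hsub : Submodule.span F (Set.range fun t : α => M.col (f t)) ≤
      Submodule.span F (Set.range M.col) := by
    apply Submodule.span_mono
    rintro _ ⟨t, rfl⟩
    exact ⟨f t, rfl⟩
  calc Fintype.card α = Module.finrank F (Submodule.span F (Set.range fun t : α => M.col (f t))) :=
        (finrank_span_eq_card hl).symm
    _ ≤ _ := Submodule.finrank_mono hsub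

theorem factor (M : Matrix ι κ F) (e : α → ι) (f : α → κ)
    (h : ∀ s t, M (e s) (f t) = if s = t then 1 else 0) (hr : M.rank ≤ Fintype.card α)
    (p : ι) (q : κ) : M p q = ∑ s, M p (f s) * M (e s) q := by
  have hl := linInd M e f h
  rw [M.rank_eq_finrank_span_cols] at hr
  have : FiniteDimensional F (Submodule.span F (Set.range M.col)) :=
    FiniteDimensional.span_of_finite F (Set.finite_range _)
  have hsub : Submodule.span F (Set.range fun t : α => M.col (f t)) ≤
      Submodule.span F (Set.range M.col) := by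
    apply Submodule.span_mono
    rintro _ ⟨t, rfl⟩
    exact ⟨f t, rfl⟩
  have heq : Submodule.span F (Set.range fun t : α => M.col (f t)) =
      Submodule.span F (Set.range M.col) := by
    apply Submodule.eq_of_le_of_finrank_le hsub
    rw [finrank_span_eq_card hl]
    exact hr
  have hq : M.col q ∈ Submodule.span F (Set.range fun t : α => M.col (f t)) := by
    rw [heq]
    exact Submodule.subset_span ⟨q, rfl⟩
  rw [Submodule.mem_span_range_iff_exists_fun] at hq
  obtain ⟨c, hc⟩ := hq
  have hval : ∀ i, M i q = ∑ s, c s * M i (f s) := by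
    intro i
    have := congrFun hc i
    simp only [Finset.sum_apply, Pi.smul_apply, Matrix.col_apply, smul_eq_mul] at this
    exact this.symm
  have hcs : ∀ s, c s = M (e s) q := by
    intro s
    rw [hval (e s)]
    simp [h]
  rw [hval p]
  exact Finset.sum_congr rfl fun s _ => by rw [hcs s, mul_comm]

end linalg

/-! ### The partial matrix -/

section table

variable (F : Type u) [Field F]

/-- The partial matrix of size `8 × 8`. -/
def tab : Fin 8 → Fin 8 → Option F :=
  ![![some 1, some 0, some 0, none,   some 1, some 1, some 0, none],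
    ![some 0, some 1, some 0, none,   some 0, none,   some 1, some 1],
    ![some 0, some 0, some 1, some 1, none,   some 1, none,   some 1],
    ![none,   none,   some 1, some 0, some 0, none,   some 0, none],
    ![none,   some 1, some 1, none,   some 0, some 1, none,   none],
    ![some 0, some 1, none,   some 0, none,   some 0, none,   none],
    ![some 1, none,   some (-1), none, none,  none,   some 0, some (-1)],
    ![some 1, some 0, none,   some 0, none,   none,   none,   some 0]]

end table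

theorem core {S : Type u} [Ring S] (X : Fin 8 → Fin 8 → S)
    (hk : ∀ i j, X i j = X i 0 * X 0 j + X i 1 * X 1 j + X i 2 * X 2 j)
    (h32 : X 3 2 = 1) (h41 : X 4 1 = 1) (h42 : X 4 2 = 1) (h50 : X 5 0 = 0) (h51 : X 5 1 = 1)
    (h60 : X 6 0 = 1) (h62 : X 6 2 = -1) (h70 : X 7 0 = 1) (h71 : X 7 1 = 0) (h23 : X 2 3 = 1)
    (h04 : X 0 4 = 1) (h14 : X 1 4 = 0) (h05 : X 0 5 = 1) (h25 : X 2 5 = 1) (h06 : X 0 6 = 0)
    (h16 : X 1 6 = 1) (h17 : X 1 7 = 1) (h27 : X 2 7 = 1) (h33 : X 3 3 = 0) (h34 : X 3 4 = 0)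
    (h36 : X 3 6 = 0) (h44 : X 4 4 = 0) (h45 : X 4 5 = 1) (h53 : X 5 3 = 0) (h55 : X 5 5 = 0)
    (h66 : X 6 6 = 0) (h67 : X 6 7 = -1) (h73 : X 7 3 = 0) (h77 : X 7 7 = 0) :
    X 3 1 * X 3 0 - X 3 0 * X 3 1 = 1 := by
  have e34 := hk 3 4
  have e44 := hk 4 4
  have e45 := hk 4 5
  have e55 := hk 5 5
  have e53 := hk 5 3
  have e36 := hk 3 6
  have e66 := hk 6 6
  have e67 := hk 6 7
  have e77 := hk 7 7
  have e73 := hk 7 3
  have e33 := hk 3 3
  rw [h34, h04, h14, h32, mul_one, mul_zero, one_mul, add_zero] at e34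
  rw [h44, h04, h14, h41, h42, mul_one, mul_zero, one_mul, add_zero] at e44
  rw [h45, h05, h25, h41, h42, mul_one, mul_one, one_mul] at e45
  rw [h55, h50, h51, h25, zero_mul, zero_add, one_mul, mul_one] at e55
  rw [h53, h50, h51, h23, zero_mul, zero_add, one_mul, mul_one] at e53
  rw [h36, h06, h16, h32, mul_zero, zero_add, mul_one, one_mul] at e36
  rw [h66, h06, h60, h16, h62, mul_zero, zero_add, mul_one, neg_one_mul] at e66
  rw [h67, h60, h17, h62, h27, one_mul, mul_one, mul_one] at e67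
  rw [h77, h70, h71, h27, one_mul, zero_mul, add_zero, mul_one] at e77
  rw [h73, h70, h71, h23, one_mul, zero_mul, add_zero, mul_one] at e73
  rw [h33, h32, h23, one_mul] at e33
  have a1 : X 2 4 = - X 3 0 := (neg_eq_of_add_eq_zero_right e34.symm).symm
  have a2 : X 4 0 = - X 2 4 := eq_neg_of_add_eq_zero_left e44.symm
  have a3 : X 1 5 = - X 4 0 := by
    have : X 4 0 + X 1 5 = 0 := by
      have := e45
      exact (add_eq_right.mp this.symm)
    exact (neg_eq_of_add_eq_zero_right this).symm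
  have a4 : X 5 2 = - X 1 5 := (neg_eq_of_add_eq_zero_right e55.symm).symm
  have a5 : X 1 3 = - X 5 2 := eq_neg_of_add_eq_zero_left e53.symm
  have b1 : X 2 6 = - X 3 1 := (neg_eq_of_add_eq_zero_right e36.symm).symm
  have b2 : X 6 1 = X 2 6 := by
    rw [← sub_eq_add_neg] at e66
    exact sub_eq_zero.mp e66.symm
  have b3 : X 0 7 = - X 6 1 := by
    have h : X 0 7 + X 6 1 = 0 := add_eq_right.mp e67.symm
    exact eq_neg_of_add_eq_zero_left h
  have b4 : X 7 2 = - X 0 7 := (neg_eq_of_add_eq_zero_right e77.symm).symm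
  have b5 : X 0 3 = - X 7 2 := eq_neg_of_add_eq_zero_left e73.symm
  have c1 : X 1 3 = - X 3 0 := by rw [a5, a4, a3, a2, a1]; simp
  have c2 : X 0 3 = X 3 1 := by rw [b5, b4, b3, b2, b1]; simp
  rw [c1, c2] at e33
  have : X 3 1 * X 3 0 - X 3 0 * X 3 1 - 1 = 0 := by
    have h := congrArg Neg.neg e33
    rw [neg_zero] at h
    rw [← h.symm]
    noncomm_ring
  exact sub_eq_zero.mp this

/-! ### Lower bounds -/

section lower

variable {F : Type u} [Field F]

/-- The inclusion of the first three indices. -/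
def c3 : Fin 3 → Fin 8 := Fin.castLE (by norm_num)

theorem tab_c3 (s t : Fin 3) : tab F (c3 s) (c3 t) = some (if s = t then 1 else 0) := by
  fin_cases s <;> fin_cases t <;> rfl

theorem block_id {b : ℕ} {B : Matrix (Fin 8 × Fin b) (Fin 8 × Fin b) F}
    (hB : IsCompletion (tens (tab F) b) B) (s t : Fin 3 × Fin b) :
    B (c3 s.1, s.2) (c3 t.1, t.2) = if s = t then 1 else 0 := by
  rw [hB (c3 s.1, s.2) (c3 t.1, t.2)
    (if s.2 = t.2 then (if s.1 = t.1 then 1 else 0) else 0) (by simp [tens, tab_c3])]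
  by_cases h1 : s.1 = t.1 <;> by_cases h2 : s.2 = t.2 <;> simp [h1, h2, Prod.ext_iff]

theorem low_block {b : ℕ} {B : Matrix (Fin 8 × Fin b) (Fin 8 × Fin b) F}
    (hB : IsCompletion (tens (tab F) b) B) : 3 * b ≤ B.rank := by
  have := card_le_rank B (fun s : Fin 3 × Fin b => (c3 s.1, s.2))
    (fun s : Fin 3 × Fin b => (c3 s.1, s.2)) (block_id hB)
  simpa using this

theorem low_strict {b : ℕ} {B : Matrix (Fin 8 × Fin b) (Fin 8 × Fin b) F}
    (hB : IsCompletion (tens (tab F) b) B) (hr : B.rank ≤ 3 * b) : (b : F) = 0 := by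
  set X : Fin 8 → Fin 8 → Matrix (Fin b) (Fin b) F := fun i j k l => B (i, k) (j, l) with hX
  have hval : ∀ (i j : Fin 8) (a : F), tab F i j = some a →
      X i j = a • (1 : Matrix (Fin b) (Fin b) F) := by
    intro i j a h
    ext k l
    rw [hX]
    show B (i, k) (j, l) = _
    rw [hB (i, k) (j, l) (if k = l then a else 0) (by simp [tens, h])]
    simp [Matrix.one_apply]
  have hk : ∀ i j, X i j = X i 0 * X 0 j + X i 1 * X 1 j + X i 2 * X 2 j := by
    intro i j
    ext k l
    have h := factor B (fun s : Fin 3 × Fin b => (c3 s.1, s.2))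
      (fun s : Fin 3 × Fin b => (c3 s.1, s.2)) (block_id hB) (by simpa using hr) (i, k) (j, l)
    rw [Fintype.sum_prod_type, Fin.sum_univ_three] at h
    exact h
  have h1 : ∀ i j, tab F i j = some 1 → X i j = 1 := fun i j h => by rw [hval i j 1 h, one_smul]
  have h0 : ∀ i j, tab F i j = some 0 → X i j = 0 := fun i j h => by rw [hval i j 0 h, zero_smul]
  have hm : ∀ i j, tab F i j = some (-1) → X i j = -1 := fun i j h => by
    rw [hval i j (-1) h, neg_smul, one_smul]
  have key := core X hk (h1 _ _ rfl) (h1 _ _ rfl) (h1 _ _ rfl) (h0 _ _ rfl) (h1 _ _ rfl)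
    (h1 _ _ rfl) (hm _ _ rfl) (h1 _ _ rfl) (h0 _ _ rfl) (h1 _ _ rfl) (h1 _ _ rfl)
    (h0 _ _ rfl) (h1 _ _ rfl) (h1 _ _ rfl) (h0 _ _ rfl) (h1 _ _ rfl) (h1 _ _ rfl)
    (h1 _ _ rfl) (h0 _ _ rfl) (h0 _ _ rfl) (h0 _ _ rfl) (h0 _ _ rfl) (h1 _ _ rfl)
    (h0 _ _ rfl) (h0 _ _ rfl) (h0 _ _ rfl) (hm _ _ rfl) (h0 _ _ rfl) (h0 _ _ rfl)
  have ht := congrArg Matrix.trace key
  rw [Matrix.trace_sub, Matrix.trace_mul_comm, sub_self, Matrix.trace_one,
    Fintype.card_fin] at ht
  exact ht.symm

/-- Every completion of the matrix `tab F`, or of any partial matrix which specifies the upper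
left `3 × 3` block as in `tab F`, has rank at least `3`. -/
theorem low_three {A : Fin 8 → Fin 8 → Option F} {B : Matrix (Fin 8) (Fin 8) F}
    (hA : ∀ s t : Fin 3, A (c3 s) (c3 t) = tab F (c3 s) (c3 t))
    (hB : IsCompletion A B) : 3 ≤ B.rank := by
  have := card_le_rank B c3 c3 (fun s t => hB _ _ _ (by rw [hA, tab_c3]))
  simpa using this

theorem low_four {B : Matrix (Fin 8) (Fin 8) F} (hB : IsCompletion (tab F) B) : 4 ≤ B.rank := by
  by_contra hlt
  push Not at hlt
  have hk : ∀ i j, B i j = B i 0 * B 0 j + B i 1 * B 1 j + B i 2 * B 2 j := by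
    intro i j
    have h := factor B c3 c3 (fun s t => hB _ _ _ (tab_c3 s t)) (by simp; omega) i j
    rw [Fin.sum_univ_three] at h
    exact h
  have key := core (S := F) B hk (hB _ _ _ rfl) (hB _ _ _ rfl) (hB _ _ _ rfl) (hB _ _ _ rfl)
    (hB _ _ _ rfl) (hB _ _ _ rfl) (hB _ _ _ rfl) (hB _ _ _ rfl) (hB _ _ _ rfl) (hB _ _ _ rfl)
    (hB _ _ _ rfl) (hB _ _ _ rfl) (hB _ _ _ rfl) (hB _ _ _ rfl) (hB _ _ _ rfl) (hB _ _ _ rfl)
    (hB _ _ _ rfl) (hB _ _ _ rfl) (hB _ _ _ rfl) (hB _ _ _ rfl) (hB _ _ _ rfl) (hB _ _ _ rfl)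
    (hB _ _ _ rfl) (hB _ _ _ rfl) (hB _ _ _ rfl) (hB _ _ _ rfl) (hB _ _ _ rfl) (hB _ _ _ rfl)
    (hB _ _ _ rfl)
  rw [mul_comm, sub_self] at key
  exact zero_ne_one key

end lower

/-! ### Upper bounds -/

section upper

variable (F : Type u) [Field F]

/-- The matrix of `e_l ↦ e_{l+1}` (and `0` for the last basis vector). -/
def mx (m : ℕ) : Matrix (Fin (m + 1)) (Fin (m + 1)) F :=
  fun k l => if (k : ℕ) = l + 1 then 1 else 0

/-- The matrix of `e_l ↦ l e_{l-1}`. -/
def mz (m : ℕ) : Matrix (Fin (m + 1)) (Fin (m + 1)) F :=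
  fun k l => if (k : ℕ) + 1 = l then (l : ℕ) else 0

theorem comm_eq (m : ℕ) (k l : Fin (m + 1)) :
    (mx F m * mz F m - mz F m * mx F m + 1 : Matrix (Fin (m + 1)) (Fin (m + 1)) F) k l =
      if k = Fin.last m ∧ l = Fin.last m then ((m + 1 : ℕ) : F) else 0 := by
  have h1 : (mx F m * mz F m : Matrix (Fin (m + 1)) (Fin (m + 1)) F) k l =
      if k = l then ((k : ℕ) : F) else 0 := by
    rw [Matrix.mul_apply]
    rcases Nat.eq_zero_or_pos (k : ℕ) with hk | hk
    · rw [Finset.sum_eq_zero]
      · simp [hk]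
      · intro t _
        simp only [mx]
        rw [if_neg (by omega), zero_mul]
    · rw [Finset.sum_eq_single ⟨(k : ℕ) - 1, by omega⟩]
      · simp only [mx, mz]
        rw [if_pos (by omega), one_mul]
        by_cases h : k = l
        · subst h
          rw [if_pos (by omega), if_pos rfl]
        · rw [if_neg, if_neg h]
          intro h2
          apply h
          ext
          omega
      · intro t _ ht
        simp only [mx]
        rw [if_neg, zero_mul]
        intro h2
        apply ht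
        ext
        simp
        omega
      · simp
  have h2 : (mz F m * mx F m : Matrix (Fin (m + 1)) (Fin (m + 1)) F) k l =
      if k = l ∧ k ≠ Fin.last m then (((k : ℕ) + 1 : ℕ) : F) else 0 := by
    rw [Matrix.mul_apply]
    by_cases hk : k = Fin.last m
    · rw [Finset.sum_eq_zero]
      · simp [hk]
      · intro t _
        simp only [mz]
        rw [if_neg, zero_mul]
        rw [hk]
        simp
        omega
    · have hk' : (k : ℕ) < m := by
        rcases Nat.lt_or_ge (k : ℕ) m with h | h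
        · exact h
        · exact absurd (Fin.ext (by simp; omega)) hk
      rw [Finset.sum_eq_single ⟨(k : ℕ) + 1, by omega⟩]
      · simp only [mx, mz]
        rw [if_pos trivial]
        by_cases h : k = l
        · subst h
          simp [hk]
        · rw [if_neg, if_neg (fun h3 => h h3.1), mul_zero]
          intro h2
          apply h
          ext
          omega
      · intro t _ ht
        simp only [mz]
        rw [if_neg, zero_mul]
        intro h2
        apply ht
        ext
        simp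
        omega
      · simp
  rw [Matrix.add_apply, Matrix.sub_apply, h1, h2, Matrix.one_apply]
  by_cases hkl : k = l
  · subst hkl
    by_cases hk : k = Fin.last m
    · subst hk
      simp
    · simp [hk]
  · have : ¬ (k = Fin.last m ∧ l = Fin.last m) := fun h => hkl (h.1.trans h.2.symm)
    simp [hkl, this]

/-- The left factor. -/
def P {S : Type u} [Ring S] (x z : S) : Fin 8 → Fin 3 → S :=
  ![![1, 0, 0], ![0, 1, 0], ![0, 0, 1], ![x, z, 1], ![x, 1, 1], ![0, 1, x], ![1, -z, -1],
    ![1, 0, -z]]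

/-- The right factor, transposed. -/
def Q {S : Type u} [Ring S] (x z : S) : Fin 8 → Fin 3 → S :=
  ![![1, 0, 0], ![0, 1, 0], ![0, 0, 1], ![z, -x, 1], ![1, 0, -x], ![1, -x, 1], ![0, 1, -z],
    ![z, 1, 1]]

theorem PQ {S : Type u} [Ring S] [Algebra F S] (x z : S) (i j : Fin 8) (a : F)
    (h : tab F i j = some a) (hij : ¬ (i = 3 ∧ j = 3)) :
    ∑ s, P x z i s * Q x z j s = a • (1 : S) := by
  revert h hij
  fin_cases i <;> fin_cases j <;> intro h hij <;>
    first
    | (simp [tab] at h; done)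
    | exact (hij ⟨rfl, rfl⟩).elim
    | (simp [tab] at h; subst h; simp [P, Q, Fin.sum_univ_three])

theorem PQ33 {S : Type u} [Ring S] (x z : S) :
    ∑ s, P x z 3 s * Q x z 3 s = x * z - z * x + 1 := by
  simp [P, Q, Fin.sum_univ_three, sub_eq_add_neg]

/-- A completion of `tab F ⊗ I_{m+1}` of rank at most `3 (m + 1) + 1`. -/
theorem exists_completion (m : ℕ) :
    ∃ B : Matrix (Fin 8 × Fin (m + 1)) (Fin 8 × Fin (m + 1)) F,
      IsCompletion (tens (tab F) (m + 1)) B ∧ B.rank ≤ 3 * (m + 1) + 1 := by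
  set x := mx F m with hx
  set z := mz F m with hz
  let L : Matrix (Fin 8 × Fin (m + 1)) ((Fin 3 × Fin (m + 1)) ⊕ Unit) F := fun p s =>
    Sum.elim (fun s : Fin 3 × Fin (m + 1) => P x z p.1 s.1 p.2 s.2)
      (fun _ => if p = (3, Fin.last m) then - ((m + 1 : ℕ) : F) else 0) s
  let R : Matrix ((Fin 3 × Fin (m + 1)) ⊕ Unit) (Fin 8 × Fin (m + 1)) F := fun s q =>
    Sum.elim (fun s : Fin 3 × Fin (m + 1) => Q x z q.1 s.1 s.2 q.2)
      (fun _ => if q = (3, Fin.last m) then 1 else 0) s
  have hLR : ∀ p q, (L * R) p q = (∑ s, P x z p.1 s * Q x z q.1 s) p.2 q.2 -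
      (if p = (3, Fin.last m) ∧ q = (3, Fin.last m) then ((m + 1 : ℕ) : F) else 0) := by
    intro p q
    rw [Matrix.mul_apply, Fintype.sum_sum_type, Fintype.sum_prod_type, Matrix.sum_apply]
    simp only [L, R, Sum.elim_inl, Sum.elim_inr, Matrix.mul_apply, Finset.univ_unique,
      Finset.sum_singleton]
    by_cases h1 : p = (3, Fin.last m) <;> by_cases h2 : q = (3, Fin.last m) <;>
      simp [h1, h2, sub_eq_add_neg]
  refine ⟨L * R, ?_, ?_⟩
  · rintro ⟨i, k⟩ ⟨j, l⟩ a h
    rw [hLR]
    simp only [tens, Option.map_eq_some_iff] at h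
    obtain ⟨a', h1, h2⟩ := h
    by_cases hij : i = 3 ∧ j = 3
    · obtain ⟨rfl, rfl⟩ := hij
      have ha : a' = 0 := by
        have : tab F 3 3 = some 0 := rfl
        rw [this] at h1
        exact (Option.some.inj h1).symm
      rw [ha] at h2
      have ha0 : a = 0 := by rw [← h2]; simp
      rw [PQ33, hx, hz, comm_eq, ha0]
      simp [Prod.ext_iff]
    · rw [PQ F x z i j a' h1 hij, if_neg, sub_zero, ← h2]
      · simp [Matrix.one_apply]
      · rintro ⟨h3, h4⟩
        exact hij ⟨congrArg Prod.fst h3, congrArg Prod.fst h4⟩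
  · refine (Matrix.rank_mul_le_left L R).trans ((Matrix.rank_le_card_width L).trans ?_)
    simp

/-- A completion of `tab F` itself of rank at most `8` exists. -/
theorem exists_completion_one (A : Fin 8 → Fin 8 → Option F) :
    ∃ B : Matrix (Fin 8) (Fin 8) F, IsCompletion A B := by
  refine ⟨fun i j => (A i j).getD 0, ?_⟩
  intro i j a h
  simp [h]

theorem mr_tens_le (m : ℕ) : mr (tens (tab F) (m + 1)) ≤ 3 * (m + 1) + 1 := by
  obtain ⟨B, hB, hr⟩ := exists_completion F m
  have h : mr (tens (tab F) (m + 1)) ≤ B.rank := Nat.sInf_le ⟨B, hB, rfl⟩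
  exact h.trans hr

theorem mr_spec {ι κ : Type} [Fintype κ] {A : ι → κ → Option F} :
    ∃ B : Matrix ι κ F, IsCompletion A B ∧ B.rank = mr A := by
  have hne : {r | ∃ B : Matrix ι κ F, IsCompletion A B ∧ B.rank = r}.Nonempty := by
    refine ⟨_, fun i j => (A i j).getD 0, ?_, rfl⟩
    intro i j a h
    simp [h]
  exact Nat.sInf_mem hne

theorem le_mr_tens (b : ℕ) : 3 * b ≤ mr (tens (tab F) b) := by
  obtain ⟨B, hB, hr⟩ := mr_spec F (A := tens (tab F) b)
  rw [← hr]
  exact low_block hB

theorem lt_mr_tens (b : ℕ) (hb : (b : F) ≠ 0) : 3 * b < mr (tens (tab F) b) := by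
  obtain ⟨B, hB, hr⟩ := mr_spec F (A := tens (tab F) b)
  rw [← hr]
  by_contra hlt
  exact hb (low_strict hB (not_lt.mp hlt))

theorem four_le_mr : 4 ≤ mr (tab F) := by
  obtain ⟨B, hB, hr⟩ := mr_spec F (A := tab F)
  rw [← hr]
  exact low_four hB

theorem fmr_eq : fmr (tab F) = 3 := by
  apply le_antisymm
  · -- for every ε
    apply le_of_forall_pos_le_add
    intro ε hε
    obtain ⟨m, hm⟩ := exists_nat_gt (1 / ε)
    have hbdd : BddBelow (Set.range fun b : {b : ℕ // 1 ≤ b} =>
        (mr (tens (tab F) b.1) : ℝ) / (b.1 : ℝ)) := by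
      refine ⟨0, ?_⟩
      rintro _ ⟨b, rfl⟩
      positivity
    refine (ciInf_le hbdd (⟨m + 1, by omega⟩ : {b : ℕ // 1 ≤ b})).trans ?_
    have h1 : (mr (tens (tab F) (m + 1)) : ℝ) ≤ 3 * ((m : ℝ) + 1) + 1 := by
      exact_mod_cast mr_tens_le F m
    have hm0 : (0 : ℝ) < (m : ℝ) + 1 := by positivity
    have h2 : 1 ≤ ε * ((m : ℝ) + 1) := by
      have h3 : 1 / ε < (m : ℝ) + 1 := by linarith
      rw [div_lt_iff₀ hε] at h3
      linarith
    show (mr (tens (tab F) (m + 1)) : ℝ) / (((m + 1 : ℕ) : ℝ)) ≤ 3 + ε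
    rw [Nat.cast_add, Nat.cast_one, div_le_iff₀ hm0]
    nlinarith
  · have : Nonempty {b : ℕ // 1 ≤ b} := ⟨⟨1, le_rfl⟩⟩
    apply le_ciInf
    rintro ⟨b, hb⟩
    have hb0 : (0 : ℝ) < (b : ℝ) := by exact_mod_cast hb
    rw [le_div_iff₀ hb0]
    exact_mod_cast le_mr_tens F b

end upper

/-! ### Triangular minimal rank -/

/-- The pattern of the specified entries. -/
def pattern {F : Type u} {ι κ : Type} (A : ι → κ → Option F) : Set (ι × κ) :=
  {p | A p.1 p.2 ≠ none}

/-- A pattern `T` is triangular if `(i, j), (k, l) ∈ T` implies `(i, l) ∈ T` or `(k, j) ∈ T`. -/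
def IsTriangular {ι κ : Type} (T : Set (ι × κ)) : Prop :=
  ∀ i j k l, (i, j) ∈ T → (k, l) ∈ T → (i, l) ∈ T ∨ (k, j) ∈ T

/-- `A | T`: only the specified entries with index in `T` are kept. -/
noncomputable def restrict {F : Type u} {ι κ : Type} (A : ι → κ → Option F) (T : Set (ι × κ)) :
    ι → κ → Option F :=
  fun i j => open Classical in if (i, j) ∈ T then A i j else none

/-- The triangular minimal rank: the largest `mr(A | T)`, where `T` runs through the maximal
triangular subpatterns of the pattern of specified entries of `A`. -/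
noncomputable def tmr {F : Type u} {ι κ : Type} [Field F] [Fintype κ] (A : ι → κ → Option F) : ℕ :=
  sSup {r | ∃ T : Set (ι × κ), Maximal (fun S => IsTriangular S ∧ S ⊆ pattern A) T ∧
    mr (restrict A T) = r}

theorem three_le_tmr (F : Type u) [Field F] : 3 ≤ tmr (tab F) := by
  set T0 : Set (Fin 8 × Fin 8) := {p | p.1 ∈ Set.range c3 ∧ p.2 ∈ Set.range c3} with hT0
  have h0 : IsTriangular T0 ∧ T0 ⊆ pattern (tab F) := by
    refine ⟨fun i j k l h1 h2 => Or.inl ⟨h1.1, h2.2⟩, ?_⟩
    rintro ⟨_, _⟩ ⟨⟨s, rfl⟩, ⟨t, rfl⟩⟩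
    show tab F (c3 s) (c3 t) ≠ none
    rw [tab_c3]
    simp
  obtain ⟨T, hT, hmax⟩ := Set.Finite.exists_le_maximal
    (s := {S : Set (Fin 8 × Fin 8) | IsTriangular S ∧ S ⊆ pattern (tab F)}) (Set.toFinite _) h0
  have hle : 3 ≤ mr (restrict (tab F) T) := by
    obtain ⟨B, hB, hr⟩ := mr_spec F (A := restrict (tab F) T)
    rw [← hr]
    refine low_three (A := restrict (tab F) T) ?_ hB
    intro s t
    have : (c3 s, c3 t) ∈ T := hT ⟨⟨s, rfl⟩, ⟨t, rfl⟩⟩
    simp [restrict, this]
  refine hle.trans (le_csSup ?_ ⟨T, hmax, rfl⟩)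
  refine ⟨8, ?_⟩
  rintro _ ⟨S, _, rfl⟩
  obtain ⟨B, hB, hr⟩ := mr_spec F (A := restrict (tab F) S)
  rw [← hr]
  simpa using Matrix.rank_le_card_width B

end Pool.Agent.R712.PM
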