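import Pool.Agent.R712.PascFinal

/-!
Two Pascalian polynomials have no common nontrivial root.
-/

set_option autoImplicit false

namespace Pool.R712.Pasc

open Finset Polynomial

theorem comp_odd (μ : ℕ) (x : ℂ) (hs1 : 1 ≤ ‖x‖) (hs : ((μ : ℝ) + 2) / (μ + 1) ≤ ‖x‖)
    (ν : ℕ) (hν : μ + 1 ≤ ν) :
    ‖x * (Qc ν x - Qc μ x) - (a μ : ℂ) * x ^ (μ + 1)‖ ≤ a ν * ‖x‖ ^ ν := by
  induction ν, hν using Nat.le_induction with
  | base =>
    have h1 : x * (Qc (μ + 1) x - Qc μ x) - (a μ : ℂ) * x ^ (μ + 1) =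
        -((a (μ + 1) : ℂ) * x ^ (μ + 1)) := by
      rw [Qc_succ, show (g μ : ℂ) = (a μ : ℂ) - a (μ + 1) by rw [← a_sub μ]; push_cast; ring]
      ring
    rw [h1, norm_neg, norm_mul, norm_pow, Complex.norm_real, Real.norm_of_nonneg (a_pos _).le]
  | succ ν hν ih =>
    have h1 : x * (Qc (ν + 1) x - Qc μ x) - (a μ : ℂ) * x ^ (μ + 1) =
        (x * (Qc ν x - Qc μ x) - (a μ : ℂ) * x ^ (μ + 1)) + (g ν : ℂ) * x ^ (ν + 1) := by
      rw [Qc_succ]; ring
    rw [h1]
    refine (norm_add_le _ _).trans ?_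
    rw [norm_mul, norm_pow, Complex.norm_real, Real.norm_of_nonneg (g_nonneg _)]
    refine (add_le_add_left ih _).trans ?_
    set s := ‖x‖ with hs_def
    have hsν : 0 < s ^ ν := by positivity
    -- s ≥ (ν+1)/ν
    have hν0 : (μ : ℝ) + 1 ≤ ν := by exact_mod_cast hν
    have hνpos : (0 : ℝ) < ν := by
      have : (0 : ℝ) ≤ μ := by positivity
      linarith
    have h2 : (ν : ℝ) + 1 ≤ s * ν := by
      rw [div_le_iff₀ (by positivity)] at hs
      nlinarith
    have h3 := g_eq ν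
    have h4 := g_eq' ν
    have h5 : a ν ≤ (a (ν + 1) - g ν) * s := by
      rw [← h3, ← h4]
      have hg := g_nonneg ν
      nlinarith [mul_le_mul_of_nonneg_left h2 hg]
    have h6 : a ν * s ^ ν ≤ (a (ν + 1) - g ν) * s * s ^ ν :=
      mul_le_mul_of_nonneg_right h5 hsν.le
    have h7 : a (ν + 1) * s ^ (ν + 1) = (a (ν + 1) - g ν) * s * s ^ ν + g ν * s ^ (ν + 1) := by
      ring
    linarith

theorem comp_even (μ : ℕ) (v : ℂ) (hs : (2 * (μ : ℝ) + 2) / (2 * μ + 1) < ‖v‖) :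
    ∀ ν, μ ≤ ν →
    ‖v ^ 2 * (Qc ν (v ^ 2) - Qc μ (v ^ 2)) - (a μ : ℂ) * v ^ (2 * μ + 1)‖ ≤
      a ν * ‖v‖ ^ (2 * ν + 1) ∧
    (μ + 1 ≤ ν → ‖v ^ 2 * (Qc ν (v ^ 2) - Qc μ (v ^ 2)) - (a μ : ℂ) * v ^ (2 * μ + 1)‖ <
      a ν * ‖v‖ ^ (2 * ν + 1)) := by
  intro ν hν
  induction ν, hν using Nat.le_induction with
  | base =>
    refine ⟨?_, fun h => absurd h (by omega)⟩
    rw [sub_self, mul_zero, zero_sub, norm_neg, norm_mul, norm_pow, Complex.norm_real,
      Real.norm_of_nonneg (a_pos _).le]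
  | succ ν hν ih =>
    have hlt : ‖v ^ 2 * (Qc (ν + 1) (v ^ 2) - Qc μ (v ^ 2)) - (a μ : ℂ) * v ^ (2 * μ + 1)‖ <
      a (ν + 1) * ‖v‖ ^ (2 * (ν + 1) + 1) := by
      have h1 : v ^ 2 * (Qc (ν + 1) (v ^ 2) - Qc μ (v ^ 2)) - (a μ : ℂ) * v ^ (2 * μ + 1) =
        (v ^ 2 * (Qc ν (v ^ 2) - Qc μ (v ^ 2)) - (a μ : ℂ) * v ^ (2 * μ + 1)) +
          (g ν : ℂ) * v ^ (2 * ν + 2) := by
        rw [Qc_succ]; ring
      rw [h1]
      refine (norm_add_le _ _).trans_lt ?_
      rw [norm_mul (g ν : ℂ), norm_pow v, Complex.norm_real, Real.norm_of_nonneg (g_nonneg _)]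
      refine (add_le_add_left ih.1 _).trans_lt ?_
      set S := ‖v‖ with hS
      have hμν : (μ : ℝ) ≤ ν := by exact_mod_cast hν
      have hμ0 : (0 : ℝ) ≤ μ := by positivity
      rw [div_lt_iff₀ (by positivity)] at hs
      have hS1 : 1 < S := by nlinarith
      have h2 : 2 * (ν : ℝ) + 2 < S * (2 * ν + 1) := by nlinarith
      have h3 := g_eq ν
      have h4 := g_eq' ν
      have hg : 0 < g ν := by
        have := a_pos ν
        have h5 : 0 < g ν * (2 * ν + 2) := by rw [h3]; exact this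
        exact (pos_iff_pos_of_mul_pos h5).mpr (by positivity)
      have h5 : a ν + g ν * S < a (ν + 1) * S ^ 2 := by
        rw [← h3, ← h4]
        have h6 : 0 < (S * (2 * ν + 1) - (2 * ν + 2)) * (S + 1) := by
          apply mul_pos <;> linarith
        have h7 : 0 < g ν * ((S * (2 * ν + 1) - (2 * ν + 2)) * (S + 1)) := mul_pos hg h6
        nlinarith
      have hSp : 0 < S ^ (2 * ν + 1) := by positivity
      have h6 := mul_lt_mul_of_pos_right h5 hSp
      calc a ν * S ^ (2 * ν + 1) + g ν * S ^ (2 * ν + 2) = (a ν + g ν * S) * S ^ (2 * ν + 1) := by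
            ring
        _ < a (ν + 1) * S ^ 2 * S ^ (2 * ν + 1) := h6
        _ = a (ν + 1) * S ^ (2 * (ν + 1) + 1) := by ring
    exact ⟨hlt.le, fun _ => hlt⟩

/-- No common nontrivial roots. -/
theorem no_common (m n : ℕ) (hmn : m < n) (z : ℂ) (hz : z ≠ -1) (h1 : PE m z = 0)
    (h2 : PE n z = 0) : False := by
  have hz0 : z ≠ 0 := by
    rintro rfl
    rw [PE, Finset.sum_eq_single 0] at h1
    · simp at h1
    · intro b _ hb; rw [zero_pow hb, mul_zero]
    · simp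
  have hz1 : z ≠ 1 := by
    rintro rfl
    have h3 : PE m 1 = ((∑ j ∈ range (m + 1), m.choose (j / 2) : ℕ) : ℂ) := by
      rw [PE]; push_cast; simp
    rw [h3, Nat.cast_eq_zero, Finset.sum_eq_zero_iff] at h1
    have := h1 0 (by simp)
    simp at this
  have hw : 1 + z ^ 2 ≠ 0 := by
    intro hw
    obtain ⟨k, rfl⟩ : ∃ k, n = k + 1 := ⟨n - 1, by omega⟩
    rw [PE_succ, hw, zero_mul, zero_add] at h2
    have h3 : (k.choose (k / 2) : ℂ) ≠ 0 := by
      rw [Nat.cast_ne_zero]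
      exact (Nat.choose_pos (by omega)).ne'
    have h4 : (1 - z) ≠ 0 := sub_ne_zero.mpr (Ne.symm hz1)
    exact mul_ne_zero (mul_ne_zero h4 h3) (pow_ne_zero _ hz0) h2
  set w := 1 + z ^ 2 with hwdef
  set v := 2 * z / w with hv
  set y := (1 - z ^ 2) / w with hy
  have hv0 : v ≠ 0 := div_ne_zero (mul_ne_zero two_ne_zero hz0) hw
  have hyv : y ^ 2 = 1 - v ^ 2 := by
    rw [hy, hv]; field_simp; rw [hwdef]; ring
  have hv1 : v ^ 2 ≠ 1 := by
    intro h
    rw [h, sub_self] at hyv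
    have hy0 : y = 0 := by simpa using hyv
    rw [hy, div_eq_zero_iff] at hy0
    have h3 : 1 - z ^ 2 = 0 := hy0.resolve_right hw
    have h4 : (z - 1) * (z + 1) = 0 := by linear_combination -h3
    rcases mul_eq_zero.mp h4 with h5 | h5
    · exact hz1 (sub_eq_zero.mp h5)
    · exact hz (eq_neg_of_add_eq_zero_left h5)
  have hU : ∀ k, PE k z = 0 → U v k = -y := by
    intro k hk
    have h3 := PE_eq z hw k
    rw [hk, mul_zero] at h3
    have h4 := (mul_eq_zero.mp h3.symm).resolve_left (pow_ne_zero _ hw)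
    exact (neg_eq_of_add_eq_zero_right h4).symm
  have hUm := hU m h1
  have hUn := hU n h2
  obtain ⟨μ, hμ | hμ⟩ : ∃ μ, m = 2 * μ ∨ m = 2 * μ + 1 := ⟨m / 2, by omega⟩
  · -- even
    subst hμ
    rw [(U_closed v μ).1] at hUm
    have hμ1 : 1 ≤ μ := by
      rcases Nat.eq_zero_or_pos μ with h | h
      · subst h
        simp [PE] at h1
      · exact h
    have hlow := lower_even μ hμ1 v hv0 hv1 (by rw [hUm, neg_sq, hyv])
    set S := ‖v‖ with hS
    have hS1 : 1 < S := by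
      rw [div_lt_iff₀ (by positivity)] at hlow
      have hμ0 : (0 : ℝ) ≤ μ := by positivity
      nlinarith
    obtain ⟨ν, hν | hν⟩ : ∃ ν, n = 2 * ν ∨ n = 2 * ν + 1 := ⟨n / 2, by omega⟩
    · subst hν
      rw [(U_closed v ν).1] at hUn
      have hc := (comp_even μ v hlow ν (by omega)).2 (by omega)
      have h3 : v ^ 2 * (Qc ν (v ^ 2) - Qc μ (v ^ 2)) - (a μ : ℂ) * v ^ (2 * μ + 1) =
          -((a ν : ℂ) * v ^ (2 * ν + 1)) := by
        linear_combination hUm - hUn
      rw [h3, norm_neg, norm_mul, norm_pow, Complex.norm_real,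
        Real.norm_of_nonneg (a_pos _).le] at hc
      exact lt_irrefl _ hc
    · subst hν
      rw [(U_closed v ν).2] at hUn
      have hc := (comp_even μ v hlow ν (by omega)).1
      have h3 : v ^ 2 * (Qc ν (v ^ 2) - Qc μ (v ^ 2)) - (a μ : ℂ) * v ^ (2 * μ + 1) =
          -((a ν : ℂ) * v ^ (2 * ν + 2)) := by
        linear_combination hUm - hUn
      rw [h3, norm_neg, norm_mul, norm_pow, Complex.norm_real,
        Real.norm_of_nonneg (a_pos _).le, ← hS] at hc
      have h4 : a ν * S ^ (2 * ν + 1) < a ν * S ^ (2 * ν + 2) := by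
        apply mul_lt_mul_of_pos_left _ (a_pos ν)
        exact pow_lt_pow_right₀ hS1 (by omega)
      linarith
  · -- odd
    subst hμ
    rw [(U_closed v μ).2] at hUm
    have hμ1 : 1 ≤ μ := by
      rcases Nat.eq_zero_or_pos μ with h | h
      · subst h
        exfalso
        apply hz
        have h3 : 1 + z = 0 := by simpa [PE, sum_range_succ] using h1
        exact eq_neg_of_add_eq_zero_right h3
      · exact h
    have hlow := lower_odd μ hμ1 v hv0 hv1 (by rw [hUm, neg_sq, hyv])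
    rw [← norm_pow] at hlow
    set x := v ^ 2 with hx
    have hs1 : 1 < ‖x‖ := by
      rw [div_lt_iff₀ (by positivity)] at hlow
      have hμ0 : (0 : ℝ) ≤ μ := by positivity
      nlinarith
    have hxS : ‖x‖ = ‖v‖ ^ 2 := by rw [hx, norm_pow]
    have hS1 : 1 < ‖v‖ := by
      rw [hxS] at hs1
      by_contra hcon
      push Not at hcon
      have : ‖v‖ ^ 2 ≤ 1 := pow_le_one₀ (norm_nonneg _) hcon
      linarith
    have hvx : v ^ (2 * μ + 2) = x ^ (μ + 1) := by rw [hx, ← pow_mul]; ring_nf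
    rw [hvx] at hUm
    obtain ⟨ν, hν | hν⟩ : ∃ ν, n = 2 * ν ∨ n = 2 * ν + 1 := ⟨n / 2, by omega⟩
    · subst hν
      rw [(U_closed v ν).1, ← hx] at hUn
      have hc := comp_odd μ x hs1.le hlow.le ν (by omega)
      have h3 : x * (Qc ν x - Qc μ x) - (a μ : ℂ) * x ^ (μ + 1) =
          -((a ν : ℂ) * v ^ (2 * ν + 1)) := by
        linear_combination hUm - hUn
      rw [h3, norm_neg, norm_mul, norm_pow, Complex.norm_real,
        Real.norm_of_nonneg (a_pos _).le, hxS, ← pow_mul] at hc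
      have h4 : a ν * ‖v‖ ^ (2 * ν) < a ν * ‖v‖ ^ (2 * ν + 1) := by
        apply mul_lt_mul_of_pos_left _ (a_pos ν)
        exact pow_lt_pow_right₀ hS1 (by omega)
      linarith
    · subst hν
      rw [(U_closed v ν).2, ← hx] at hUn
      have hc := comp_odd μ x hs1.le hlow.le ν (by omega)
      have h3 : x * (Qc ν x - Qc μ x) - (a μ : ℂ) * x ^ (μ + 1) =
          -((a ν : ℂ) * v ^ (2 * ν + 2)) := by
        linear_combination hUm - hUn
      rw [h3, norm_neg, norm_mul, norm_pow, Complex.norm_real,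
        Real.norm_of_nonneg (a_pos _).le, hxS, ← pow_mul] at hc
      have h4 : a ν * ‖v‖ ^ (2 * ν) < a ν * ‖v‖ ^ (2 * ν + 2) := by
        apply mul_lt_mul_of_pos_left _ (a_pos ν)
        exact pow_lt_pow_right₀ hS1 (by omega)
      linarith

end Pool.R712.Pasc
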