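import Pool.Agent.R712.PascMain

/-!
Pascalian polynomials in the variable `v = 2z/(1+z²)` and absence of common roots.
-/

set_option autoImplicit false

namespace Pool.R712.Pasc

open Finset Polynomial

/-- The value of the Pascalian polynomial. -/
noncomputable def PE (n : ℕ) (z : ℂ) : ℂ := ∑ j ∈ range (n + 1), (n.choose (j / 2) : ℂ) * z ^ j

theorem partial_rec (n m : ℕ) (z : ℂ) :
    ∑ j ∈ range (m + 2), ((n + 1).choose (j / 2) : ℂ) * z ^ j =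
      (1 + z ^ 2) * ∑ j ∈ range m, (n.choose (j / 2) : ℂ) * z ^ j +
        (n.choose (m / 2) : ℂ) * z ^ m + (n.choose ((m + 1) / 2) : ℂ) * z ^ (m + 1) := by
  induction m with
  | zero => simp [sum_range_succ]
  | succ m ih =>
    rw [sum_range_succ, ih, sum_range_succ]
    have h1 : (m + 2) / 2 = m / 2 + 1 := by omega
    rw [h1, Nat.choose_succ_succ]
    push_cast
    ring

theorem PE_succ (n : ℕ) (z : ℂ) :
    PE (n + 1) z = (1 + z ^ 2) * PE n z + (1 - z) * (n.choose (n / 2) : ℂ) * z ^ (n + 1) := by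
  have h := partial_rec n n z
  have hs : n.choose ((n + 1) / 2) = n.choose (n / 2) := by
    have : (n + 1) / 2 = n - n / 2 := by omega
    rw [this, Nat.choose_symm (by omega)]
  rw [PE, h, PE, sum_range_succ, hs]
  ring

/-- `U n = (1 - v) G_n(v)`. -/
noncomputable def U (v : ℂ) : ℕ → ℂ
  | 0 => 1 - v
  | (n + 1) => U v n + (1 - v) * ((n.choose (n / 2) : ℂ) / 2 ^ n) * v ^ (n + 1)

theorem PE_eq (z : ℂ) (hz : 1 + z ^ 2 ≠ 0) (n : ℕ) :
    2 * (1 - z) * PE n z = (1 + z ^ 2) ^ (n + 1) *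
      ((1 - z ^ 2) / (1 + z ^ 2) + U (2 * z / (1 + z ^ 2)) n) := by
  induction n with
  | zero =>
    simp only [PE, U]
    simp
    field_simp
    ring
  | succ n ih =>
    rw [PE_succ, U]
    set w := 1 + z ^ 2 with hw
    set v := 2 * z / w with hv
    have h1 : (1 - v) * w = (1 - z) ^ 2 := by
      rw [hv]; field_simp; rw [hw]; ring
    have h2 : v ^ (n + 1) * w ^ (n + 1) = (2 * z) ^ (n + 1) := by
      rw [← mul_pow, hv]; congr 1; field_simp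
    have h3 : w ^ (n + 1 + 1) * ((1 - v) * ((n.choose (n / 2) : ℂ) / 2 ^ n) * v ^ (n + 1)) =
        2 * (1 - z) * ((1 - z) * (n.choose (n / 2) : ℂ) * z ^ (n + 1)) := by
      calc w ^ (n + 1 + 1) * ((1 - v) * ((n.choose (n / 2) : ℂ) / 2 ^ n) * v ^ (n + 1))
          = ((1 - v) * w) * (v ^ (n + 1) * w ^ (n + 1)) * ((n.choose (n / 2) : ℂ) / 2 ^ n) := by
            ring
        _ = (1 - z) ^ 2 * (2 * z) ^ (n + 1) * ((n.choose (n / 2) : ℂ) / 2 ^ n) := by rw [h1, h2]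
        _ = _ := by
            rw [mul_pow, pow_succ 2 n]
            field_simp
    have h4 : w ^ (n + 1 + 1) * ((1 - z ^ 2) / w + (U v n + (1 - v) *
        ((n.choose (n / 2) : ℂ) / 2 ^ n) * v ^ (n + 1))) =
        w * (w ^ (n + 1) * ((1 - z ^ 2) / w + U v n)) +
        w ^ (n + 1 + 1) * ((1 - v) * ((n.choose (n / 2) : ℂ) / 2 ^ n) * v ^ (n + 1)) := by ring
    rw [h4, h3, ← ih]
    ring

theorem Qc_succ (μ : ℕ) (x : ℂ) : Qc (μ + 1) x = Qc μ x + (g μ : ℂ) * x ^ μ := by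
  rw [Qc, Qc, sum_range_succ]

theorem U_closed (v : ℂ) (μ : ℕ) :
    U v (2 * μ) = 1 - v ^ 2 * Qc μ (v ^ 2) - (a μ : ℂ) * v ^ (2 * μ + 1) ∧
    U v (2 * μ + 1) = 1 - v ^ 2 * Qc μ (v ^ 2) - (a μ : ℂ) * v ^ (2 * μ + 2) := by
  have hodd : ∀ μ, U v (2 * μ) = 1 - v ^ 2 * Qc μ (v ^ 2) - (a μ : ℂ) * v ^ (2 * μ + 1) →
      U v (2 * μ + 1) = 1 - v ^ 2 * Qc μ (v ^ 2) - (a μ : ℂ) * v ^ (2 * μ + 2) := by
    intro μ h
    rw [U, h]
    have h1 : (((2 * μ).choose (2 * μ / 2) : ℕ) : ℂ) / 2 ^ (2 * μ) = (a μ : ℂ) := by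
      rw [a, Nat.mul_div_cancel_left _ (by norm_num : 0 < 2), Nat.centralBinom, pow_mul]
      push_cast
      norm_num
    rw [h1]
    ring
  induction μ with
  | zero =>
    have h0 : U v (2 * 0) = 1 - v ^ 2 * Qc 0 (v ^ 2) - (a 0 : ℂ) * v ^ (2 * 0 + 1) := by
      simp [U, Qc, a_zero]
    exact ⟨h0, hodd 0 h0⟩
  | succ μ ih =>
    have h0 : U v (2 * (μ + 1)) =
        1 - v ^ 2 * Qc (μ + 1) (v ^ 2) - (a (μ + 1) : ℂ) * v ^ (2 * (μ + 1) + 1) := by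
      have e1 : 2 * (μ + 1) = (2 * μ + 1) + 1 := by ring
      rw [e1, U, ih.2, Qc_succ]
      have h1 : (((2 * μ + 1).choose ((2 * μ + 1) / 2) : ℕ) : ℂ) / 2 ^ (2 * μ + 1) =
          (a (μ + 1) : ℂ) := by
        have h2 : (2 * μ + 1) / 2 = μ := by omega
        have h3 : Nat.centralBinom (μ + 1) = 2 * (2 * μ + 1).choose μ := by
          rw [Nat.centralBinom, show 2 * (μ + 1) = (2 * μ + 1) + 1 by ring,
            Nat.choose_succ_succ, Nat.choose_symm_half]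
          ring
        rw [a, h2, h3, pow_succ, pow_succ, pow_mul]
        push_cast
        norm_num
        field_simp
        norm_num
      rw [h1]
      have h2 : (g μ : ℂ) = (a μ : ℂ) - a (μ + 1) := by
        rw [← a_sub μ]; push_cast; ring
      rw [h2]
      ring
    exact ⟨h0, hodd (μ + 1) h0⟩

/-- Even index: lower bound for `|v|`. -/
theorem lower_even (μ : ℕ) (hμ : 1 ≤ μ) (v : ℂ) (hv0 : v ≠ 0) (hv1 : v ^ 2 ≠ 1)
    (h : (1 - v ^ 2 * Qc μ (v ^ 2) - (a μ : ℂ) * v ^ (2 * μ + 1)) ^ 2 = 1 - v ^ 2) :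
    (2 * (μ : ℝ) + 2) / (2 * μ + 1) < ‖v‖ := by
  obtain ⟨η, hη, hsum, hid⟩ := eta_complex μ hμ
  by_contra hcon
  push Not at hcon
  set R : ℝ := (2 * (μ : ℝ) + 2) / (2 * μ + 1) with hR
  set x := v ^ 2 with hx
  have hx0 : x ≠ 0 := pow_ne_zero 2 hv0
  set E := ∑ i ∈ range μ, (η i : ℂ) * x ^ i with hE
  set A : ℝ := a μ ^ 2 with hA
  have hAc : (A : ℂ) = (a μ : ℂ) ^ 2 := by rw [hA]; push_cast; ring
  have hidx := hid x
  rw [← hE] at hidx
  set q := Qc μ x with hq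
  set α : ℂ := (a μ : ℂ) with hα
  have hvp : v ^ (2 * μ + 1) = v * x ^ μ := by rw [hx, ← pow_mul, ← pow_succ']
  rw [hvp] at h
  -- 2 a W = v (E + a² x^μ)
  have h1 : 2 * α * (1 - x * q) = v * (E + α ^ 2 * x ^ μ) := by
    have h2 : v * x ^ μ * (v * (E + α ^ 2 * x ^ μ) - 2 * α * (1 - x * q)) = 0 := by
      have h3 : (1 - x * q) ^ 2 = 1 - x + x * (x ^ μ * E) := by rw [← hidx]; ring
      have h4 : v * v = x := by rw [hx]; ring
      have h5 : (1 - x * q - α * (v * x ^ μ)) ^ 2 =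
        (1 - x * q) ^ 2 - 2 * α * (1 - x * q) * (v * x ^ μ) + α ^ 2 * (v * v) * (x ^ μ) ^ 2 := by
        ring
      rw [h5, h3, h4] at h
      have h6 : v * x ^ μ * (v * (E + α ^ 2 * x ^ μ) - 2 * α * (1 - x * q)) =
        (v * v) * x ^ μ * E + α ^ 2 * (v * v) * (x ^ μ) ^ 2
          - 2 * α * (1 - x * q) * (v * x ^ μ) := by ring
      rw [h6, h4]
      linear_combination h
    have h7 : v * x ^ μ ≠ 0 := mul_ne_zero hv0 (pow_ne_zero _ hx0)
    have := (mul_eq_zero.mp h2).resolve_left h7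
    linear_combination -this
  have h2 : x * (E - A * x ^ μ) ^ 2 = 4 * A * (1 - x) := by
    have h3 : (1 - x * q) ^ 2 = 1 - x + x * (x ^ μ * E) := by rw [← hidx]; ring
    have h4 : (2 * α * (1 - x * q)) ^ 2 = x * (E + α ^ 2 * x ^ μ) ^ 2 := by
      rw [h1, mul_pow, ← hx]
    rw [hAc]
    have h5 : (2 * α * (1 - x * q)) ^ 2 = 4 * α ^ 2 * (1 - x + x * (x ^ μ * E)) := by
      rw [← h3]; ring
    rw [h5] at h4
    linear_combination -h4
  -- norms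
  have hρ1 : (1 : ℝ) ≤ R ^ 2 := by
    have hR1 : 1 ≤ R := by
      rw [hR, le_div_iff₀ (by positivity)]; linarith
    nlinarith
  have hxρ : ‖x‖ ≤ R ^ 2 := by
    rw [hx, norm_pow]
    gcongr
  have hb1 := bound_one η hη μ μ le_rfl A hsum x (R ^ 2) hρ1 hxρ
  have hb2 := bound_two η hη μ μ le_rfl A hsum x (R ^ 2) hxρ
  rw [← hE] at hb1 hb2
  set D := ‖E - A * x ^ μ‖ with hD
  have hA0 : 0 < A := by rw [hA]; have := a_pos μ; positivity
  have h3 : ‖x‖ * D ^ 2 = 4 * A * ‖1 - x‖ := by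
    have h31 := congrArg norm h2
    rw [norm_mul x, norm_pow (E - A * x ^ μ), norm_mul, norm_mul, Complex.norm_real,
      Real.norm_of_nonneg hA0.le, ← hD] at h31
    rw [h31]; norm_num
  have h4 : 0 < ‖1 - x‖ := norm_pos_iff.mpr (sub_ne_zero.mpr (Ne.symm hv1))
  have hnum := num_even μ R (R ^ 2) hR rfl
  set T := ∑ l ∈ range μ, (R ^ 2) ^ l with hT
  have h5 : ‖x‖ * D ^ 2 ≤ R ^ 2 * ((2 * A * (R ^ 2) ^ μ) * (‖1 - x‖ * (A * T))) := by
    have hD0 : 0 ≤ D := norm_nonneg _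
    rw [sq D]
    apply mul_le_mul hxρ _ (mul_nonneg hD0 hD0) (by positivity)
    exact mul_le_mul hb1 hb2 hD0 (by positivity)
  rw [h3] at h5
  have h6 : R ^ 2 * ((2 * A * (R ^ 2) ^ μ) * (‖1 - x‖ * (A * T))) =
      (2 * A * ‖1 - x‖) * (A * (R ^ 2) ^ (μ + 1) * T) := by ring
  rw [h6] at h5
  have h7 : (2 * A * ‖1 - x‖) * (A * (R ^ 2) ^ (μ + 1) * T) < (2 * A * ‖1 - x‖) * 2 :=
    mul_lt_mul_of_pos_left hnum (by positivity)
  linarith

/-- Odd index: lower bound for `|v|²`. -/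
theorem lower_odd (μ : ℕ) (hμ : 1 ≤ μ) (v : ℂ) (hv0 : v ≠ 0) (hv1 : v ^ 2 ≠ 1)
    (h : (1 - v ^ 2 * Qc μ (v ^ 2) - (a μ : ℂ) * v ^ (2 * μ + 2)) ^ 2 = 1 - v ^ 2) :
    ((μ : ℝ) + 2) / (μ + 1) < ‖v‖ ^ 2 := by
  obtain ⟨η, hη, hsum, hid⟩ := eta_complex μ hμ
  by_contra hcon
  push Not at hcon
  set ρ : ℝ := ((μ : ℝ) + 2) / (μ + 1) with hρ
  set x := v ^ 2 with hx
  have hx0 : x ≠ 0 := pow_ne_zero 2 hv0
  set E := ∑ i ∈ range μ, (η i : ℂ) * x ^ i with hE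
  set A : ℝ := a μ ^ 2 with hA
  have hAc : (A : ℂ) = (a μ : ℂ) ^ 2 := by rw [hA]; push_cast; ring
  have hidx := hid x
  rw [← hE] at hidx
  set q := Qc μ x with hq
  set α : ℂ := (a μ : ℂ) with hα
  have hvp : v ^ (2 * μ + 2) = x ^ (μ + 1) := by rw [hx, ← pow_mul]; ring_nf
  rw [hvp] at h
  have h3 : (1 - x * q) ^ 2 = 1 - x + x ^ (μ + 1) * E := by
    have h31 : x ^ (μ + 1) * E = x * (x ^ μ * E) := by ring
    rw [h31, ← hidx]; ring
  have h1 : 2 * α * (1 - x * q) = E + α ^ 2 * x ^ (μ + 1) := by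
    have h2 : x ^ (μ + 1) * ((E + α ^ 2 * x ^ (μ + 1)) - 2 * α * (1 - x * q)) = 0 := by
      linear_combination h - h3
    have h7 : x ^ (μ + 1) ≠ 0 := pow_ne_zero _ hx0
    have := (mul_eq_zero.mp h2).resolve_left h7
    linear_combination -this
  have h2 : (E - A * x ^ (μ + 1)) ^ 2 = 4 * A * (1 - x) := by
    have h4 : (2 * α * (1 - x * q)) ^ 2 = (E + α ^ 2 * x ^ (μ + 1)) ^ 2 := by rw [h1]
    rw [hAc]
    have h5 : (2 * α * (1 - x * q)) ^ 2 = 4 * α ^ 2 * (1 - x + x ^ (μ + 1) * E) := by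
      rw [← h3]; ring
    rw [h5] at h4
    linear_combination -h4
  have hρ1 : (1 : ℝ) ≤ ρ := by
    rw [hρ, le_div_iff₀ (by positivity)]; linarith
  have hxρ : ‖x‖ ≤ ρ := by
    rw [hx, norm_pow]
    exact hcon
  have hb1 := bound_one η hη μ (μ + 1) (by omega) A hsum x ρ hρ1 hxρ
  have hb2 := bound_two η hη μ (μ + 1) (by omega) A hsum x ρ hxρ
  rw [← hE] at hb1 hb2
  set D := ‖E - A * x ^ (μ + 1)‖ with hD
  have hA0 : 0 < A := by rw [hA]; have := a_pos μ; positivity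
  have h3' : D ^ 2 = 4 * A * ‖1 - x‖ := by
    have h31 := congrArg norm h2
    rw [norm_pow, norm_mul, norm_mul, Complex.norm_real, Real.norm_of_nonneg hA0.le,
      ← hD] at h31
    rw [h31]; norm_num
  have h4 : 0 < ‖1 - x‖ := norm_pos_iff.mpr (sub_ne_zero.mpr (Ne.symm hv1))
  have hnum := num_odd μ hμ ρ hρ
  set T := ∑ l ∈ range (μ + 1), ρ ^ l with hT
  have h5 : D ^ 2 ≤ (2 * A * ρ ^ (μ + 1)) * (‖1 - x‖ * (A * T)) := by
    have hD0 : 0 ≤ D := norm_nonneg _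
    rw [sq D]
    exact mul_le_mul hb1 hb2 hD0 (by positivity)
  rw [h3'] at h5
  have h6 : (2 * A * ρ ^ (μ + 1)) * (‖1 - x‖ * (A * T)) =
      (2 * A * ‖1 - x‖) * (A * ρ ^ (μ + 1) * T) := by ring
  rw [h6] at h5
  have h7 : (2 * A * ‖1 - x‖) * (A * ρ ^ (μ + 1) * T) < (2 * A * ‖1 - x‖) * 2 :=
    mul_lt_mul_of_pos_left hnum (by positivity)
  linarith

end Pool.R712.Pasc
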