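import Pool.Agent.R712.PascSeq

/-!
Location of the roots of Pascalian polynomials in the variable `v = 2z/(1+z²)`.
-/

set_option autoImplicit false

namespace Pool.R712.Pasc

open Finset Polynomial

/-- complex version of `Q`. -/
noncomputable def Qc (μ : ℕ) (x : ℂ) : ℂ := ∑ j ∈ range μ, (g j : ℂ) * x ^ j

theorem eval_Q (μ : ℕ) (x : ℂ) : (Q μ).eval₂ (algebraMap ℝ ℂ) x = Qc μ x := by
  rw [Q, Qc, eval₂_finsetSum]
  simp

theorem sum_g (μ : ℕ) : ∑ j ∈ range μ, g j = 1 - a μ := by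
  induction μ with
  | zero => simp [a_zero]
  | succ μ ih => rw [sum_range_succ, ih, ← a_sub]; ring

theorem eta_complex (μ : ℕ) (hμ : 1 ≤ μ) : ∃ η : ℕ → ℝ, (∀ i, 0 ≤ η i) ∧
    ∑ i ∈ range μ, η i = a μ ^ 2 ∧
    ∀ x : ℂ, x * Qc μ x ^ 2 - 2 * Qc μ x + 1 = x ^ μ * ∑ i ∈ range μ, (η i : ℂ) * x ^ i := by
  obtain ⟨η, h1, h2⟩ := exists_eta μ hμ
  refine ⟨η, h1, ?_, ?_⟩
  · have h3 := congrArg (Polynomial.eval 1) h2
    simp only [eval_add, eval_sub, eval_mul, eval_X, eval_pow, eval_finsetSum, eval_C,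
      eval_one, one_pow, mul_one, one_mul] at h3
    have h4 : (Q μ).eval 1 = 1 - a μ := by
      rw [Q, eval_finsetSum, ← sum_g]
      simp
    rw [h4] at h3
    rw [← h3]
    have : eval 1 (2 : ℝ[X]) = 2 := by
      rw [show (2 : ℝ[X]) = C 2 from rfl, eval_C]
    rw [this]; ring
  · intro x
    have h3 := congrArg (Polynomial.eval₂ (algebraMap ℝ ℂ) x) h2
    simp only [eval₂_add, eval₂_sub, eval₂_mul, eval₂_X, eval₂_pow, eval₂_finsetSum, eval₂_C,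
      eval₂_one, eval_Q] at h3
    have : eval₂ (algebraMap ℝ ℂ) x (2 : ℝ[X]) = 2 := by
      rw [show (2 : ℝ[X]) = C 2 from rfl, eval₂_C]; simp
    rw [this] at h3
    exact h3

theorem norm_pow_sub (x : ℂ) (ρ : ℝ) (hx : ‖x‖ ≤ ρ) (i k : ℕ) (hik : i ≤ k) :
    ‖x ^ i - x ^ k‖ ≤ ‖1 - x‖ * ∑ l ∈ range k, ρ ^ l := by
  have hρ : 0 ≤ ρ := (norm_nonneg x).trans hx
  induction k, hik using Nat.le_induction with
  | base =>
    rw [sub_self, norm_zero]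
    exact mul_nonneg (norm_nonneg _) (sum_nonneg fun l _ => by positivity)
  | succ k _ ih =>
    have h1 : x ^ i - x ^ (k + 1) = (x ^ i - x ^ k) + (1 - x) * x ^ k := by ring
    rw [h1, sum_range_succ, mul_add]
    refine (norm_add_le _ _).trans (add_le_add ih ?_)
    rw [norm_mul, norm_pow]
    gcongr

theorem bound_one (η : ℕ → ℝ) (hη : ∀ i, 0 ≤ η i) (μ k : ℕ) (hk : μ ≤ k) (A : ℝ)
    (hA : ∑ i ∈ range μ, η i = A) (x : ℂ) (ρ : ℝ) (hρ : 1 ≤ ρ) (hx : ‖x‖ ≤ ρ) :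
    ‖∑ i ∈ range μ, (η i : ℂ) * x ^ i - A * x ^ k‖ ≤ 2 * A * ρ ^ k := by
  have hA0 : 0 ≤ A := hA ▸ sum_nonneg fun i _ => hη i
  have h1 : ‖∑ i ∈ range μ, (η i : ℂ) * x ^ i‖ ≤ A * ρ ^ k := by
    refine (norm_sum_le _ _).trans ?_
    rw [← hA, sum_mul]
    apply sum_le_sum
    intro i hi
    rw [mem_range] at hi
    rw [norm_mul, norm_pow, Complex.norm_real, Real.norm_of_nonneg (hη i)]
    apply mul_le_mul_of_nonneg_left _ (hη i)
    calc ‖x‖ ^ i ≤ ρ ^ i := by gcongr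
      _ ≤ ρ ^ k := pow_le_pow_right₀ hρ (by omega)
  have h2 : ‖(A : ℂ) * x ^ k‖ ≤ A * ρ ^ k := by
    rw [norm_mul, norm_pow, Complex.norm_real, Real.norm_of_nonneg hA0]
    gcongr
  calc _ ≤ ‖∑ i ∈ range μ, (η i : ℂ) * x ^ i‖ + ‖(A : ℂ) * x ^ k‖ := norm_sub_le _ _
    _ ≤ A * ρ ^ k + A * ρ ^ k := add_le_add h1 h2
    _ = 2 * A * ρ ^ k := by ring

theorem bound_two (η : ℕ → ℝ) (hη : ∀ i, 0 ≤ η i) (μ k : ℕ) (hk : μ ≤ k) (A : ℝ)
    (hA : ∑ i ∈ range μ, η i = A) (x : ℂ) (ρ : ℝ) (hx : ‖x‖ ≤ ρ) :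
    ‖∑ i ∈ range μ, (η i : ℂ) * x ^ i - A * x ^ k‖ ≤
      ‖1 - x‖ * (A * ∑ l ∈ range k, ρ ^ l) := by
  have h1 : ∑ i ∈ range μ, (η i : ℂ) * x ^ i - A * x ^ k =
      ∑ i ∈ range μ, (η i : ℂ) * (x ^ i - x ^ k) := by
    rw [← hA]
    push_cast
    rw [sum_mul, ← sum_sub_distrib]
    apply sum_congr rfl
    intro i _; ring
  rw [h1]
  refine (norm_sum_le _ _).trans ?_
  rw [← hA, sum_mul, mul_sum]
  apply sum_le_sum
  intro i hi
  rw [mem_range] at hi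
  rw [norm_mul, Complex.norm_real, Real.norm_of_nonneg (hη i)]
  calc η i * ‖x ^ i - x ^ k‖ ≤ η i * (‖1 - x‖ * ∑ l ∈ range k, ρ ^ l) :=
        mul_le_mul_of_nonneg_left (norm_pow_sub x ρ hx i k (by omega)) (hη i)
    _ = ‖1 - x‖ * (η i * ∑ l ∈ range k, ρ ^ l) := by ring

theorem pow_le_exp_one (n : ℕ) (hn : 1 ≤ n) : (1 + 1 / (n : ℝ)) ^ n ≤ Real.exp 1 := by
  have hn' : (0 : ℝ) < n := by exact_mod_cast hn
  have h1 : 1 + 1 / (n : ℝ) ≤ Real.exp (1 / n) := by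
    have := Real.add_one_le_exp (1 / (n : ℝ)); linarith
  calc (1 + 1 / (n : ℝ)) ^ n ≤ Real.exp (1 / n) ^ n := by gcongr
    _ = Real.exp 1 := by rw [← Real.exp_nat_mul]; congr 1; field_simp

/-- Numerical inequality for even index. -/
theorem num_even (μ : ℕ) (R ρ : ℝ) (hR : R = (2 * μ + 2) / (2 * μ + 1)) (hρ : ρ = R ^ 2) :
    a μ ^ 2 * ρ ^ (μ + 1) * ∑ l ∈ range μ, ρ ^ l < 2 := by
  have hμ0 : (0 : ℝ) ≤ μ := by positivity
  have hR1 : 1 < R := by rw [hR, lt_div_iff₀ (by positivity)]; linarith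
  have hE := pow_le_exp_one (2 * μ + 1) (by omega)
  have hRe : 1 + 1 / ((2 * μ + 1 : ℕ) : ℝ) = R := by
    rw [hR]; push_cast; field_simp; ring
  rw [hRe] at hE
  set e := Real.exp 1 with he
  have he1 : e < 2.7182818286 := Real.exp_one_lt_d9
  have he0 : (2.7182818283 : ℝ) < e := Real.exp_one_gt_d9
  have hρ1 : 1 < ρ := by rw [hρ]; nlinarith
  have hsum : (∑ l ∈ range μ, ρ ^ l) * (ρ - 1) = ρ ^ μ - 1 := geom_sum_mul ρ μ
  have hρμ : ρ ^ μ * R = R ^ (2 * μ + 1) := by rw [hρ, ← pow_mul, ← pow_succ]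
  have hρμ1 : ρ ^ (μ + 1) = R ^ (2 * μ + 1) * R := by rw [hρ, ← pow_mul, ← pow_succ]; ring_nf
  have ha := a_sq_le μ
  have hρ2 : (ρ - 1) * (2 * μ + 1) ^ 2 = 4 * μ + 3 := by
    rw [hρ, hR]; field_simp; ring
  -- combine
  set T := ∑ l ∈ range μ, ρ ^ l with hT
  have hT0 : 0 ≤ T := sum_nonneg fun l _ => by positivity
  have h1 : R * T * (ρ - 1) ≤ e - R := by
    have : R * T * (ρ - 1) = R ^ (2 * μ + 1) - R := by
      rw [mul_assoc, hsum, ← hρμ]; ring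
    rw [this]; linarith
  have h2 : R * T * (4 * μ + 3) ≤ (e - 1) * (2 * μ + 1) ^ 2 := by
    rw [← hρ2]
    have h3 : R * T * (ρ - 1) ≤ e - 1 := by linarith
    calc R * T * ((ρ - 1) * (2 * μ + 1) ^ 2) = (R * T * (ρ - 1)) * (2 * μ + 1) ^ 2 := by ring
      _ ≤ (e - 1) * (2 * μ + 1) ^ 2 := mul_le_mul_of_nonneg_right h3 (by positivity)
  have h4 : ρ ^ (μ + 1) * T ≤ e * (R * T) := by
    rw [hρμ1]
    calc R ^ (2 * μ + 1) * R * T = R ^ (2 * μ + 1) * (R * T) := by ring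
      _ ≤ e * (R * T) := mul_le_mul_of_nonneg_right hE (by positivity)
  have h5 : a μ ^ 2 * ρ ^ (μ + 1) * T * ((3 * μ + 1) * (4 * μ + 3)) ≤
      e * (e - 1) * (2 * μ + 1) ^ 2 := by
    have he2 : 0 ≤ e - 1 := by linarith
    have hRT : 0 ≤ R * T := by positivity
    calc a μ ^ 2 * ρ ^ (μ + 1) * T * ((3 * μ + 1) * (4 * μ + 3))
        = (a μ ^ 2 * (3 * μ + 1)) * ((ρ ^ (μ + 1) * T) * (4 * μ + 3)) := by ring
      _ ≤ 1 * ((ρ ^ (μ + 1) * T) * (4 * μ + 3)) :=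
          mul_le_mul_of_nonneg_right ha (by positivity)
      _ ≤ (e * (R * T)) * (4 * μ + 3) := by
          rw [one_mul]; exact mul_le_mul_of_nonneg_right h4 (by positivity)
      _ = e * (R * T * (4 * μ + 3)) := by ring
      _ ≤ e * ((e - 1) * (2 * μ + 1) ^ 2) := mul_le_mul_of_nonneg_left h2 (by linarith)
      _ = e * (e - 1) * (2 * μ + 1) ^ 2 := by ring
  by_contra hcon
  push Not at hcon
  have h6 : 2 * ((3 * (μ : ℝ) + 1) * (4 * μ + 3)) ≤ e * (e - 1) * (2 * μ + 1) ^ 2 :=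
    (mul_le_mul_of_nonneg_right hcon (by positivity)).trans h5
  have h7 : e * (e - 1) ≤ 4.68 := by nlinarith
  have h8 : e * (e - 1) * (2 * (μ : ℝ) + 1) ^ 2 ≤ 4.68 * (2 * μ + 1) ^ 2 :=
    mul_le_mul_of_nonneg_right h7 (by positivity)
  nlinarith

/-- Numerical inequality for odd index. -/
theorem num_odd (μ : ℕ) (hμ : 1 ≤ μ) (ρ : ℝ) (hρ : ρ = (μ + 2) / (μ + 1)) :
    a μ ^ 2 * ρ ^ (μ + 1) * ∑ l ∈ range (μ + 1), ρ ^ l < 2 := by
  have ha := a_sq_le μ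
  have ha1 : a 1 = 1 / 2 := by simp [a, Nat.centralBinom, Nat.choose]; norm_num
  have ha2 : a 2 = 3 / 8 := by simp [a, Nat.centralBinom, Nat.choose]; norm_num
  have hρ1 : 1 < ρ := by
    rw [hρ, lt_div_iff₀ (by positivity)]; linarith
  have hsum : (∑ l ∈ range (μ + 1), ρ ^ l) * (ρ - 1) = ρ ^ (μ + 1) - 1 := geom_sum_mul ρ _
  have hρ2 : (ρ - 1) * (μ + 1) = 1 := by rw [hρ]; field_simp; ring
  have hsum2 : ∑ l ∈ range (μ + 1), ρ ^ l = (ρ ^ (μ + 1) - 1) * (μ + 1) := by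
    rw [← hsum, mul_assoc, hρ2, mul_one]
  rw [hsum2]
  rcases (by omega : μ = 1 ∨ μ = 2 ∨ 3 ≤ μ) with h | h | h
  · subst h; rw [hρ, ha1]; norm_num
  · subst h; rw [hρ, ha2]; norm_num
  · have hE := pow_le_exp_one (μ + 1) (by omega)
    have hRe : 1 + 1 / ((μ + 1 : ℕ) : ℝ) = ρ := by
      rw [hρ]; push_cast; field_simp; ring
    rw [hRe] at hE
    set e := Real.exp 1 with he
    have he1 : e < 2.7182818286 := Real.exp_one_lt_d9
    have he0 : (2.7182818283 : ℝ) < e := Real.exp_one_gt_d9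
    have hμ3 : (3 : ℝ) ≤ μ := by exact_mod_cast h
    have hp1 : 1 ≤ ρ ^ (μ + 1) := one_le_pow₀ hρ1.le
    have h1 : ρ ^ (μ + 1) * (ρ ^ (μ + 1) - 1) ≤ 4.68 := by nlinarith
    have h2 : a μ ^ 2 * ρ ^ (μ + 1) * ((ρ ^ (μ + 1) - 1) * (μ + 1)) * (3 * μ + 1) ≤
        4.68 * (μ + 1) := by
      calc a μ ^ 2 * ρ ^ (μ + 1) * ((ρ ^ (μ + 1) - 1) * (μ + 1)) * (3 * μ + 1)
          = (a μ ^ 2 * (3 * μ + 1)) * ((ρ ^ (μ + 1) * (ρ ^ (μ + 1) - 1)) * (μ + 1)) := by ring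
        _ ≤ 1 * ((ρ ^ (μ + 1) * (ρ ^ (μ + 1) - 1)) * (μ + 1)) := by
            apply mul_le_mul_of_nonneg_right ha
            have : 0 ≤ ρ ^ (μ + 1) - 1 := by linarith
            positivity
        _ ≤ 4.68 * (μ + 1) := by
            rw [one_mul]; exact mul_le_mul_of_nonneg_right h1 (by positivity)
    by_contra hcon
    push Not at hcon
    have h3 : 2 * (3 * (μ : ℝ) + 1) ≤ 4.68 * (μ + 1) :=
      (mul_le_mul_of_nonneg_right hcon (by positivity)).trans h2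
    linarith

end Pool.R712.Pasc
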