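import Mathlib

/-!
The sequences `a j = C(2j,j)/4^j`, `g j = a j - a (j+1)`, and the truncations of `√(1-x)`.
-/

set_option autoImplicit false

namespace Pool.R712.Pasc

open Finset Polynomial

/-- `a j = C(2j,j)/4^j`. -/
noncomputable def a (j : ℕ) : ℝ := (Nat.centralBinom j : ℝ) / 4 ^ j

/-- `g j = catalan j / (2 * 4^j)`. -/
noncomputable def g (j : ℕ) : ℝ := (catalan j : ℝ) / (2 * 4 ^ j)

theorem a_pos (j : ℕ) : 0 < a j := by
  rw [a]
  have : 0 < Nat.centralBinom j := Nat.centralBinom_pos j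
  positivity

theorem g_nonneg (j : ℕ) : 0 ≤ g j := by rw [g]; positivity

theorem a_zero : a 0 = 1 := by simp [a]

theorem g_zero : g 0 = 1 / 2 := by simp [g]

theorem g_eq (j : ℕ) : g j * (2 * j + 2) = a j := by
  have h := succ_mul_catalan_eq_centralBinom j
  have h' : ((j : ℝ) + 1) * catalan j = Nat.centralBinom j := by exact_mod_cast h
  rw [g, a, ← h']
  field_simp

theorem a_succ (j : ℕ) : a (j + 1) * (2 * j + 2) = a j * (2 * j + 1) := by
  have h := Nat.succ_mul_centralBinom_succ j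
  have h' : ((j : ℝ) + 1) * Nat.centralBinom (j + 1) = 2 * (2 * j + 1) * Nat.centralBinom j := by
    exact_mod_cast h
  rw [a, a, pow_succ]
  field_simp
  linarith

theorem a_sub (j : ℕ) : a j - a (j + 1) = g j := by
  have h1 := g_eq j
  have h2 := a_succ j
  have h3 : (0 : ℝ) < 2 * j + 2 := by positivity
  have h4 : (a j - a (j + 1)) * (2 * j + 2) = g j * (2 * j + 2) := by
    rw [sub_mul, h1, h2]; ring
  exact mul_right_cancel₀ h3.ne' h4

theorem g_eq' (j : ℕ) : g j * (2 * j + 1) = a (j + 1) := by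
  have h1 := g_eq j
  have h2 := a_sub j
  linarith

theorem g_conv (k : ℕ) : ∑ p ∈ antidiagonal k, g p.1 * g p.2 = 2 * g (k + 1) := by
  have h : (catalan (k + 1) : ℝ) = ∑ p ∈ antidiagonal k, (catalan p.1 : ℝ) * catalan p.2 := by
    rw [catalan_succ']; push_cast; rfl
  rw [g, h, pow_succ, mul_div_assoc', Finset.mul_sum, Finset.sum_div]
  apply Finset.sum_congr rfl
  intro p hp
  rw [HasAntidiagonal.mem_antidiagonal] at hp
  rw [g, g, ← hp, pow_add]
  field_simp
  ring

theorem a_sq_le (j : ℕ) : a j ^ 2 * (3 * j + 1) ≤ 1 := by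
  induction j with
  | zero => simp [a_zero]
  | succ j ih =>
    have h := a_succ j
    have hp := a_pos j
    have hp1 := a_pos (j + 1)
    have h3 : a (j + 1) ^ 2 * (2 * j + 2) ^ 2 = a j ^ 2 * (2 * j + 1) ^ 2 := by
      have : (a (j + 1) * (2 * j + 2)) ^ 2 = (a j * (2 * j + 1)) ^ 2 := by rw [h]
      rw [mul_pow, mul_pow] at this
      exact this
    have hj : (0 : ℝ) ≤ j := by positivity
    have h4 : ((2 : ℝ) * j + 1) ^ 2 * (3 * j + 4) ≤ (2 * j + 2) ^ 2 * (3 * j + 1) := by nlinarith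
    have h5 : a (j + 1) ^ 2 * (3 * (j : ℝ) + 4) * (2 * j + 2) ^ 2 ≤ (2 * j + 2) ^ 2 := by
      calc a (j + 1) ^ 2 * (3 * (j : ℝ) + 4) * (2 * j + 2) ^ 2
          = a j ^ 2 * ((2 * j + 1) ^ 2 * (3 * j + 4)) := by rw [← mul_assoc, ← h3]; ring
        _ ≤ a j ^ 2 * ((2 * j + 2) ^ 2 * (3 * j + 1)) :=
            mul_le_mul_of_nonneg_left h4 (by positivity)
        _ = (a j ^ 2 * (3 * j + 1)) * (2 * j + 2) ^ 2 := by ring
        _ ≤ 1 * (2 * j + 2) ^ 2 := mul_le_mul_of_nonneg_right ih (by positivity)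
        _ = (2 * j + 2) ^ 2 := one_mul _
    have h6 : (0 : ℝ) < (2 * j + 2) ^ 2 := by positivity
    have h7 : a (j + 1) ^ 2 * (3 * (j : ℝ) + 4) ≤ 1 := by
      by_contra hcon
      push Not at hcon
      have := mul_lt_mul_of_pos_right hcon h6
      linarith
    push_cast
    linarith

/-- The polynomial `Q_μ = ∑_{j<μ} g_j X^j`. -/
noncomputable def Q (μ : ℕ) : ℝ[X] := ∑ j ∈ range μ, C (g j) * X ^ j

theorem coeff_Q (μ k : ℕ) : (Q μ).coeff k = if k < μ then g k else 0 := by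
  rw [Q, finsetSum_coeff]
  simp only [coeff_C_mul, coeff_X_pow]
  by_cases h : k < μ
  · rw [if_pos h, Finset.sum_eq_single k]
    · simp
    · intro b _ hb
      rw [if_neg (Ne.symm hb), mul_zero]
    · intro h'; exact absurd (mem_range.mpr h) h'
  · rw [if_neg h]
    apply Finset.sum_eq_zero
    intro b hb
    rw [mem_range] at hb
    rw [if_neg (by omega), mul_zero]

theorem coeff_Q_nonneg (μ k : ℕ) : 0 ≤ (Q μ).coeff k := by
  rw [coeff_Q]; split_ifs
  · exact g_nonneg k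
  · exact le_rfl

theorem coeff_QQ_low (μ k : ℕ) (h : k < μ) : (Q μ * Q μ).coeff k = 2 * g (k + 1) := by
  rw [coeff_mul, ← g_conv]
  apply Finset.sum_congr rfl
  intro p hp
  rw [HasAntidiagonal.mem_antidiagonal] at hp
  rw [coeff_Q, coeff_Q, if_pos (by omega), if_pos (by omega)]

theorem coeff_QQ_nonneg (μ k : ℕ) : 0 ≤ (Q μ * Q μ).coeff k := by
  rw [coeff_mul]
  exact Finset.sum_nonneg fun p _ => mul_nonneg (coeff_Q_nonneg _ _) (coeff_Q_nonneg _ _)

theorem coeff_QQ_high (μ k : ℕ) (h : 2 * μ ≤ k + 1) : (Q μ * Q μ).coeff k = 0 := by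
  rw [coeff_mul]
  apply Finset.sum_eq_zero
  intro p hp
  rw [HasAntidiagonal.mem_antidiagonal] at hp
  rw [coeff_Q, coeff_Q]
  by_cases h1 : p.1 < μ
  · rw [if_neg (by omega : ¬ p.2 < μ), mul_zero]
  · rw [if_neg h1, zero_mul]

/-- `1 - x Q_μ(x)` is the truncation of `√(1-x)`; its square is `1 - x + x^{μ+1} η(x)`. -/
theorem exists_eta (μ : ℕ) (hμ : 1 ≤ μ) : ∃ η : ℕ → ℝ, (∀ i, 0 ≤ η i) ∧
    (X * Q μ ^ 2 - 2 * Q μ + 1 : ℝ[X]) = X ^ μ * ∑ i ∈ range μ, C (η i) * X ^ i := by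
  refine ⟨fun i => (Q μ * Q μ).coeff (μ + i - 1), fun i => coeff_QQ_nonneg _ _, ?_⟩
  ext k
  rw [mul_comm (X ^ μ) _, coeff_mul_X_pow']
  have hR : ∀ n, (∑ i ∈ range μ, C ((Q μ * Q μ).coeff (μ + i - 1)) * X ^ i : ℝ[X]).coeff n =
      if n < μ then (Q μ * Q μ).coeff (μ + n - 1) else 0 := by
    intro n
    rw [finsetSum_coeff]
    simp only [coeff_C_mul, coeff_X_pow]
    by_cases h : n < μ
    · rw [if_pos h, Finset.sum_eq_single n]
      · simp
      · intro b _ hb
        rw [if_neg (Ne.symm hb), mul_zero]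
      · intro h'; exact absurd (mem_range.mpr h) h'
    · rw [if_neg h]
      apply Finset.sum_eq_zero
      intro b hb
      rw [mem_range] at hb
      rw [if_neg (by omega), mul_zero]
  rw [hR]
  have hL : (X * Q μ ^ 2 - 2 * Q μ + 1 : ℝ[X]).coeff k =
      (if k = 0 then 0 else (Q μ * Q μ).coeff (k - 1)) - 2 * (Q μ).coeff k +
        (if k = 0 then 1 else 0) := by
    rw [coeff_add, coeff_sub, coeff_one]
    congr 1
    congr 1
    · rcases k with _ | k
      · simp
      · rw [coeff_X_mul, sq]; simp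
    · rw [show (2 : ℝ[X]) = C 2 from rfl, coeff_C_mul]
  rw [hL]
  rcases k with _ | k
  · rw [if_pos rfl, if_pos rfl, coeff_Q, if_pos (by omega), if_neg (by omega), g_zero]
    norm_num
  · rw [if_neg (by omega), if_neg (by omega), Nat.add_sub_cancel, add_zero, coeff_Q]
    by_cases h : μ ≤ k + 1
    · rw [if_neg (by omega), if_pos h, mul_zero, sub_zero]
      by_cases h2 : k + 1 - μ < μ
      · rw [if_pos h2]
        congr 1
        omega
      · rw [if_neg h2]
        exact coeff_QQ_high μ k (by omega)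
    · rw [if_pos (by omega), if_neg h, coeff_QQ_low μ k (by omega)]
      ring

end Pool.R712.Pasc
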