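import Pool.Agent.R993.RR.Stm1

/-!
# MP_7a141f_an, piece St1: solutions staying above `64 B` tend to `1`
-/

set_option autoImplicit false

open Filter Topology

namespace Pool.Agent.R712.RR

open Pool.Agent.R993.RR

theorem B_small : 64 * B ≤ 1 := by
  have h1 : B ≤ 1 / 2 ^ 6 := by
    unfold B
    exact one_div_le_one_div_of_le (by positivity)
      (pow_le_pow_right₀ (by norm_num : (1 : ℝ) ≤ 2) (by norm_num : 6 ≤ 1664))
  norm_num at h1
  linarith

/-- the function `t ↦ log (B + e^t) - t` is Lipschitz with constant `1/65` where `e^t ≥ 64 B` -/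
theorem h_lip (t : ℝ) (ht : 64 * B ≤ Real.exp t) :
    |(Real.log (B + Real.exp t) - t) - Real.log (B + 1)| ≤ 1 / 65 * |t| := by
  have hB := B_pos
  have h0 : (0 : ℝ) ∈ {s : ℝ | Real.log (64 * B) ≤ s} := by
    show Real.log (64 * B) ≤ 0
    exact Real.log_nonpos (by positivity) B_small
  have h1 : t ∈ {s : ℝ | Real.log (64 * B) ≤ s} := by
    show Real.log (64 * B) ≤ t
    rw [Real.log_le_iff_le_exp (by positivity)]
    exact ht
  have hconv : Convex ℝ {s : ℝ | Real.log (64 * B) ≤ s} := convex_Ici _
  have hd : ∀ s ∈ {s : ℝ | Real.log (64 * B) ≤ s},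
      HasDerivWithinAt (fun s => Real.log (B + Real.exp s) - s) (Real.exp s / (B + Real.exp s) - 1)
        {s : ℝ | Real.log (64 * B) ≤ s} s := by
    intro s _
    have hpos : 0 < B + Real.exp s := by positivity
    have h2 : HasDerivAt (fun s => B + Real.exp s) (Real.exp s) s := (Real.hasDerivAt_exp s).const_add B
    exact ((h2.log hpos.ne').sub (hasDerivAt_id s)).hasDerivWithinAt
  have hb : ∀ s ∈ {s : ℝ | Real.log (64 * B) ≤ s}, ‖Real.exp s / (B + Real.exp s) - 1‖ ≤ 1 / 65 := by
    intro s hs
    have hs' : 64 * B ≤ Real.exp s := by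
      have : Real.log (64 * B) ≤ s := hs
      rwa [Real.log_le_iff_le_exp (by positivity)] at this
    have hpos : 0 < B + Real.exp s := by positivity
    have e : Real.exp s / (B + Real.exp s) - 1 = -(B / (B + Real.exp s)) := by
      field_simp
      ring
    rw [e, Real.norm_eq_abs, abs_neg, abs_of_nonneg (by positivity), div_le_div_iff₀ hpos (by norm_num)]
    linarith
  have := hconv.norm_image_sub_le_of_norm_hasDerivWithin_le hd hb h0 h1
  simp only [Real.exp_zero, sub_zero, Real.norm_eq_abs] at this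
  exact this

theorem st1 (h : St1a) : St1 := by
  intro y hy h64
  have hB := B_pos
  obtain ⟨u, hu⟩ : ∃ u : ℕ → ℝ, ∀ n, u n = B + y n := ⟨_, fun _ => rfl⟩
  have hupos : ∀ n, 0 < u n := fun n => by rw [hu]; exact add_pos hB (hy.pos n)
  have huB : ∀ n, B ≤ u n := fun n => by rw [hu]; linarith [hy.pos n]
  have hstep : ∀ n, y (n + 3) = u (n + 2) / u n := fun n => by rw [hy.step n, hu, hu]
  have hustep : ∀ n, u (n + 3) = B + u (n + 2) / u n := fun n => by rw [hu, hstep]
  -- boundedness
  have hK : ∃ K, ∀ n, u n ≤ K := by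
    refine ⟨∑ i ∈ Finset.range 5, u i + (B + 1 + 1 / B + 1 / (B * B)), fun n => ?_⟩
    have hM : 0 < B + 1 + 1 / B + 1 / (B * B) := by positivity
    rcases lt_or_ge n 5 with hn | hn
    · have := Finset.single_le_sum (f := u) (fun i _ => (hupos i).le) (Finset.mem_range.2 hn)
      linarith
    · obtain ⟨m, rfl⟩ := Nat.exists_eq_add_of_le hn
      have e1 : u (m + 5) = B + u (m + 4) / u (m + 2) := hustep (m + 2)
      have e2 : u (m + 4) = B + u (m + 3) / u (m + 1) := hustep (m + 1)
      have e3 : u (m + 3) = B + u (m + 2) / u m := hustep m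
      have p0 := hupos m
      have p1 := hupos (m + 1)
      have p2 := hupos (m + 2)
      have e4 : u (5 + m) = B + B / u (m + 2) + B / (u (m + 1) * u (m + 2)) + 1 / (u m * u (m + 1)) := by
        rw [add_comm 5 m, e1, e2, e3]
        field_simp
        ring
      have f1 : B / u (m + 2) ≤ 1 := by
        rw [div_le_one p2]; exact huB _
      have f2 : B / (u (m + 1) * u (m + 2)) ≤ 1 / B := by
        rw [div_le_div_iff₀ (by positivity) hB]
        have := mul_le_mul (huB (m + 1)) (huB (m + 2)) hB.le p1.le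
        linarith
      have f3 : 1 / (u m * u (m + 1)) ≤ 1 / (B * B) := by
        refine one_div_le_one_div_of_le (by positivity) ?_
        exact mul_le_mul (huB m) (huB (m + 1)) hB.le p0.le
      have f4 : 0 ≤ ∑ i ∈ Finset.range 5, u i := Finset.sum_nonneg fun i _ => (hupos i).le
      rw [e4]
      linarith
  obtain ⟨K, hK⟩ := hK
  obtain ⟨R, hR⟩ : ∃ R : ℕ → ℝ, ∀ n, R n = Real.log (u n) - Real.log (B + 1) := ⟨_, fun _ => rfl⟩
  have hRb : ∃ M, ∀ n, |R n| ≤ M := by
    refine ⟨|Real.log B| + |Real.log K| + |Real.log (B + 1)|, fun n => ?_⟩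
    have h1 : Real.log B ≤ Real.log (u n) := Real.log_le_log hB (huB n)
    have h2 : Real.log (u n) ≤ Real.log K := Real.log_le_log (hupos n) (hK n)
    have h3 : |Real.log (u n)| ≤ |Real.log B| + |Real.log K| := by
      rw [abs_le]
      constructor
      · linarith [neg_abs_le (Real.log B), abs_nonneg (Real.log K)]
      · linarith [le_abs_self (Real.log K), abs_nonneg (Real.log B)]
    rw [hR]
    linarith [abs_sub (Real.log (u n)) (Real.log (B + 1))]
  have hRs : ∀ n, |R (n + 3) - (R (n + 2) - R n)| ≤ 1 / 65 * |R (n + 2) - R n| := by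
    intro n
    have ht : Real.exp (R (n + 2) - R n) = y (n + 3) := by
      rw [hR, hR, hstep]
      have e : Real.log (u (n + 2)) - Real.log (B + 1) - (Real.log (u n) - Real.log (B + 1)) =
          Real.log (u (n + 2)) - Real.log (u n) := by ring
      rw [e, Real.exp_sub, Real.exp_log (hupos _), Real.exp_log (hupos _)]
    have h1 := h_lip (R (n + 2) - R n) (by rw [ht]; exact h64 _)
    rw [ht, ← hu] at h1
    have e2 : R (n + 3) - (R (n + 2) - R n) =
        Real.log (u (n + 3)) - (R (n + 2) - R n) - Real.log (B + 1) := by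
      rw [hR (n + 3)]
      ring
    rw [e2]
    exact h1
  have hlim := h R hRb hRs
  have h2 : Tendsto (fun n => (B + 1) * Real.exp (R n) - B) atTop (𝓝 ((B + 1) * Real.exp 0 - B)) :=
    ((Real.continuous_exp.tendsto 0).comp hlim |>.const_mul (B + 1)).sub_const B
  have e3 : (B + 1) * Real.exp 0 - B = 1 := by
    rw [Real.exp_zero]; ring
  rw [e3] at h2
  refine h2.congr fun n => ?_
  rw [hR, Real.exp_sub, Real.exp_log (hupos n), Real.exp_log (by positivity), hu]
  field_simp
  ring

end Pool.Agent.R712.RR
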