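import Mathlib

/-!
Shift equivalence over `ℤ`: an abstract criterion, and primitivity of nonnegative matrices.
-/

set_option autoImplicit false

namespace Pool.R712.SE

open Matrix

variable {ι κ : Type*} [Fintype ι] [DecidableEq ι] [Fintype κ] [DecidableEq κ]

/-- Shift equivalence over `ℤ`. -/
def ShiftEquiv (A : Matrix ι ι ℤ) (B : Matrix κ κ ℤ) : Prop :=
  ∃ (R : Matrix ι κ ℤ) (S : Matrix κ ι ℤ) (l : ℕ), 1 ≤ l ∧ A * R = R * B ∧ S * A = B * S ∧
    R * S = A ^ l ∧ S * R = B ^ l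

/-- Primitive integer matrices. -/
def Primitive (B : Matrix κ κ ℤ) : Prop :=
  (∀ i j, 0 ≤ B i j) ∧ ∃ N, 1 ≤ N ∧ ∀ i j, 0 < (B ^ N) i j

theorem pow_comm_of (A : Matrix ι ι ℤ) (B : Matrix κ κ ℤ) (S : Matrix κ ι ℤ) (h : B * S = S * A)
    (n : ℕ) : B ^ n * S = S * A ^ n := by
  induction n with
  | zero => simp
  | succ n ih => rw [pow_succ, pow_succ', Matrix.mul_assoc, h, ← Matrix.mul_assoc, ih,
      Matrix.mul_assoc, ← pow_succ', ← pow_succ]

/-- Criterion for shift equivalence. -/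
theorem shiftEquiv_of (A : Matrix ι ι ℤ) (B : Matrix κ κ ℤ) (T P : Matrix ι κ ℤ)
    (S : Matrix κ ι ℤ) (k M : ℕ) (hk : 1 ≤ k + M) (hBS : B * S = S * A) (hTS : T * S = 1)
    (hT : T * B ^ k = P) (hP : (P * B - A * P) * B ^ M = 0)
    (hgen : ∀ Y : Matrix κ κ ℤ, (∀ j, T * B ^ j * Y = 0) → Y = 0) : ShiftEquiv A B := by
  have hPS : P * S = A ^ k := by
    rw [← hT, Matrix.mul_assoc, pow_comm_of A B S hBS, ← Matrix.mul_assoc, hTS, Matrix.one_mul]
  have hAR : A * (P * B ^ M) = P * B ^ M * B := by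
    rw [Matrix.sub_mul, sub_eq_zero] at hP
    rw [← Matrix.mul_assoc, ← hP, Matrix.mul_assoc, Matrix.mul_assoc, ← pow_succ', ← pow_succ]
  refine ⟨P * B ^ M, S, k + M, hk, hAR, hBS.symm, ?_, ?_⟩
  · rw [Matrix.mul_assoc, pow_comm_of A B S hBS, ← Matrix.mul_assoc, hPS, pow_add]
  · have hcomm : ∀ j, B ^ j * (S * (P * B ^ M)) = S * (P * B ^ M) * B ^ j := by
      intro j
      induction j with
      | zero => simp
      | succ j ih =>
        rw [pow_succ', Matrix.mul_assoc, ih, ← Matrix.mul_assoc, ← Matrix.mul_assoc, hBS,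
          Matrix.mul_assoc S A, hAR]
        simp only [Matrix.mul_assoc]
    have hY : S * (P * B ^ M) - B ^ (k + M) = 0 := by
      apply hgen
      intro j
      rw [Matrix.mul_sub, Matrix.mul_assoc, hcomm, ← Matrix.mul_assoc, ← Matrix.mul_assoc, hTS,
        Matrix.one_mul, Matrix.mul_assoc T, ← pow_add, ← hT, Matrix.mul_assoc, ← pow_add,
        Matrix.mul_assoc, ← pow_add, sub_eq_zero]
      congr 2
      omega
    exact sub_eq_zero.mp hY

/-- Shift equivalence is invariant under conjugation. -/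
theorem shiftEquiv_conj (A A' : Matrix ι ι ℤ) (B : Matrix κ κ ℤ) (C D : Matrix ι ι ℤ)
    (hCD : C * D = 1) (hA : A' = C * A * D) (h : ShiftEquiv A' B) : ShiftEquiv A B := by
  obtain ⟨R, S, l, hl, h1, h2, h3, h4⟩ := h
  have hDC : D * C = 1 := mul_eq_one_comm.mp hCD
  have hAD : A * D = D * A' := by
    rw [hA, ← Matrix.mul_assoc, ← Matrix.mul_assoc, hDC, Matrix.one_mul]
  have hCA : C * A = A' * C := by
    rw [hA, Matrix.mul_assoc, hDC, Matrix.mul_one]
  refine ⟨D * R, S * C, l, hl, ?_, ?_, ?_, ?_⟩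
  · rw [← Matrix.mul_assoc, hAD, Matrix.mul_assoc, h1, Matrix.mul_assoc]
  · rw [Matrix.mul_assoc, hCA, ← Matrix.mul_assoc, h2, Matrix.mul_assoc]
  · rw [Matrix.mul_assoc, ← Matrix.mul_assoc R, h3]
    have hpow : A' ^ l * C = C * A ^ l := by
      exact pow_comm_of A A' C hCA.symm l
    rw [hpow, ← Matrix.mul_assoc, hDC, Matrix.one_mul]
  · rw [Matrix.mul_assoc, ← Matrix.mul_assoc C, hCD, Matrix.one_mul, h4]

/-- A matrix is shift equivalent to itself. -/
theorem shiftEquiv_refl (A : Matrix ι ι ℤ) : ShiftEquiv A A :=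
  ⟨A, 1, 1, le_rfl, rfl, by simp, by simp, by simp⟩

/-! ### Primitivity -/

theorem pow_nonneg_entries {B : Matrix κ κ ℤ} (h : ∀ i j, 0 ≤ B i j) (n : ℕ) :
    ∀ i j, 0 ≤ (B ^ n) i j := by
  induction n with
  | zero =>
    intro i j
    rw [pow_zero, Matrix.one_apply]
    split_ifs <;> norm_num
  | succ n ih =>
    intro i j
    rw [pow_succ, Matrix.mul_apply]
    exact Finset.sum_nonneg fun k _ => mul_nonneg (ih i k) (h k j)

theorem pos_trans {B : Matrix κ κ ℤ} (h : ∀ i j, 0 ≤ B i j) {m n : ℕ} {i j k : κ}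
    (h1 : 0 < (B ^ m) i j) (h2 : 0 < (B ^ n) j k) : 0 < (B ^ (m + n)) i k := by
  rw [pow_add, Matrix.mul_apply]
  refine Finset.sum_pos' (fun l _ => mul_nonneg (pow_nonneg_entries h m i l)
    (pow_nonneg_entries h n l k)) ⟨j, Finset.mem_univ _, mul_pos h1 h2⟩

theorem pos_one {B : Matrix κ κ ℤ} {i j : κ} (h : 0 < B i j) : 0 < (B ^ 1) i j := by
  rwa [pow_one]

theorem primitive_of {B : Matrix κ κ ℤ} (h : ∀ i j, 0 ≤ B i j) (v : κ) (hv : 0 < B v v)
    (a b : ℕ) (hto : ∀ i, ∃ n ≤ a, 0 < (B ^ n) i v) (hfrom : ∀ j, ∃ n ≤ b, 0 < (B ^ n) v j) :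
    Primitive B := by
  have hloop : ∀ n, 0 < (B ^ n) v v := by
    intro n
    induction n with
    | zero => simp
    | succ n ih => exact pos_trans h ih (pos_one hv)
  refine ⟨h, a + b + 1, by omega, fun i j => ?_⟩
  obtain ⟨n, hn, h1⟩ := hto i
  obtain ⟨m, hm, h2⟩ := hfrom j
  have h3 := pos_trans h (pos_trans h h1 (hloop (a + b + 1 - n - m))) h2
  have : n + (a + b + 1 - n - m) + m = a + b + 1 := by omega
  rwa [this] at h3

/-- Reindexing. -/
theorem reindex_primitive {B : Matrix κ κ ℤ} (e : ι ≃ κ) (h : Primitive B) :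
    Primitive (B.submatrix e e) := by
  obtain ⟨h1, N, hN, h2⟩ := h
  refine ⟨fun i j => h1 _ _, N, hN, fun i j => ?_⟩
  have : (B.submatrix e e) ^ N = (B ^ N).submatrix e e := by
    clear hN h2
    induction N with
    | zero => simp
    | succ N ih => rw [pow_succ, ih, pow_succ, submatrix_mul_equiv]
  rw [this]
  exact h2 _ _

theorem reindex_shiftEquiv {μ : Type*} [Fintype μ] [DecidableEq μ] {A : Matrix μ μ ℤ}
    {B : Matrix κ κ ℤ} (e : ι ≃ κ) (h : ShiftEquiv A B) : ShiftEquiv A (B.submatrix e e) := by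
  obtain ⟨R, S, l, hl, h1, h2, h3, h4⟩ := h
  have hpow : ∀ N, (B.submatrix e e) ^ N = (B ^ N).submatrix e e := by
    intro N
    induction N with
    | zero => simp
    | succ N ih => rw [pow_succ, ih, pow_succ, submatrix_mul_equiv]
  refine ⟨R.submatrix id e, S.submatrix e id, l, hl, ?_, ?_, ?_, ?_⟩
  · have : A * R.submatrix id e = (A * R).submatrix id e := by
      ext i j; simp [Matrix.mul_apply]
    rw [this, h1, submatrix_mul_equiv]
  · have : S.submatrix e id * A = (S * A).submatrix e id := by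
      ext i j; simp [Matrix.mul_apply]
    rw [this, h2, submatrix_mul_equiv]
  · rw [submatrix_mul_equiv, h3]
    simp
  · have : S.submatrix e id * R.submatrix id e = (S * R).submatrix e e := by
      ext i j; simp [Matrix.mul_apply]
    rw [this, h4, hpow]

end Pool.R712.SE
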