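import Pool.Agent.R712.SEMain

/-!
The polynomial matrix `V(z) = (I + G(z) E) (I + z N)` for a `2 × 2` matrix with one negative
diagonal entry.
-/

set_option autoImplicit false

namespace Pool.R712.SE

open Matrix

/-- The sequence `g`. -/
def gseq (e q t : ℤ) : ℕ → ℤ
  | 0 => 0
  | 1 => q + e ^ 2
  | 2 => t * (q + e ^ 2) - e * (q + e * (t + e))
  | (n + 3) => t * gseq e q t (n + 2) + (q + e * (t + e)) * gseq e q t (n + 1)

/-- Truncated sequence. -/
def Gseq (e q t : ℤ) (M : ℕ) (n : ℕ) : ℤ := if n < M then gseq e q t n else 0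

/-- The coefficients of `V`. -/
def Vseq (e q t : ℤ) (M : ℕ) : ℕ → Matrix (Fin 2) (Fin 2) ℤ
  | 0 => 1
  | (n + 1) => !![(if n = 0 then -e else 0) + Gseq e q t M n,
      (if n = 0 then -e ^ 2 else 0) + Gseq e q t M (n + 1) + e * Gseq e q t M n;
      if n = 0 then 1 else 0, if n = 0 then e else 0]

/-- The matrix. -/
def Amat (e q r t : ℤ) : Matrix (Fin 2) (Fin 2) ℤ := !![-e, q; r, t + e]

/-- The coefficients of `P`. -/
def Pseq (e q r t : ℤ) (M : ℕ) (n : ℕ) : Matrix (Fin 2) (Fin 2) ℤ :=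
  Vseq e q t M n * Amat e q r t - Vseq e q t M (n + 1)

theorem Pseq_zero (e q r t : ℤ) (M : ℕ) (hM : 3 ≤ M) :
    Pseq e q r t M 0 = !![0, 0; r - 1, t] := by
  have h0 : Gseq e q t M 0 = 0 := by simp [Gseq, gseq]
  have h1 : Gseq e q t M 1 = q + e ^ 2 := by
    rw [Gseq, if_pos (by omega), gseq]
  ext i j
  fin_cases i <;> fin_cases j <;>
    simp [Pseq, Vseq, Amat, h0, h1]

theorem Pseq_one (e q r t : ℤ) (M : ℕ) (hM : 3 ≤ M) :
    Pseq e q r t M 1 = !![(r - 1) * q, 0; (r - 1) * e, q + e * (t + e)] := by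
  have h0 : Gseq e q t M 0 = 0 := by simp [Gseq, gseq]
  have h1 : Gseq e q t M 1 = q + e ^ 2 := by
    rw [Gseq, if_pos (by omega), gseq]
  have h2 : Gseq e q t M 2 = t * (q + e ^ 2) - e * (q + e * (t + e)) := by
    rw [Gseq, if_pos (by omega), gseq]
  ext i j
  fin_cases i <;> fin_cases j <;>
    simp [Pseq, Vseq, Amat, h0, h1, h2] <;> ring

theorem Pseq_two (e q r t : ℤ) (M n : ℕ) :
    Pseq e q r t M (n + 2) =
      !![(r - 1) * (Gseq e q t M (n + 2) + e * Gseq e q t M (n + 1)),
        t * Gseq e q t M (n + 2) + (q + e * (t + e)) * Gseq e q t M (n + 1)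
          - Gseq e q t M (n + 3); 0, 0] := by
  ext i j
  fin_cases i <;> fin_cases j <;>
    simp [Pseq, Vseq, Amat] <;> ring

theorem Vseq_succ_last (e q t : ℤ) (M : ℕ) (hM : 3 ≤ M) : Vseq e q t M (M + 1) = 0 := by
  have h0 : Gseq e q t M M = 0 := by simp [Gseq]
  have h1 : Gseq e q t M (M + 1) = 0 := by simp [Gseq]
  ext i j
  fin_cases i <;> fin_cases j <;> simp [Vseq, h0, h1] <;> omega

/-- The inverse polynomial matrix kills. -/
theorem Vseq_hD (e q t : ℤ) (m : ℕ) {κ : Type*}
    (D : ℕ → Matrix (Fin 2) κ ℤ)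
    (h : ∀ j, ∑ n ∈ Finset.range (m + 3 + 1), Vseq e q t (m + 3) n * D (j + (m + 3) - n) = 0) :
    D (2 * (m + 3)) = 0 := by
  set M := m + 3 with hM
  set G := Gseq e q t M with hG
  have hG0 : G 0 = 0 := by simp [hG, Gseq, gseq]
  have hGM : G M = 0 := by simp [hG, Gseq]
  -- row 1
  have hu : ∀ j c, D (j + M) 1 c + D (j + M - 1) 0 c + e * D (j + M - 1) 1 c = 0 := by
    intro j c
    have h1 := congrFun (congrFun (h j) 1) c
    rw [Finset.sum_range_succ', hM, Finset.sum_range_succ', Matrix.add_apply, Matrix.add_apply,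
      Matrix.sum_apply, Finset.sum_eq_zero] at h1
    · simp only [Matrix.mul_apply, Fin.sum_univ_two, Vseq, Matrix.zero_apply] at h1
      simp at h1
      have e1 : j + M - 1 = j + (m + 2) := by omega
      rw [e1]
      linarith
    · intro n _
      rw [Matrix.mul_apply]
      simp [Fin.sum_univ_two, Vseq]
  have hu' : ∀ i c, M - 1 ≤ i → D (i + 1) 1 c + D i 0 c + e * D i 1 c = 0 := by
    intro i c hi
    have h1 := hu (i + 1 - M) c
    have e1 : i + 1 - M + M = i + 1 := by omega
    rw [e1] at h1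
    simpa using h1
  -- row 0
  have hw : ∀ i c, 2 * M - 2 ≤ i → D (i + 1) 0 c - e * D i 0 c - e ^ 2 * D i 1 c = 0 := by
    intro i c hi
    have h1 := congrFun (congrFun (h (i + 1 - M)) 0) c
    have e1 : i + 1 - M + M = i + 1 := by omega
    rw [e1, Finset.sum_range_succ', Matrix.add_apply, Matrix.sum_apply] at h1
    have h2 : ∀ k ≤ M, ∑ n ∈ Finset.range k, (G n * D (i - n) 0 c +
        (G (n + 1) + e * G n) * D (i - n) 1 c) = G k * D (i + 1 - k) 1 c := by
      intro k hk
      induction k with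
      | zero => simp [hG0]
      | succ k ih =>
        rw [Finset.sum_range_succ, ih (by omega)]
        have h3 := hu' (i - k) c (by omega)
        have e2 : i + 1 - k = i - k + 1 := by omega
        have e3 : i + 1 - (k + 1) = i - k := by omega
        rw [e2, e3]
        linear_combination G k * h3
    have h4 := h2 M le_rfl
    rw [hGM, zero_mul] at h4
    have h5 : ∑ n ∈ Finset.range M, (Vseq e q t M (n + 1) * D (i + 1 - (n + 1))) 0 c =
        - e * D i 0 c - e ^ 2 * D i 1 c + ∑ n ∈ Finset.range M, (G n * D (i - n) 0 c +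
        (G (n + 1) + e * G n) * D (i - n) 1 c) := by
      rw [hM, Finset.sum_range_succ', Finset.sum_range_succ' (n := m + 2), ← hM]
      have h6 : ∑ n ∈ Finset.range (m + 2),
          (Vseq e q t M (n + 1 + 1) * D (i + 1 - (n + 1 + 1))) 0 c =
          ∑ n ∈ Finset.range (m + 2), (G (n + 1) * D (i - (n + 1)) 0 c +
            (G (n + 1 + 1) + e * G (n + 1)) * D (i - (n + 1)) 1 c) := by
        apply Finset.sum_congr rfl
        intro n _
        rw [Matrix.mul_apply]
        have e2 : i + 1 - (n + 1 + 1) = i - (n + 1) := by omega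
        simp [Fin.sum_univ_two, Vseq, e2, ← hG]
      rw [h6, Matrix.mul_apply]
      simp [Fin.sum_univ_two, Vseq, ← hG]
      ring
    rw [h5, h4] at h1
    simp [Vseq] at h1
    linarith
  ext i c
  have a1 := hu' (2 * M - 2) c (by omega)
  have a2 := hu' (2 * M - 1) c (by omega)
  have a3 := hw (2 * M - 2) c (by omega)
  have a4 := hw (2 * M - 1) c (by omega)
  have e1 : 2 * M - 2 + 1 = 2 * M - 1 := by omega
  have e2 : 2 * M - 1 + 1 = 2 * M := by omega
  rw [e1] at a1 a3
  rw [e2] at a2 a4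
  fin_cases i
  · simp only [Fin.zero_eta, Matrix.zero_apply]
    linear_combination a4 + e * a3 + e ^ 2 * a1
  · simp only [Fin.mk_one, Matrix.zero_apply]
    linear_combination a2 - a3 - e * a1

theorem shiftEquiv_data (e q r t : ℤ) (m : ℕ) :
    ShiftEquiv (Amat e q r t) (blockComp (m + 3 + 1) (Pseq e q r t (m + 3))) := by
  refine shiftEquiv_blockComp (Amat e q r t) (Vseq e q t (m + 3)) _ (m + 3) (by omega) rfl
    (Vseq_succ_last e q t _ (by omega)) (fun n => rfl) ?_
  intro D hD
  exact Vseq_hD e q t m D hD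

end Pool.R712.SE
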