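import Pool.Agent.R712.SEAbs

/-!
Block companion matrices attached to polynomial matrices `I - P(z) = V(z) (I - z A)`.
-/

set_option autoImplicit false

namespace Pool.R712.SE

open Matrix

/-- The block companion matrix of `P_1, …, P_K` (`P n` stands for `P_{n+1}`). -/
def blockComp (K : ℕ) (P : ℕ → Matrix (Fin 2) (Fin 2) ℤ) :
    Matrix (Fin K × Fin 2) (Fin K × Fin 2) ℤ :=
  fun p q => (if p.1.val = 0 then P q.1.val p.2 q.2 else 0) +
    (if p.1.val = q.1.val + 1 ∧ p.2 = q.2 then 1 else 0)

/-- Projection to block `K - 1 - j`. -/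
def proj (K j : ℕ) : Matrix (Fin 2) (Fin K × Fin 2) ℤ :=
  fun i q => if q.1.val + j + 1 = K ∧ i = q.2 then 1 else 0

theorem proj_mul {K : ℕ} {μ : Type*} (j : ℕ) (hj : j < K)
    (Y : Matrix (Fin K × Fin 2) μ ℤ) (i : Fin 2) (c : μ) :
    (proj K j * Y) i c = Y (⟨K - 1 - j, by omega⟩, i) c := by
  rw [Matrix.mul_apply, Finset.sum_eq_single ((⟨K - 1 - j, by omega⟩ : Fin K), i)]
  · simp only [proj]
    rw [if_pos ⟨by omega, trivial⟩, one_mul]
  · rintro ⟨a, b⟩ - hne
    simp only [proj]
    rw [if_neg, zero_mul]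
    rintro ⟨h1, h2⟩
    apply hne
    ext
    · simp; omega
    · simp [h2]
  · simp

theorem proj_step (K : ℕ) (P : ℕ → Matrix (Fin 2) (Fin 2) ℤ) (j : ℕ) (hj : j + 1 < K) :
    proj K j * blockComp K P = proj K (j + 1) := by
  ext i ⟨l, m⟩
  rw [proj_mul j (by omega)]
  simp only [blockComp, proj]
  rw [if_neg (by omega), zero_add]
  congr 1
  rw [eq_iff_iff]
  constructor
  · rintro ⟨h1, h2⟩; exact ⟨by omega, h2⟩
  · rintro ⟨h1, h2⟩; exact ⟨by omega, h2⟩

theorem proj_pow (K : ℕ) (P : ℕ → Matrix (Fin 2) (Fin 2) ℤ) (j : ℕ) (hj : j < K) :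
    proj K 0 * blockComp K P ^ j = proj K j := by
  induction j with
  | zero => simp
  | succ j ih => rw [pow_succ, ← Matrix.mul_assoc, ih (by omega), proj_step K P j hj]

theorem proj_last (K : ℕ) (P : ℕ → Matrix (Fin 2) (Fin 2) ℤ) (hK : 0 < K) :
    proj K 0 * blockComp K P ^ K =
      ∑ n ∈ Finset.range K, P n * (proj K 0 * blockComp K P ^ (K - 1 - n)) := by
  have h1 : blockComp K P ^ K = blockComp K P ^ (K - 1) * blockComp K P := by
    rw [← pow_succ]; congr 1; omega
  rw [h1, ← Matrix.mul_assoc, proj_pow K P (K - 1) (by omega)]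
  ext i ⟨l, m⟩
  rw [proj_mul (K - 1) (by omega), Matrix.sum_apply, Finset.sum_eq_single l.val]
  · rw [proj_pow K P _ (by omega)]
    simp only [blockComp]
    rw [if_pos (by simp), if_neg (by simp), add_zero, Matrix.mul_apply,
      Finset.sum_eq_single m]
    · simp only [proj]
      rw [if_pos ⟨by omega, trivial⟩, mul_one]
    · intro b _ hb
      simp only [proj]
      rw [if_neg (by rintro ⟨-, h⟩; exact hb h), mul_zero]
    · simp
  · intro b hb hne
    rw [Finset.mem_range] at hb
    rw [proj_pow K P _ (by omega), Matrix.mul_apply]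
    apply Finset.sum_eq_zero
    intro x _
    simp only [proj]
    rw [if_neg (by rintro ⟨h, -⟩; omega), mul_zero]
  · intro h
    exact absurd (Finset.mem_range.mpr l.isLt) h

/-- The matrix `S`. -/
def bigS (K : ℕ) (A : Matrix (Fin 2) (Fin 2) ℤ) : Matrix (Fin K × Fin 2) (Fin 2) ℤ :=
  fun p j => (A ^ (K - 1 - p.1.val)) p.2 j

theorem proj_bigS (K : ℕ) (A : Matrix (Fin 2) (Fin 2) ℤ) (j : ℕ) (hj : j < K) :
    proj K j * bigS K A = A ^ j := by
  ext i c
  rw [proj_mul j hj]
  simp only [bigS]
  have : K - 1 - (K - 1 - j) = j := by omega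
  rw [this]

theorem eq_zero_of_proj {K : ℕ} {μ : Type*} (P : ℕ → Matrix (Fin 2) (Fin 2) ℤ)
    (Y : Matrix (Fin K × Fin 2) μ ℤ)
    (h : ∀ j < K, proj K 0 * blockComp K P ^ j * Y = 0) : Y = 0 := by
  ext ⟨k, i⟩ c
  have h1 := h (K - 1 - k.val) (by omega)
  rw [proj_pow K P _ (by omega)] at h1
  have h2 := congrFun (congrFun h1 i) c
  rw [proj_mul _ (by omega)] at h2
  have : (⟨K - 1 - (K - 1 - k.val), by omega⟩ : Fin K) = k := by
    ext; simp; omega
  rwa [this] at h2

/-- The shift equivalence, given the factorisation data. -/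
theorem shiftEquiv_blockComp (A : Matrix (Fin 2) (Fin 2) ℤ) (V P : ℕ → Matrix (Fin 2) (Fin 2) ℤ)
    (M : ℕ) (hM1 : 1 ≤ M) (hV0 : V 0 = 1) (hVM : V (M + 1) = 0) (hP : ∀ n, P n = V n * A - V (n + 1))
    (hD : ∀ D : ℕ → Matrix (Fin 2) (Fin (M + 1) × Fin 2) ℤ,
      (∀ j, ∑ n ∈ Finset.range (M + 1), V n * D (j + M - n) = 0) → D (2 * M) = 0) :
    ShiftEquiv A (blockComp (M + 1) P) := by
  set K := M + 1 with hK
  set B := blockComp K P with hB
  -- telescoping
  have htel : ∑ n ∈ Finset.range K, P n * A ^ (K - 1 - n) = A ^ K := by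
    have h1 : ∀ m ≤ K, ∑ n ∈ Finset.range m, P n * A ^ (K - 1 - n) =
        A ^ K - V m * A ^ (K - m) := by
      intro m hm
      induction m with
      | zero => simp [hV0]
      | succ m ih =>
        rw [Finset.sum_range_succ, ih (by omega), hP, Matrix.sub_mul, Matrix.mul_assoc,
          ← pow_succ']
        have e1 : K - 1 - m + 1 = K - m := by omega
        have e2 : K - 1 - m = K - (m + 1) := by omega
        rw [e1, e2]
        abel
    rw [h1 K le_rfl, hVM]
    simp
  have hBS : B * bigS K A = bigS K A * A := by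
    rw [← sub_eq_zero]
    apply eq_zero_of_proj P
    intro j hj
    rw [Matrix.mul_sub, sub_eq_zero, ← Matrix.mul_assoc, ← Matrix.mul_assoc,
      Matrix.mul_assoc (proj K 0), ← pow_succ, proj_pow K P j hj, proj_bigS K A j hj]
    rcases Nat.lt_or_ge (j + 1) K with h | h
    · rw [proj_pow K P (j + 1) h, proj_bigS K A _ h, pow_succ]
    · have hj1 : j + 1 = K := by omega
      rw [hj1, proj_last K P (by omega), Matrix.sum_mul, ← pow_succ, hj1, ← htel]
      apply Finset.sum_congr rfl
      intro n hn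
      rw [Finset.mem_range] at hn
      rw [Matrix.mul_assoc, proj_pow K P _ (by omega), proj_bigS K A _ (by omega)]
  refine shiftEquiv_of A B (proj K 0) (proj K M) (bigS K A) M M (by omega) hBS ?_ ?_ ?_ ?_
  · rw [proj_bigS K A 0 (by omega), pow_zero]
  · exact proj_pow K P M (by omega)
  · have h := hD (fun j => proj K 0 * B ^ (j + 1) - A * (proj K 0 * B ^ j)) ?_
    · rw [Matrix.sub_mul, ← proj_pow K P M (by omega)]
      rw [← h]
      simp only [Matrix.mul_assoc]
      have e1 : blockComp K P ^ M * (B * B ^ M) = B ^ (2 * M + 1) := by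
        rw [← pow_succ', ← pow_add]
        have : M + (M + 1) = 2 * M + 1 := by omega
        rw [this]
      have e2 : blockComp K P ^ M * B ^ M = B ^ (2 * M) := by
        rw [← pow_add]
        have : M + M = 2 * M := by omega
        rw [this]
      rw [e1, e2]
    · intro j
      have h3 : ∀ m ≤ K, ∑ n ∈ Finset.range m, P n * (proj K 0 * B ^ (j + (K - 1 - n))) =
          ∑ n ∈ Finset.range m, V n * (A * (proj K 0 * B ^ (j + M - n)) -
            proj K 0 * B ^ (j + M - n + 1)) + proj K 0 * B ^ (j + K)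
            - V m * (proj K 0 * B ^ (j + (K - m))) := by
        intro m hm
        induction m with
        | zero => simp [hV0]
        | succ m ih =>
          rw [Finset.sum_range_succ, Finset.sum_range_succ, ih (by omega), hP, Matrix.sub_mul,
            Matrix.mul_sub, Matrix.mul_assoc (V m) A]
          have e1 : j + (K - 1 - m) = j + M - m := by omega
          have e2 : j + (K - m) = j + M - m + 1 := by omega
          have e3 : j + (K - (m + 1)) = j + M - m := by omega
          rw [e1, e2, e3]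
          abel
      have h4 := h3 K le_rfl
      have h5 : proj K 0 * B ^ (j + K) =
          ∑ n ∈ Finset.range K, P n * (proj K 0 * B ^ (j + (K - 1 - n))) := by
        rw [add_comm j K, pow_add, ← Matrix.mul_assoc, proj_last K P (by omega), Matrix.sum_mul]
        apply Finset.sum_congr rfl
        intro n _
        rw [Matrix.mul_assoc, Matrix.mul_assoc, ← pow_add, add_comm j]
      rw [← h5, hVM] at h4
      simp only [Matrix.zero_mul, sub_zero] at h4
      have h6 : ∑ n ∈ Finset.range K, V n * (A * (proj K 0 * B ^ (j + M - n)) -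
            proj K 0 * B ^ (j + M - n + 1)) = 0 := by
        have := h4
        rw [right_eq_add] at this
        exact this
      rw [← neg_eq_zero, ← Finset.sum_neg_distrib, ← h6]
      apply Finset.sum_congr rfl
      intro n _
      rw [← Matrix.mul_neg, neg_sub]
  · intro Y hY
    exact eq_zero_of_proj P Y fun j _ => hY j

end Pool.R712.SE
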