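import Pool.Agent.R712.SEData

/-!
Nonnegativity and primitivity of the block companion matrix, and the existence of the cut-off.
-/

set_option autoImplicit false

namespace Pool.R712.SE

open Matrix

/-- `h_n = g_{n+1} + e g_n` is positive for `n ≥ 1`. -/
theorem hseq_pos (e q t : ℤ) (he : 1 ≤ e) (hq : 1 ≤ q) (ht : 1 ≤ t) :
    ∀ n, 0 < gseq e q t (n + 2) + e * gseq e q t (n + 1) := by
  have hd : 0 < q + e * (t + e) := by positivity
  have key : ∀ n, 0 < gseq e q t (n + 2) + e * gseq e q t (n + 1) ∧
      0 < gseq e q t (n + 3) + e * gseq e q t (n + 2) := by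
    intro n
    induction n with
    | zero =>
      refine ⟨?_, ?_⟩
      · have : gseq e q t 2 + e * gseq e q t 1 = t * q := by simp only [gseq]; ring
        rw [this]; positivity
      · have : gseq e q t 3 + e * gseq e q t 2 = t * (t * q) + (q + e * (t + e)) * q := by
          simp only [gseq]; ring
        rw [this]; positivity
    | succ n ih =>
      refine ⟨ih.2, ?_⟩
      have : gseq e q t (n + 4) + e * gseq e q t (n + 3) =
          t * (gseq e q t (n + 3) + e * gseq e q t (n + 2)) +
            (q + e * (t + e)) * (gseq e q t (n + 2) + e * gseq e q t (n + 1)) := by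
        rw [show gseq e q t (n + 4) = t * gseq e q t (n + 3) +
          (q + e * (t + e)) * gseq e q t (n + 2) from rfl,
          show gseq e q t (n + 3) = t * gseq e q t (n + 2) +
          (q + e * (t + e)) * gseq e q t (n + 1) from rfl]
        ring
      have h1 := ih.1
      have h2 := ih.2
      have : 0 < gseq e q t (n + 4) + e * gseq e q t (n + 3) := by
        rw [this]; positivity
      exact this
  exact fun n => (key n).1

/-- Eventually two consecutive positive terms. -/
theorem exists_cut (e q t : ℤ) (he : 1 ≤ e) (hq : 1 ≤ q) (ht : 1 ≤ t) :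
    ∃ m, 0 < gseq e q t (m + 1) ∧ 0 < gseq e q t (m + 2) := by
  set δ : ℤ := q + e * (t + e) with hδ
  have hd : 0 < δ := by positivity
  set s : ℝ := Real.sqrt ((t : ℝ) ^ 2 + 4 * δ) with hs
  have hdR : (0 : ℝ) < δ := by exact_mod_cast hd
  have htR : (1 : ℝ) ≤ t := by exact_mod_cast ht
  have heR : (1 : ℝ) ≤ e := by exact_mod_cast he
  have hqR : (1 : ℝ) ≤ q := by exact_mod_cast hq
  have hss : s ^ 2 = (t : ℝ) ^ 2 + 4 * δ := Real.sq_sqrt (by positivity)
  have hs0 : 0 ≤ s := Real.sqrt_nonneg _
  have hst : (t : ℝ) < s := by nlinarith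
  set ξ : ℝ := (t + s) / 2 with hξ
  set η : ℝ := (s - t) / 2 with hη
  have hη0 : 0 < η := by rw [hη]; linarith
  have hξη : η < ξ := by rw [hη, hξ]; linarith
  have hξ0 : 0 < ξ := hη0.trans hξη
  have hsub : ξ - η = t := by rw [hξ, hη]; ring
  have hmul : ξ * η = δ := by rw [hξ, hη]; linarith
  have hδR : (δ : ℝ) = q + e * (t + e) := by rw [hδ]; push_cast; ring
  have heη : (e : ℝ) < η := by
    by_contra hcon
    push Not at hcon
    have h1 : ξ ≤ t + e := by linarith
    have h2 : ξ * η ≤ (t + e) * e := by
      apply mul_le_mul h1 hcon hη0.le (by linarith)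
    rw [hmul, hδR] at h2
    nlinarith
  -- the two decoupled sequences
  set L : ℝ := ξ ^ 2 * (η - e) with hL
  have hL0 : 0 < L := by
    rw [hL]; apply mul_pos (by positivity); linarith
  set g : ℕ → ℝ := fun n => (gseq e q t n : ℝ) with hg
  have hrec : ∀ n, g (n + 3) = t * g (n + 2) + δ * g (n + 1) := by
    intro n
    simp only [hg]
    rw [show gseq e q t (n + 3) = t * gseq e q t (n + 2) +
          (q + e * (t + e)) * gseq e q t (n + 1) from rfl]
    push_cast
    rw [hδR]
  have hLn : ∀ n, g (n + 2) + η * g (n + 1) = ξ ^ n * L := by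
    intro n
    induction n with
    | zero =>
      have h1 : g 2 = t * (q + e ^ 2) - e * δ := by
        simp only [hg, gseq]; push_cast; rw [hδR]
      have h2 : g 1 = q + e ^ 2 := by
        simp only [hg, gseq]; push_cast; ring
      have h3 : (q : ℝ) = δ - e * (t + e) := by rw [hδR]; ring
      rw [zero_add, zero_add, h1, h2, h3, ← hmul, ← hsub, hL]
      ring
    | succ n ih =>
      have h1 : g (n + 1 + 2) + η * g (n + 1 + 1) = ξ * (g (n + 2) + η * g (n + 1)) := by
        rw [show n + 1 + 2 = n + 3 from rfl, hrec, ← hmul, ← hsub]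
        ring
      rw [h1, ih]; ring
  have hKn : ∀ n, g (n + 2) - ξ * g (n + 1) = (-η) ^ n * (g 2 - ξ * g 1) := by
    intro n
    induction n with
    | zero => simp
    | succ n ih =>
      have h1 : g (n + 1 + 2) - ξ * g (n + 1 + 1) = (-η) * (g (n + 2) - ξ * g (n + 1)) := by
        rw [show n + 1 + 2 = n + 3 from rfl, hrec, ← hmul, ← hsub]
        ring
      rw [h1, ih]; ring
  have hsum : ∀ n, (ξ + η) * g (n + 1) = ξ ^ n * L - (-η) ^ n * (g 2 - ξ * g 1) := by
    intro n
    rw [← hLn, ← hKn]; ring
  obtain ⟨m, hm⟩ := pow_unbounded_of_one_lt (|g 2 - ξ * g 1| / L)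
    (show 1 < ξ / η by rw [one_lt_div hη0]; exact hξη)
  have hpos : ∀ n, m ≤ n → 0 < g (n + 1) := by
    intro n hn
    have h1 : (ξ / η) ^ m ≤ (ξ / η) ^ n :=
      pow_le_pow_right₀ (by rw [le_div_iff₀ hη0]; linarith) hn
    have h2 : |g 2 - ξ * g 1| / L < (ξ / η) ^ n := lt_of_lt_of_le hm h1
    rw [div_lt_iff₀ hL0, div_pow] at h2
    have hηn : 0 < η ^ n := by positivity
    have h2' : |g 2 - ξ * g 1| * η ^ n < ξ ^ n * L := by
      have h5 := mul_lt_mul_of_pos_right h2 hηn
      have h6 : ξ ^ n / η ^ n * L * η ^ n = ξ ^ n * L := by field_simp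
      rw [h6] at h5
      exact h5
    have h3 : (-η) ^ n * (g 2 - ξ * g 1) ≤ |g 2 - ξ * g 1| * η ^ n := by
      calc (-η) ^ n * (g 2 - ξ * g 1) ≤ |(-η) ^ n * (g 2 - ξ * g 1)| := le_abs_self _
        _ = |g 2 - ξ * g 1| * η ^ n := by
          rw [abs_mul, abs_pow, abs_neg, abs_of_pos hη0, mul_comm]
    have h4 : 0 < (ξ + η) * g (n + 1) := by
      rw [hsum]; linarith
    exact (pos_iff_pos_of_mul_pos h4).mp (by linarith)
  refine ⟨m, ?_, ?_⟩
  · have := hpos m le_rfl
    simp only [hg] at this
    exact_mod_cast this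
  · have := hpos (m + 1) (by omega)
    simp only [hg] at this
    exact_mod_cast this

theorem blockComp_primitive (e q r t : ℤ) (he : 1 ≤ e) (hq : 1 ≤ q) (hr : 2 ≤ r) (ht : 1 ≤ t)
    (m : ℕ) (hm1 : 0 < gseq e q t (m + 1)) (hm2 : 0 < gseq e q t (m + 2)) :
    Primitive (blockComp (m + 3 + 1) (Pseq e q r t (m + 3))) := by
  set M := m + 3 with hM
  set P := Pseq e q r t M with hP
  have hd : 0 < q + e * (t + e) := by positivity
  have hr1 : 0 < r - 1 := by linarith
  have hh := hseq_pos e q t he hq ht
  have hG : ∀ n, n < M → Gseq e q t M n = gseq e q t n := by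
    intro n hn
    rw [Gseq, if_pos hn]
  have hG' : ∀ n, M ≤ n → Gseq e q t M n = 0 := by
    intro n hn
    rw [Gseq, if_neg (by omega)]
  -- nonnegativity of P n for n ≤ M
  have hPnn : ∀ n ≤ M, ∀ i j, 0 ≤ P n i j := by
    intro n hn i j
    rcases n with _ | _ | n
    · rw [hP, Pseq_zero e q r t M (by omega)]
      fin_cases i <;> fin_cases j <;> simp <;> linarith
    · rw [hP, Pseq_one e q r t M (by omega)]
      fin_cases i <;> fin_cases j <;> simp <;> positivity
    · have h00 : 0 ≤ (r - 1) * (Gseq e q t M (n + 2) + e * Gseq e q t M (n + 1)) := by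
        rcases Nat.lt_or_ge (n + 2) M with h | h
        · rw [hG _ h, hG _ (by omega)]
          have := hh n
          positivity
        · rw [hG' _ h]
          have e1 : n + 1 = m + 2 := by omega
          rw [e1, hG _ (by omega)]
          positivity
      have h01 : 0 ≤ t * Gseq e q t M (n + 2) + (q + e * (t + e)) * Gseq e q t M (n + 1)
          - Gseq e q t M (n + 3) := by
        rcases Nat.lt_or_ge (n + 3) M with h | h
        · rw [hG _ h, hG _ (by omega), hG _ (by omega)]
          rw [show gseq e q t (n + 3) = t * gseq e q t (n + 2) +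
            (q + e * (t + e)) * gseq e q t (n + 1) from rfl]
          simp
        · rw [hG' _ h, sub_zero]
          rcases Nat.lt_or_ge (n + 2) M with h' | h'
          · rw [hG _ h', hG _ (by omega)]
            have e1 : n = m := by omega
            rw [e1]
            positivity
          · rw [hG' _ h', mul_zero, zero_add]
            have e1 : n + 1 = m + 2 := by omega
            rw [e1, hG _ (by omega)]
            positivity
      rw [hP, Pseq_two]
      fin_cases i <;> fin_cases j <;> simp <;> linarith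
  have hnn : ∀ i j, 0 ≤ blockComp (M + 1) P i j := by
    intro i j
    rw [blockComp]
    apply add_nonneg
    · split_ifs
      · exact hPnn _ (by have := j.1.isLt; omega) _ _
      · exact le_rfl
    · split_ifs <;> norm_num
  -- special entries
  have hv : 0 < blockComp (M + 1) P (0, 1) (0, 1) := by
    rw [blockComp]
    simp [hP, Pseq_zero e q r t M (by omega)]
    linarith
  have hv0 : 0 < blockComp (M + 1) P (0, 1) (0, 0) := by
    rw [blockComp]
    simp [hP, Pseq_zero e q r t M (by omega)]
    linarith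
  have hPM : P M = !![(r - 1) * (e * gseq e q t (m + 2)),
        (q + e * (t + e)) * gseq e q t (m + 2); 0, 0] := by
    rw [hP]
    conv_lhs => rw [show Pseq e q r t M M = Pseq e q r t M (m + 1 + 2) from rfl, Pseq_two]
    have e1 : Gseq e q t M (m + 1 + 2) = 0 := hG' _ (by omega)
    have e2 : Gseq e q t M (m + 1 + 1) = gseq e q t (m + 2) := hG _ (by omega)
    have e3 : Gseq e q t M (m + 1 + 3) = 0 := hG' _ (by omega)
    rw [e1, e2, e3]
    simp
  have hlast : ∀ i : Fin 2, 0 < blockComp (M + 1) P (0, 0) (Fin.last M, i) := by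
    intro i
    rw [blockComp]
    simp only [Fin.val_zero, if_true, Fin.val_last]
    rw [if_neg (by omega), add_zero, hPM]
    fin_cases i
    · simp; positivity
    · simp; positivity
  -- shift steps
  have hshift : ∀ (d k : ℕ) (hk : k + d < M + 1) (i : Fin 2),
      0 < (blockComp (M + 1) P ^ d) (⟨k + d, hk⟩, i) (⟨k, by omega⟩, i) := by
    intro d
    induction d with
    | zero => intro k hk i; simp
    | succ d ih =>
      intro k hk i
      have h1 := ih (k + 1) (by omega) i
      have h2 : 0 < blockComp (M + 1) P (⟨k + 1, by omega⟩, i) (⟨k, by omega⟩, i) := by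
        rw [blockComp]
        simp
      have h3 := pos_trans hnn h1 (pos_one h2)
      have e1 : (⟨k + (d + 1), hk⟩ : Fin (M + 1)) = ⟨k + 1 + d, by omega⟩ := by
        ext; simp; omega
      rw [e1]
      exact h3
  have hdown : ∀ (k : Fin (M + 1)) (i : Fin 2),
      0 < (blockComp (M + 1) P ^ k.val) (k, i) (0, i) := by
    intro k i
    have := hshift k.val 0 (by have := k.isLt; omega) i
    have e1 : (⟨0 + k.val, by have := k.isLt; omega⟩ : Fin (M + 1)) = k := by ext; simp
    rw [e1] at this
    exact this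
  have hdown' : ∀ (k : Fin (M + 1)) (i : Fin 2),
      0 < (blockComp (M + 1) P ^ (M - k.val)) (Fin.last M, i) (k, i) := by
    intro k i
    have := hshift (M - k.val) k.val (by have := k.isLt; omega) i
    have e1 : (⟨k.val + (M - k.val), by have := k.isLt; omega⟩ : Fin (M + 1)) = Fin.last M := by
      ext; simp; omega
    rw [e1] at this
    exact this
  refine primitive_of hnn (0, 1) hv (M + (1 + M)) (1 + (1 + M)) ?_ ?_
  · rintro ⟨k, i⟩
    fin_cases i
    · refine ⟨k.val + (1 + M), by have := k.isLt; omega, ?_⟩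
      refine pos_trans hnn (hdown k 0) (pos_trans hnn (pos_one (hlast 1)) ?_)
      have := hdown (Fin.last M) 1
      simpa using this
    · exact ⟨k.val, by have := k.isLt; omega, hdown k 1⟩
  · rintro ⟨k, i⟩
    refine ⟨1 + (1 + (M - k.val)), by omega, ?_⟩
    exact pos_trans hnn (pos_one hv0) (pos_trans hnn (pos_one (hlast i)) (hdown' k i))

end Pool.R712.SE
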