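import Pool.Agent.R712.SEPrim

/-!
Reduction of `2 × 2` integer matrices to the cases treated.
-/

set_option autoImplicit false

namespace Pool.R712.SE

open Matrix

/-- The conclusion. -/
def Good (A : Matrix (Fin 2) (Fin 2) ℤ) : Prop :=
  ∃ n, 0 < n ∧ ∃ B : Matrix (Fin n) (Fin n) ℤ, Primitive B ∧ ShiftEquiv A B

theorem good_conj (A C D A' : Matrix (Fin 2) (Fin 2) ℤ) (hCD : C * D = 1) (hA : C * A * D = A')
    (h : Good A') : Good A := by
  obtain ⟨n, hn, B, h1, h2⟩ := h
  exact ⟨n, hn, B, h1, shiftEquiv_conj A A' B C D hCD hA.symm h2⟩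

/-- The nonnegative case. -/
theorem good_nonneg (x y z w : ℤ) (hx : 0 ≤ x) (hy : 0 < y) (hz : 0 < z) (hw : 0 ≤ w)
    (ht : 0 < x + w) : Good !![x, y; z, w] := by
  refine ⟨2, by norm_num, !![x, y; z, w], ⟨?_, 2, by norm_num, ?_⟩, shiftEquiv_refl _⟩
  · intro i j
    fin_cases i <;> fin_cases j <;> simp <;> linarith
  · intro i j
    rw [pow_two]
    have hyz : 0 < y * z := mul_pos hy hz
    fin_cases i <;> fin_cases j <;> simp <;> nlinarith [mul_nonneg hx hx, mul_nonneg hw hw,
      mul_pos hy ht, mul_pos hz ht]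

/-- The main case. -/
theorem good_main (e q r t : ℤ) (he : 1 ≤ e) (hq : 1 ≤ q) (hr : 2 ≤ r) (ht : 1 ≤ t) :
    Good !![-e, q; r, t + e] := by
  obtain ⟨m, h1, h2⟩ := exists_cut e q t he hq ht
  have hprim := blockComp_primitive e q r t he hq hr ht m h1 h2
  have hse := shiftEquiv_data e q r t m
  exact ⟨(m + 3 + 1) * 2, by omega, _, reindex_primitive finProdFinEquiv.symm hprim,
    reindex_shiftEquiv finProdFinEquiv.symm hse⟩

/-- One negative diagonal entry, positive off-diagonal entries. -/
theorem good_neg (e q r t : ℤ) (he : 1 ≤ e) (hq : 1 ≤ q) (hr : 1 ≤ r) (ht : 1 ≤ t) :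
    Good !![-e, q; r, t + e] := by
  rcases hr.eq_or_lt with h | h
  · rw [← h]
    refine good_conj _ !![1, e; 0, 1] !![1, -e; 0, 1] !![0, q + e * (t + e); 1, t] ?_ ?_ ?_
    · ext i j
      fin_cases i <;> fin_cases j <;> simp
    · ext i j
      fin_cases i <;> fin_cases j <;> simp <;> ring
    · exact good_nonneg _ _ _ _ le_rfl (by positivity) (by norm_num) (by linarith) (by linarith)
  · exact good_main e q r t he hq (by linarith) ht

/-- Positive off-diagonal entries. -/
theorem good_pos (x y z w : ℤ) (hy : 0 < y) (hz : 0 < z) (ht : 0 < x + w) :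
    Good !![x, y; z, w] := by
  rcases lt_or_ge x 0 with hx | hx
  · have := good_neg (-x) y z (x + w) (by linarith) (by linarith) (by linarith) (by linarith)
    rw [neg_neg] at this
    have e1 : x + w + -x = w := by ring
    rwa [e1] at this
  · rcases lt_or_ge w 0 with hw | hw
    · refine good_conj _ !![0, 1; 1, 0] !![0, 1; 1, 0] !![w, z; y, x] ?_ ?_ ?_
      · ext i j
        fin_cases i <;> fin_cases j <;> simp
      · ext i j
        fin_cases i <;> fin_cases j <;> simp
      · have := good_neg (-w) z y (x + w) (by linarith) (by linarith) (by linarith) (by linarith)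
        rw [neg_neg] at this
        have e1 : x + w + -w = x := by ring
        rwa [e1] at this
    · exact good_nonneg x y z w hx hy hz hw ht

/-- Off-diagonal entries of the same sign. -/
theorem good_same (x y z w : ℤ) (hyz : 0 < y * z) (ht : 0 < x + w) :
    Good !![x, y; z, w] := by
  rcases lt_or_ge 0 y with hy | hy
  · exact good_pos x y z w hy ((pos_iff_pos_of_mul_pos hyz).mp hy) ht
  · have hy0 : y < 0 := by
      rcases hy.eq_or_lt with h | h
      · rw [h, zero_mul] at hyz; exact absurd hyz (lt_irrefl _)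
      · exact h
    have hz0 : z < 0 := by
      by_contra hz
      push Not at hz
      have := mul_nonpos_of_nonpos_of_nonneg hy0.le hz
      linarith
    refine good_conj _ !![1, 0; 0, -1] !![1, 0; 0, -1] !![x, -y; -z, w] ?_ ?_ ?_
    · ext i j
      fin_cases i <;> fin_cases j <;> simp
    · ext i j
      fin_cases i <;> fin_cases j <;> simp
    · exact good_pos _ _ _ _ (by linarith) (by linarith) ht

theorem good_all (k : ℕ) : ∀ (x y z w : ℤ), (x - w).natAbs ≤ k → 0 < x + w →
    0 < (x - w) ^ 2 + 4 * (y * z) → (¬ ∃ s : ℤ, (x - w) ^ 2 + 4 * (y * z) = s ^ 2) →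
    Good !![x, y; z, w] := by
  induction k with
  | zero =>
    intro x y z w hk ht hD _
    have h0 : x - w = 0 := by omega
    rw [h0] at hD
    exact good_same x y z w (by linarith) ht
  | succ k ih =>
    intro x y z w hk ht hD hsq
    rcases lt_trichotomy (y * z) 0 with hyz | hyz | hyz
    · -- conjugate
      rcases le_total |y| |z| with hle | hle
      · have h1 : (2 * |y|) ^ 2 < |x - w| ^ 2 := by
          rw [sq_abs]
          have h2 : |y| * |z| = -(y * z) := by rw [← abs_mul, abs_of_neg hyz]
          nlinarith [abs_nonneg y, abs_nonneg z, mul_le_mul_of_nonneg_left hle (abs_nonneg y)]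
        have h3 : 2 * |y| < |x - w| := lt_of_pow_lt_pow_left₀ 2 (abs_nonneg _) h1
        have hy : 0 < |y| := abs_pos.mpr (by rintro rfl; simp at hyz)
        obtain ⟨s, hs⟩ : ∃ s : ℤ, |x - w - 2 * (s * y)| < |x - w| := by
          rcases abs_cases (x - w) with ⟨a1, a2⟩ | ⟨a1, a2⟩ <;>
          rcases abs_cases y with ⟨b1, b2⟩ | ⟨b1, b2⟩
          · exact ⟨1, by rw [abs_lt]; constructor <;> linarith⟩
          · exact ⟨-1, by rw [abs_lt]; constructor <;> linarith⟩
          · exact ⟨-1, by rw [abs_lt]; constructor <;> linarith⟩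
          · exact ⟨1, by rw [abs_lt]; constructor <;> linarith⟩
        refine good_conj _ !![1, 0; s, 1] !![1, 0; -s, 1]
          !![x - s * y, y; s * x + z - s * (s * y + w), s * y + w] ?_ ?_ ?_
        · ext i j
          fin_cases i <;> fin_cases j <;> simp
        · ext i j
          fin_cases i <;> fin_cases j <;> simp <;> ring
        · have e1 : x - s * y - (s * y + w) = x - w - 2 * (s * y) := by ring
          have e2 : (x - s * y - (s * y + w)) ^ 2 +
              4 * (y * (s * x + z - s * (s * y + w))) = (x - w) ^ 2 + 4 * (y * z) := by ring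
          apply ih
          · rw [e1]
            rw [Int.abs_eq_natAbs, Int.abs_eq_natAbs] at hs
            omega
          · linarith
          · rw [e2]; exact hD
          · rw [e2]; exact hsq
      · have h1 : (2 * |z|) ^ 2 < |x - w| ^ 2 := by
          rw [sq_abs]
          have h2 : |y| * |z| = -(y * z) := by rw [← abs_mul, abs_of_neg hyz]
          nlinarith [abs_nonneg y, abs_nonneg z, mul_le_mul_of_nonneg_right hle (abs_nonneg z)]
        have h3 : 2 * |z| < |x - w| := lt_of_pow_lt_pow_left₀ 2 (abs_nonneg _) h1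
        have hz : 0 < |z| := abs_pos.mpr (by rintro rfl; simp at hyz)
        obtain ⟨s, hs⟩ : ∃ s : ℤ, |x - w + 2 * (s * z)| < |x - w| := by
          rcases abs_cases (x - w) with ⟨a1, a2⟩ | ⟨a1, a2⟩ <;>
          rcases abs_cases z with ⟨b1, b2⟩ | ⟨b1, b2⟩
          · exact ⟨-1, by rw [abs_lt]; constructor <;> linarith⟩
          · exact ⟨1, by rw [abs_lt]; constructor <;> linarith⟩
          · exact ⟨1, by rw [abs_lt]; constructor <;> linarith⟩
          · exact ⟨-1, by rw [abs_lt]; constructor <;> linarith⟩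
        refine good_conj _ !![1, s; 0, 1] !![1, -s; 0, 1]
          !![x + s * z, y + s * w - s * (x + s * z); z, w - s * z] ?_ ?_ ?_
        · ext i j
          fin_cases i <;> fin_cases j <;> simp
        · ext i j
          fin_cases i <;> fin_cases j <;> simp <;> ring
        · have e1 : x + s * z - (w - s * z) = x - w + 2 * (s * z) := by ring
          have e2 : (x + s * z - (w - s * z)) ^ 2 +
              4 * ((y + s * w - s * (x + s * z)) * z) = (x - w) ^ 2 + 4 * (y * z) := by ring
          apply ih
          · rw [e1]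
            rw [Int.abs_eq_natAbs, Int.abs_eq_natAbs] at hs
            omega
          · linarith
          · rw [e2]; exact hD
          · rw [e2]; exact hsq
    · exact absurd ⟨x - w, by rw [hyz]; ring⟩ hsq
    · exact good_same x y z w hyz ht

/-- Main reduction. -/
theorem good_of (A : Matrix (Fin 2) (Fin 2) ℤ) (ht : 0 < A.trace)
    (hD : 0 < A.trace ^ 2 - 4 * A.det) (hsq : ¬ ∃ s : ℤ, A.trace ^ 2 - 4 * A.det = s ^ 2) :
    Good A := by
  rw [Matrix.trace_fin_two] at ht hD hsq
  rw [Matrix.det_fin_two] at hD hsq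
  have e : (A 0 0 + A 1 1) ^ 2 - 4 * (A 0 0 * A 1 1 - A 0 1 * A 1 0) =
      (A 0 0 - A 1 1) ^ 2 + 4 * (A 0 1 * A 1 0) := by ring
  rw [e] at hD hsq
  have := good_all _ (A 0 0) (A 0 1) (A 1 0) (A 1 1) le_rfl ht hD hsq
  rwa [← Matrix.eta_fin_two A] at this

end Pool.R712.SE
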