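import Pool.Agent.R341.SG.Stm

/-!
# MP_2b9fb5_al, piece SG-R1: invariant spaces of functions on the `a`-subsets have dimension at least `N/3`

Fix `M = ⌊N/2⌋` disjoint pairs.  The space is the sum of the joint eigenspaces of the `M` transpositions of
the pairs; an eigenspace with `k` signs `-1`, `1 ≤ k ≤ M - 1`, is nonzero, hence all those with `k` signs `-1` are.
-/

set_option autoImplicit false

namespace Pool.Agent.R712.SG

open Finset

section

variable {α : Type} [Fintype α] [DecidableEq α] {a : ℕ}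

/-- the `a`-subsets -/
abbrev Xa (α : Type) (a : ℕ) := {A : Finset α // A.card = a}

/-- the action on the `a`-subsets -/
def mv (π : Equiv.Perm α) (A : Xa α a) : Xa α a :=
  ⟨A.1.map π.toEmbedding, by rw [card_map]; exact A.2⟩

/-- the action on functions -/
def PP (π : Equiv.Perm α) (F : Xa α a → ℝ) : Xa α a → ℝ := fun A => F (mv π A)

omit [Fintype α] [DecidableEq α] in
theorem mv_mul (π σ : Equiv.Perm α) (A : Xa α a) : mv (π * σ) A = mv π (mv σ A) := by
  apply Subtype.ext
  show A.1.map (π * σ).toEmbedding = (A.1.map σ.toEmbedding).map π.toEmbedding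
  rw [Finset.map_map]
  rfl

omit [Fintype α] [DecidableEq α] in
theorem mv_one (A : Xa α a) : mv 1 A = A := by
  apply Subtype.ext
  show A.1.map (1 : Equiv.Perm α).toEmbedding = A.1
  exact Finset.map_refl

/-- the action as an equivalence -/
def mvE (π : Equiv.Perm α) : Xa α a ≃ Xa α a where
  toFun := mv π
  invFun := mv π⁻¹
  left_inv A := by rw [← mv_mul, inv_mul_cancel, mv_one]
  right_inv A := by rw [← mv_mul, mul_inv_cancel, mv_one]

omit [Fintype α] [DecidableEq α] in
theorem PP_PP (π σ : Equiv.Perm α) (F : Xa α a → ℝ) : PP π (PP σ F) = PP (σ * π) F := by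
  funext A
  show F (mv σ (mv π A)) = F (mv (σ * π) A)
  rw [mv_mul]

omit [Fintype α] [DecidableEq α] in
theorem PP_one (F : Xa α a → ℝ) : PP 1 F = F := by
  funext A
  show F (mv 1 A) = F A
  rw [mv_one]

omit [DecidableEq α] in
theorem dot_inv (π : Equiv.Perm α) (F G : Xa α a → ℝ) :
    ∑ A, PP π F A * PP π G A = ∑ A, F A * G A :=
  Equiv.sum_comp (mvE π) (fun A => F A * G A)

/-- a permutation with a prescribed image of a set -/
theorem exists_perm {β : Type} [Fintype β] [DecidableEq β] (S T : Finset β) (h : S.card = T.card) :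
    ∃ ρ : Equiv.Perm β, ∀ i, i ∈ S ↔ ρ i ∈ T := by
  let e : {x // x ∈ S} ≃ {x // x ∈ T} := Finset.equivOfCardEq h
  refine ⟨e.extendSubtype, fun i => ⟨fun hi => e.extendSubtype_mem i hi, fun hi => ?_⟩⟩
  by_contra hc
  exact e.extendSubtype_not_mem i hc hi

omit [Fintype α] in
/-- two different points go to two given different points -/
theorem exists_perm2 (u v x y : α) (huv : u ≠ v) (hxy : x ≠ y) :
    ∃ π : Equiv.Perm α, π u = x ∧ π v = y := by
  have h1 : Equiv.swap u x v ≠ x := by
    intro h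
    have h2 : Equiv.swap u x u = x := Equiv.swap_apply_left u x
    exact huv ((Equiv.swap u x).injective (h2.trans h.symm))
  refine ⟨Equiv.swap (Equiv.swap u x v) y * Equiv.swap u x, ?_, ?_⟩
  · rw [Equiv.Perm.mul_apply, Equiv.swap_apply_left, Equiv.swap_apply_of_ne_of_ne h1.symm hxy]
  · rw [Equiv.Perm.mul_apply, Equiv.swap_apply_left]

/-- a function of mean zero which is invariant under transpositions is zero -/
theorem exists_swap (F : Xa α a → ℝ) (hF : ∑ A, F A = 0) (hF0 : F ≠ 0) :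
    ∃ x y : α, x ≠ y ∧ PP (Equiv.swap x y) F ≠ F := by
  by_contra hcon
  push Not at hcon
  have hinv : ∀ π : Equiv.Perm α, ∀ A : Xa α a, F (mv π A) = F A := by
    intro π
    induction π using Equiv.Perm.swap_induction_on with
    | one => intro A; rw [mv_one]
    | swap_mul f x y hxy ih =>
      intro A
      rw [mv_mul]
      have h1 := congrFun (hcon x y hxy) (mv f A)
      exact h1.trans (ih A)
  apply hF0
  funext A
  have hconst : ∀ B : Xa α a, F B = F A := by
    intro B
    obtain ⟨ρ, hρ⟩ := exists_perm A.1 B.1 (by rw [A.2, B.2])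
    have h1 : mv ρ A = B := by
      apply Subtype.ext
      refine Finset.eq_of_subset_of_card_le ?_ ?_
      · intro z hz
        obtain ⟨w, hw, rfl⟩ := Finset.mem_map.1 hz
        exact (hρ w).1 hw
      · rw [B.2, (mv ρ A).2]
    rw [← h1]
    exact hinv ρ A
  have h2 : ∑ B : Xa α a, F B = (Fintype.card (Xa α a) : ℝ) * F A := by
    rw [Finset.sum_congr rfl (fun B _ => hconst B), Finset.sum_const, nsmul_eq_mul]
    rfl
  have h3 : (0 : ℝ) < (Fintype.card (Xa α a) : ℝ) := by
    exact_mod_cast Fintype.card_pos_iff.2 ⟨A⟩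
  rw [hF] at h2
  have h4 := (mul_eq_zero.1 h2.symm).resolve_left h3.ne'
  exact h4

/-- the transposition of the `i`-th pair -/
def tau {M : ℕ} (ι : Fin M × Bool ↪ α) (i : Fin M) : Equiv.Perm α :=
  Equiv.swap (ι (i, false)) (ι (i, true))

omit [Fintype α] in
theorem tau_comm {M : ℕ} (ι : Fin M × Bool ↪ α) (i j : Fin M) : tau ι i * tau ι j = tau ι j * tau ι i := by
  by_cases h : i = j
  · rw [h]
  · have hne : ∀ b c : Bool, ι (j, b) ≠ ι (i, c) := by
      intro b c hc
      have := ι.injective hc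
      exact h (Prod.ext_iff.1 this).1.symm
    unfold tau
    rw [Equiv.mul_swap_eq_swap_mul, Equiv.swap_apply_of_ne_of_ne (hne _ _) (hne _ _),
      Equiv.swap_apply_of_ne_of_ne (hne _ _) (hne _ _)]

omit [Fintype α] in
theorem tau_sq {M : ℕ} (ι : Fin M × Bool ↪ α) (i : Fin M) : tau ι i * tau ι i = 1 :=
  Equiv.swap_mul_self _ _

/-- joint eigenvectors with a given pattern of signs -/
def Pat {M : ℕ} (ι : Fin M × Bool ↪ α) (T : Finset (Fin M)) (G : Xa α a → ℝ) : Prop :=
  ∀ i, (i ∈ T → PP (tau ι i) G = -G) ∧ (i ∉ T → PP (tau ι i) G = G)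

theorem exists_pat {M : ℕ} (ι : Fin M × Bool ↪ α) (U : Submodule ℝ (Xa α a → ℝ))
    (hU : ∀ F ∈ U, ∀ π : Equiv.Perm α, PP π F ∈ U) (i₀ : Fin M) (G₀ : Xa α a → ℝ) (hG₀ : G₀ ∈ U)
    (hG₀0 : G₀ ≠ 0) (hG₀i : PP (tau ι i₀) G₀ = -G₀) :
    ∃ (T : Finset (Fin M)) (G : Xa α a → ℝ), i₀ ∈ T ∧ G ∈ U ∧ G ≠ 0 ∧ Pat ι T G := by
  classical
  have key : ∀ S : Finset (Fin M), ∃ G : Xa α a → ℝ, G ∈ U ∧ G ≠ 0 ∧ PP (tau ι i₀) G = -G ∧
      ∀ i ∈ S, PP (tau ι i) G = G ∨ PP (tau ι i) G = -G := by
    intro S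
    induction S using Finset.induction_on with
    | empty => exact ⟨G₀, hG₀, hG₀0, hG₀i, fun i hi => absurd hi (Finset.notMem_empty i)⟩
    | insert j S _ ih =>
      obtain ⟨G, hG, hG0, hGi, hGS⟩ := ih
      by_cases h : G + PP (tau ι j) G = 0
      · refine ⟨G, hG, hG0, hGi, fun i hi => ?_⟩
        rcases Finset.mem_insert.1 hi with rfl | hi
        · right
          exact (neg_eq_of_add_eq_zero_right h).symm
        · exact hGS i hi
      · have hcm : ∀ i, PP (tau ι i) (PP (tau ι j) G) = PP (tau ι j) (PP (tau ι i) G) := by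
          intro i
          rw [PP_PP, PP_PP, tau_comm]
        refine ⟨G + PP (tau ι j) G, U.add_mem hG (hU G hG _), h, ?_, fun i hi => ?_⟩
        · show PP (tau ι i₀) G + PP (tau ι i₀) (PP (tau ι j) G) = -(G + PP (tau ι j) G)
          rw [hcm, hGi]
          show -G + -(PP (tau ι j) G) = _
          rw [neg_add]
        · rcases Finset.mem_insert.1 hi with rfl | hi
          · left
            show PP (tau ι i) G + PP (tau ι i) (PP (tau ι i) G) = G + PP (tau ι i) G
            rw [PP_PP, tau_sq, PP_one, add_comm]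
          · rcases hGS i hi with h1 | h1
            · left
              show PP (tau ι i) G + PP (tau ι i) (PP (tau ι j) G) = G + PP (tau ι j) G
              rw [hcm, h1]
            · right
              show PP (tau ι i) G + PP (tau ι i) (PP (tau ι j) G) = -(G + PP (tau ι j) G)
              rw [hcm, h1]
              show -G + -(PP (tau ι j) G) = _
              rw [neg_add]
  obtain ⟨G, hG, hG0, hGi, hGS⟩ := key univ
  refine ⟨univ.filter (fun i => PP (tau ι i) G = -G), G, by simp [hGi], hG, hG0, fun i => ⟨fun hi => ?_,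
    fun hi => ?_⟩⟩
  · exact (Finset.mem_filter.1 hi).2
  · rcases hGS i (mem_univ i) with h | h
    · exact h
    · exact absurd (Finset.mem_filter.2 ⟨mem_univ i, h⟩) hi

/-- not all signs are `-1` -/
theorem pat_ne_univ {M : ℕ} (ι : Fin M × Bool ↪ α) (ha : a + 1 ≤ M) (G : Xa α a → ℝ) (hG0 : G ≠ 0)
    (hG : Pat ι univ G) : False := by
  classical
  obtain ⟨A, hA⟩ : ∃ A, G A ≠ 0 := by
    by_contra hcon
    push Not at hcon
    exact hG0 (funext hcon)
  have h1 : ∀ i : Fin M, ∃ b : Bool, ι (i, b) ∈ A.1 := by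
    intro i
    by_contra hcon
    push Not at hcon
    have h2 := congrFun ((hG i).1 (mem_univ i)) A
    have h3 : mv (tau ι i) A = A := by
      apply Subtype.ext
      refine Finset.eq_of_subset_of_card_le ?_ (by rw [(mv (tau ι i) A).2, A.2])
      intro z hz
      obtain ⟨w, hw, rfl⟩ := Finset.mem_map.1 hz
      have h4 : tau ι i w = w := by
        unfold tau
        refine Equiv.swap_apply_of_ne_of_ne ?_ ?_
        · rintro rfl; exact hcon false hw
        · rintro rfl; exact hcon true hw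
      show tau ι i w ∈ A.1
      rw [h4]
      exact hw
    have h5 : G (mv (tau ι i) A) = -G A := h2
    rw [h3] at h5
    apply hA
    linarith
  choose b hb using h1
  have h6 : (univ.image fun i : Fin M => ι (i, b i)).card = M := by
    rw [Finset.card_image_of_injective, Finset.card_univ, Fintype.card_fin]
    intro i j hij
    have := ι.injective hij
    exact (Prod.ext_iff.1 this).1
  have h7 : (univ.image fun i : Fin M => ι (i, b i)) ⊆ A.1 := by
    intro z hz
    obtain ⟨i, _, rfl⟩ := Finset.mem_image.1 hz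
    exact hb i
  have h8 := Finset.card_le_card h7
  rw [h6, A.2] at h8
  omega

omit [Fintype α] in
/-- transport of the pattern -/
theorem pat_transport {M : ℕ} (ι : Fin M × Bool ↪ α) (T T' : Finset (Fin M)) (h : T'.card = T.card)
    (G : Xa α a → ℝ) (hG : Pat ι T G) : ∃ π : Equiv.Perm α, Pat ι T' (PP π G) := by
  classical
  obtain ⟨ρ, hρ⟩ := exists_perm T' T h
  let π : Equiv.Perm α := Equiv.Perm.viaEmbedding (ρ.prodCongr (Equiv.refl Bool)) ι
  have hπ : ∀ i b, π (ι (i, b)) = ι (ρ i, b) := by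
    intro i b
    exact Equiv.Perm.viaEmbedding_apply (ρ.prodCongr (Equiv.refl Bool)) ι (i, b)
  have hc : ∀ i, π * tau ι i = tau ι (ρ i) * π := by
    intro i
    unfold tau
    rw [Equiv.mul_swap_eq_swap_mul, hπ, hπ]
  have hP : ∀ i, PP (tau ι i) (PP π G) = PP π (PP (tau ι (ρ i)) G) := by
    intro i
    rw [PP_PP, PP_PP, hc]
  refine ⟨π, fun i => ⟨fun hi => ?_, fun hi => ?_⟩⟩
  · rw [hP, (hG (ρ i)).1 ((hρ i).1 hi)]
    rfl
  · rw [hP, (hG (ρ i)).2 (fun hc => hi ((hρ i).2 hc))]

/-- orthogonality of different patterns -/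
theorem pat_orth {M : ℕ} (ι : Fin M × Bool ↪ α) (T T' : Finset (Fin M)) (h : T ≠ T')
    (G G' : Xa α a → ℝ) (hG : Pat ι T G) (hG' : Pat ι T' G') : ∑ A, G A * G' A = 0 := by
  obtain ⟨i, hi⟩ : ∃ i, ¬ (i ∈ T ↔ i ∈ T') := by
    by_contra hcon
    push Not at hcon
    exact h (Finset.ext hcon)
  have h1 := dot_inv (tau ι i) G G'
  by_cases hT : i ∈ T
  · have hT' : i ∉ T' := fun hc => hi ⟨fun _ => hc, fun _ => hT⟩
    rw [(hG i).1 hT, (hG' i).2 hT'] at h1
    have h2 : ∑ A, (-G) A * G' A = -∑ A, G A * G' A := by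
      rw [← Finset.sum_neg_distrib]
      exact Finset.sum_congr rfl fun A _ => by rw [Pi.neg_apply, neg_mul]
    rw [h2] at h1
    linarith
  · have hT' : i ∈ T' := by
      by_contra hc
      exact hi ⟨fun h => absurd h hT, fun h => absurd h hc⟩
    rw [(hG i).2 hT, (hG' i).1 hT'] at h1
    have h2 : ∑ A, G A * (-G') A = -∑ A, G A * G' A := by
      rw [← Finset.sum_neg_distrib]
      exact Finset.sum_congr rfl fun A _ => by rw [Pi.neg_apply, mul_neg]
    rw [h2] at h1
    linarith

end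

theorem choose_ge (M : ℕ) : ∀ k, 1 ≤ k → k + 1 ≤ M → M ≤ M.choose k := by
  induction M with
  | zero => intro k h1 h2; omega
  | succ M ih =>
    intro k h1 h2
    obtain ⟨k, rfl⟩ : ∃ l, k = l + 1 := ⟨k - 1, by omega⟩
    rw [Nat.choose_succ_succ']
    rcases Nat.eq_zero_or_pos k with h0 | h0
    · rw [h0]
      simp
    · have h3 := ih k h0 (by omega)
      have h4 : 1 ≤ M.choose (k + 1) := Nat.choose_pos (by omega)
      omega

theorem r1 : Pool.Agent.R341.SG.SR1 := by
  classical
  intro α _ _ a ha U hU hU0 hne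
  have hU' : ∀ F ∈ U, ∀ π : Equiv.Perm α, PP π F ∈ U := fun F hF π => hU F hF π
  obtain ⟨F, hF, hF0⟩ := (Submodule.ne_bot_iff U).1 hne
  obtain ⟨x, y, hxy, hsw⟩ := exists_swap F (hU0 F hF) hF0
  obtain ⟨M, hM⟩ : ∃ M, M = Fintype.card α / 2 := ⟨_, rfl⟩
  have hM1 : a + 1 ≤ M := by omega
  have hM0 : 0 < M := by omega
  have hcard : Fintype.card (Fin M × Bool) ≤ Fintype.card α := by
    rw [Fintype.card_prod, Fintype.card_fin, Fintype.card_bool]
    omega
  obtain ⟨ι₀⟩ := Function.Embedding.nonempty_of_card_le hcard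
  let i₀ : Fin M := ⟨0, hM0⟩
  obtain ⟨π₀, hπx, hπy⟩ := exists_perm2 (ι₀ (i₀, false)) (ι₀ (i₀, true)) x y
    (fun h => by simpa using ι₀.injective h) hxy
  let ι : Fin M × Bool ↪ α := ι₀.trans π₀.toEmbedding
  have hι1 : ι (i₀, false) = x := hπx
  have hι2 : ι (i₀, true) = y := hπy
  have hτ : tau ι i₀ = Equiv.swap x y := by
    unfold tau
    rw [hι1, hι2]
  have hG₀ : F - PP (tau ι i₀) F ∈ U := U.sub_mem hF (hU' F hF _)
  have hG₀0 : F - PP (tau ι i₀) F ≠ 0 := by
    intro h
    apply hsw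
    rw [← hτ]
    exact (sub_eq_zero.1 h).symm
  have hG₀i : PP (tau ι i₀) (F - PP (tau ι i₀) F) = -(F - PP (tau ι i₀) F) := by
    show PP (tau ι i₀) F - PP (tau ι i₀) (PP (tau ι i₀) F) = _
    rw [PP_PP, tau_sq, PP_one, neg_sub]
  obtain ⟨T, G, hiT, hG, hG0, hGp⟩ := exists_pat ι U hU' i₀ _ hG₀ hG₀0 hG₀i
  have hk1 : 1 ≤ T.card := Finset.card_pos.2 ⟨i₀, hiT⟩
  have hk2 : T.card + 1 ≤ M := by
    have h1 : T.card ≤ M := by
      have := Finset.card_le_univ T
      rwa [Fintype.card_fin] at this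
    rcases h1.lt_or_eq with h | h
    · exact h
    · exfalso
      have h2 : T = univ := Finset.eq_univ_of_card T (by rw [h, Fintype.card_fin])
      rw [h2] at hGp
      exact pat_ne_univ ι hM1 G hG0 hGp
  have htr : ∀ T' : {T' : Finset (Fin M) // T'.card = T.card}, ∃ v : Xa α a → ℝ, v ∈ U ∧ v ≠ 0 ∧
      Pat ι T'.1 v := by
    intro T'
    obtain ⟨π, hπ⟩ := pat_transport ι T T'.1 T'.2 G hGp
    refine ⟨PP π G, hU' G hG π, ?_, hπ⟩
    intro h0
    apply hG0
    have h1 : PP π⁻¹ (PP π G) = G := by rw [PP_PP, mul_inv_cancel, PP_one]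
    rw [← h1, h0]
    rfl
  choose v hvU hv0 hvp using htr
  have hli : LinearIndependent ℝ v := by
    rw [Fintype.linearIndependent_iff]
    intro g hg T'
    have h1 : ∑ A, (∑ S, g S • v S) A * v T' A = 0 := by
      rw [hg]
      simp
    have h2 : ∑ A, (∑ S, g S • v S) A * v T' A = ∑ S, g S * ∑ A, v S A * v T' A := by
      have e1 : ∀ A, (∑ S, g S • v S) A * v T' A = ∑ S, g S * (v S A * v T' A) := by
        intro A
        rw [Finset.sum_apply, Finset.sum_mul]
        exact Finset.sum_congr rfl fun S _ => by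
          rw [Pi.smul_apply, smul_eq_mul, mul_assoc]
      rw [Finset.sum_congr rfl fun A _ => e1 A, Finset.sum_comm]
      exact Finset.sum_congr rfl fun S _ => by rw [Finset.mul_sum]
    rw [h2, Finset.sum_eq_single T' (fun S _ hS => by
      rw [pat_orth ι S.1 T'.1 (fun h => hS (Subtype.ext h)) (v S) (v T') (hvp S) (hvp T'), mul_zero])
      (fun h => absurd (mem_univ _) h)] at h1
    rcases mul_eq_zero.1 h1 with h3 | h3
    · exact h3
    · exfalso
      apply hv0 T'
      funext A
      have h4 := (Finset.sum_eq_zero_iff_of_nonneg (fun A _ => mul_self_nonneg (v T' A))).1 h3 A (mem_univ A)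
      exact mul_self_eq_zero.1 h4
  have hliU : LinearIndependent ℝ (fun T' => (⟨v T', hvU T'⟩ : U)) := by
    apply LinearIndependent.of_comp U.subtype
    exact hli
  have hfin := hliU.fintype_card_le_finrank
  rw [Fintype.card_finset_len, Fintype.card_fin] at hfin
  have h5 := choose_ge M T.card hk1 hk2
  have h6 : (M : ℝ) ≤ (Module.finrank ℝ U : ℝ) := by exact_mod_cast h5.trans hfin
  have h7 : (Fintype.card α : ℝ) ≤ 3 * M := by
    have : Fintype.card α ≤ 3 * M := by omega
    exact_mod_cast this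
  linarith

end Pool.Agent.R712.SG
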