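import Mathlib

/-!
Products of involutions in `SU(n)`: basic closure properties, spectral theorem for unitary matrices
and the factorisation of diagonal matrices.
-/

set_option autoImplicit false

namespace Pool.R712.SU

open Matrix

section spectral

variable {n : ℕ} {E : Type*} [NormedAddCommGroup E] [InnerProductSpace ℂ E] [FiniteDimensional ℂ E]

/-- commuting symmetric operators have an orthonormal basis of joint eigenvectors -/
lemma joint_basis (hn : Module.finrank ℂ E = n) (S T : E →ₗ[ℂ] E) (hS : S.IsSymmetric)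
    (hT : T.IsSymmetric) (hST : Commute S T) :
    ∃ b : OrthonormalBasis (Fin n) ℂ E, ∃ x y : Fin n → ℂ, ∀ i, S (b i) = x i • b i ∧
      T (b i) = y i • b i := by
  classical
  let V : Module.End.Eigenvalues S × Module.End.Eigenvalues T → Submodule ℂ E := fun p =>
    Module.End.eigenspace S (p.1 : ℂ) ⊓ Module.End.eigenspace T (p.2 : ℂ)
  have hV' : OrthogonalFamily ℂ (fun p => V p) fun p => (V p).subtypeₗᵢ :=
    OrthogonalFamily.of_pairwise fun i j hij v hv => by
      obtain (h₁ | h₂) : i.1 ≠ j.1 ∨ i.2 ≠ j.2 := by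
        rwa [Ne.eq_def, Prod.ext_iff, not_and_or] at hij
      · intro w hw
        exact hS.orthogonalFamily_eigenspaces.pairwise (fun h => h₁ (Subtype.ext h)) hv.1 w hw.1
      · intro w hw
        exact hT.orthogonalFamily_eigenspaces.pairwise (fun h => h₂ (Subtype.ext h)) hv.2 w hw.2
  have htop : (⨆ p, V p) = ⊤ := by
    rw [eq_top_iff, ← hS.iSup_iSup_eigenspace_inf_eigenspace_eq_top_of_commute hT hST]
    refine iSup_le fun α => iSup_le fun γ => ?_
    by_cases h1 : Module.End.HasEigenvalue S α
    · by_cases h2 : Module.End.HasEigenvalue T γ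
      · exact le_iSup V (⟨α, h1⟩, ⟨γ, h2⟩)
      · have : Module.End.eigenspace T γ = ⊥ := by
          by_contra h
          exact h2 h
        rw [this, inf_bot_eq]
        exact bot_le
    · have : Module.End.eigenspace S α = ⊥ := by
        by_contra h
        exact h1 h
      rw [this, bot_inf_eq]
      exact bot_le
  have hV : DirectSum.IsInternal V := by
    rw [OrthogonalFamily.isInternal_iff hV', htop, Submodule.top_orthogonal_eq_bot]
  refine ⟨hV.subordinateOrthonormalBasis hn hV',
    fun i => ((hV.subordinateOrthonormalBasisIndex hn i hV').1 : ℂ),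
    fun i => ((hV.subordinateOrthonormalBasisIndex hn i hV').2 : ℂ), fun i => ?_⟩
  have h := hV.subordinateOrthonormalBasis_subordinate hn i hV'
  exact ⟨Module.End.mem_eigenspace_iff.1 h.1, Module.End.mem_eigenspace_iff.1 h.2⟩

/-- the spectral theorem for normal matrices -/
theorem normal_diag (A : Matrix (Fin n) (Fin n) ℂ) (hA : Aᴴ * A = A * Aᴴ) :
    ∃ V : Matrix (Fin n) (Fin n) ℂ, Vᴴ * V = 1 ∧ ∃ α : Fin n → ℂ, A = V * diagonal α * Vᴴ := by
  set X := A + Aᴴ with hX
  set Y := Complex.I • (A - Aᴴ) with hY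
  have hXh : X.IsHermitian := by
    show Xᴴ = X
    rw [hX, conjTranspose_add, conjTranspose_conjTranspose, add_comm]
  have hYh : Y.IsHermitian := by
    show Yᴴ = Y
    rw [hY, conjTranspose_smul, conjTranspose_sub, conjTranspose_conjTranspose, RCLike.star_def,
      Complex.conj_I, neg_smul, ← smul_neg, neg_sub]
  have hXY : X * Y = Y * X := by
    have h : (A + Aᴴ) * (A - Aᴴ) = (A - Aᴴ) * (A + Aᴴ) := by
      simp only [Matrix.add_mul, Matrix.mul_add, Matrix.mul_sub, Matrix.sub_mul, hA]
      abel
    rw [hX, hY, Matrix.mul_smul, Matrix.smul_mul, h]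
  have hS := isSymmetric_toEuclideanLin_iff.2 hXh
  have hT := isSymmetric_toEuclideanLin_iff.2 hYh
  have hST : Commute X.toEuclideanLin Y.toEuclideanLin := by
    show X.toEuclideanLin * Y.toEuclideanLin = Y.toEuclideanLin * X.toEuclideanLin
    ext v
    simp only [Module.End.mul_apply, toLpLin_apply, mulVec_mulVec, hXY]
  obtain ⟨b, x, y, hb⟩ := joint_basis (n := n) (by simp) _ _ hS hT hST
  have hAv : ∀ i, A *ᵥ (b i) = ((1 / 2 : ℂ) * (x i - Complex.I * y i)) • (b i : Fin n → ℂ) := by
    intro i
    have h1 : X *ᵥ (b i) = x i • (b i : Fin n → ℂ) := by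
      have := congrArg (fun v : EuclideanSpace ℂ (Fin n) => (v : Fin n → ℂ)) (hb i).1
      simpa [toLpLin_apply] using this
    have h2 : Y *ᵥ (b i) = y i • (b i : Fin n → ℂ) := by
      have := congrArg (fun v : EuclideanSpace ℂ (Fin n) => (v : Fin n → ℂ)) (hb i).2
      simpa [toLpLin_apply] using this
    have hAX : A = (1 / 2 : ℂ) • (X - Complex.I • Y) := by
      rw [hX, hY, smul_smul, Complex.I_mul_I, neg_smul, one_smul, sub_neg_eq_add]
      have : A + Aᴴ + (A - Aᴴ) = (2 : ℂ) • A := by
        rw [two_smul]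
        abel
      rw [this, smul_smul]
      norm_num
    conv_lhs => rw [hAX]
    rw [smul_mulVec, sub_mulVec, smul_mulVec, h1, h2, smul_smul, ← sub_smul, smul_smul]
  set V : Matrix (Fin n) (Fin n) ℂ := Matrix.of fun i j => (b j : Fin n → ℂ) i with hV
  have hVu : Vᴴ * V = 1 := by
    ext i j
    have h := orthonormal_iff_ite.1 b.orthonormal i j
    rw [Matrix.mul_apply, Matrix.one_apply, ← h]
    simp only [hV, conjTranspose_apply, of_apply, EuclideanSpace.inner_eq_star_dotProduct,
      dotProduct, Pi.star_apply]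
    exact Finset.sum_congr rfl fun k _ => mul_comm _ _
  refine ⟨V, hVu, fun i => (1 / 2 : ℂ) * (x i - Complex.I * y i), ?_⟩
  have hAV : A * V = V * diagonal (fun i => (1 / 2 : ℂ) * (x i - Complex.I * y i)) := by
    ext i j
    have h := congrFun (hAv j) i
    rw [mul_diagonal, Matrix.mul_apply]
    simp only [hV, of_apply]
    simp only [mulVec, dotProduct, Pi.smul_apply, smul_eq_mul] at h
    rw [h]
    ring
  rw [← hAV, Matrix.mul_assoc, mul_eq_one_comm.mp hVu, Matrix.mul_one]

/-- the spectral theorem for unitary matrices -/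
theorem unitary_diag (A : Matrix (Fin n) (Fin n) ℂ) (hA : A ∈ unitaryGroup (Fin n) ℂ) :
    ∃ V ∈ unitaryGroup (Fin n) ℂ, ∃ a : Fin n → ℂ, (∀ i, a i * star (a i) = 1) ∧
      A = V * diagonal a * star V := by
  have h1 : star A * A = 1 := mem_unitaryGroup_iff'.mp hA
  have h2 : A * star A = 1 := mem_unitaryGroup_iff.mp hA
  obtain ⟨V, hV, a, ha⟩ := normal_diag A (h1.trans h2.symm)
  have hV1 : star V * V = 1 := hV
  have hV2 : V * star V = 1 := mul_eq_one_comm.mp hV1
  refine ⟨V, mem_unitaryGroup_iff.mpr hV2, a, ?_, ha⟩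
  have hd : diagonal a = star V * A * V := by
    rw [ha]
    show diagonal a = star V * (V * diagonal a * star V) * V
    rw [show star V * (V * diagonal a * star V) * V = (star V * V) * diagonal a * (star V * V) by
      simp only [Matrix.mul_assoc], hV1, Matrix.one_mul, Matrix.mul_one]
  have h3 : diagonal a * star (diagonal a) = 1 := by
    rw [hd, star_mul, star_mul, star_star]
    calc star V * A * V * (star V * (star A * V))
        = star V * A * (V * star V) * (star A * V) := by simp only [Matrix.mul_assoc]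
      _ = star V * (A * star A) * V := by rw [hV2, Matrix.mul_one]; simp only [Matrix.mul_assoc]
      _ = 1 := by rw [h2, Matrix.mul_one, hV1]
  intro i
  have h4 := congrFun (congrFun h3 i) i
  rw [star_eq_conjTranspose, diagonal_conjTranspose, diagonal_mul_diagonal, diagonal_apply_eq,
    one_apply_eq] at h4
  exact h4

end spectral

section products

variable {ι κ : Type*} [Fintype ι] [DecidableEq ι] [Fintype κ] [DecidableEq κ]

/-- involutions of `SU` -/
def IsInv (B : Matrix ι ι ℂ) : Prop := B ∈ unitaryGroup ι ℂ ∧ B.det = 1 ∧ B * B = 1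

/-- products of `k` involutions of `SU` -/
def Pr : ℕ → Matrix ι ι ℂ → Prop
  | 0, A => A = 1
  | (k + 1), A => ∃ B C, IsInv B ∧ Pr k C ∧ A = B * C

theorem isInv_one : IsInv (1 : Matrix ι ι ℂ) := ⟨Submonoid.one_mem _, det_one, mul_one _⟩

theorem Pr.succ {k : ℕ} {A : Matrix ι ι ℂ} (h : Pr k A) : Pr (k + 1) A :=
  ⟨1, A, isInv_one, h, (one_mul A).symm⟩

theorem Pr.mul {k : ℕ} : ∀ {l : ℕ} {A B : Matrix ι ι ℂ}, Pr l A → Pr k B → Pr (l + k) (A * B) := by
  intro l
  induction l with
  | zero =>
    intro A B hA hB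
    have : A = 1 := hA
    rw [this, one_mul, Nat.zero_add]
    exact hB
  | succ l ih =>
    intro A B hA hB
    obtain ⟨X, Y, hX, hY, rfl⟩ := hA
    rw [Nat.succ_add]
    exact ⟨X, Y * B, hX, ih hY hB, mul_assoc _ _ _⟩

theorem isInv_conj {B U : Matrix ι ι ℂ} (hU : U ∈ unitaryGroup ι ℂ) (hB : IsInv B) :
    IsInv (U * B * star U) := by
  obtain ⟨h1, h2, h3⟩ := hB
  have hU' : star U * U = 1 := mem_unitaryGroup_iff'.mp hU
  have hU'' : U * star U = 1 := mem_unitaryGroup_iff.mp hU
  refine ⟨?_, ?_, ?_⟩
  · exact Submonoid.mul_mem _ (Submonoid.mul_mem _ hU h1) (Unitary.star_mem hU)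
  · rw [det_mul, det_mul, h2, mul_one, ← det_mul, hU'', det_one]
  · calc U * B * star U * (U * B * star U) = U * B * (star U * U) * B * star U := by
          simp only [mul_assoc]
      _ = U * (B * B) * star U := by rw [hU', mul_one]; simp only [mul_assoc]
      _ = 1 := by rw [h3, mul_one, hU'']

theorem Pr.conj {U : Matrix ι ι ℂ} (hU : U ∈ unitaryGroup ι ℂ) {k : ℕ} :
    ∀ {A : Matrix ι ι ℂ}, Pr k A → Pr k (U * A * star U) := by
  have hU' : star U * U = 1 := mem_unitaryGroup_iff'.mp hU
  have hU'' : U * star U = 1 := mem_unitaryGroup_iff.mp hU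
  induction k with
  | zero =>
    intro A hA
    have : A = 1 := hA
    rw [this, mul_one, hU'']
    exact rfl
  | succ k ih =>
    rintro A ⟨B, C, hB, hC, rfl⟩
    refine ⟨U * B * star U, U * C * star U, isInv_conj hU hB, ih hC, ?_⟩
    calc U * (B * C) * star U = U * B * 1 * C * star U := by rw [mul_one]; simp only [mul_assoc]
      _ = _ := by rw [← hU']; simp only [mul_assoc]

theorem Pr.submatrix (e : κ ≃ ι) {k : ℕ} :
    ∀ {A : Matrix ι ι ℂ}, Pr k A → Pr k (A.submatrix e e) := by
  induction k with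
  | zero =>
    intro A hA
    have : A = 1 := hA
    rw [this]
    exact submatrix_one_equiv e
  | succ k ih =>
    rintro A ⟨B, C, ⟨h1, h2, h3⟩, hC, rfl⟩
    refine ⟨B.submatrix e e, C.submatrix e e, ⟨?_, ?_, ?_⟩, ih hC, ?_⟩
    · rw [mem_unitaryGroup_iff, star_eq_conjTranspose, conjTranspose_submatrix,
        submatrix_mul_equiv, ← star_eq_conjTranspose, mem_unitaryGroup_iff.mp h1,
        submatrix_one_equiv]
    · rw [det_submatrix_equiv_self, h2]
    · rw [submatrix_mul_equiv, h3, submatrix_one_equiv]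
    · rw [submatrix_mul_equiv]

/-- monomial matrices attached to an involutive permutation -/
def mono (τ : Equiv.Perm ι) (d : ι → ℂ) : Matrix ι ι ℂ := Matrix.of fun i j =>
  if j = τ i then d i else 0

theorem mono_mul (τ : Equiv.Perm ι) (hτ : ∀ i, τ (τ i) = i) (d e : ι → ℂ) :
    mono τ d * mono τ e = diagonal fun i => d i * e (τ i) := by
  ext i j
  rw [mul_apply, Finset.sum_eq_single (τ i)]
  · simp only [mono, of_apply, if_true, hτ, diagonal_apply]
    by_cases h : i = j
    · subst h; simp
    · rw [if_neg h, if_neg (fun h' => h h'.symm), mul_zero]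
  · intro k _ hk
    simp [mono, hk]
  · intro h; exact absurd (Finset.mem_univ _) h

omit [Fintype ι] in
theorem mono_star (τ : Equiv.Perm ι) (hτ : ∀ i, τ (τ i) = i) (d : ι → ℂ) :
    star (mono τ d) = mono τ fun i => star (d (τ i)) := by
  ext i j
  rw [star_apply]
  simp only [mono, of_apply]
  by_cases h : j = τ i
  · subst h
    rw [if_pos rfl, if_pos (hτ i).symm]
  · rw [if_neg h, if_neg, star_zero]
    intro h'
    apply h
    rw [h', hτ]

theorem mono_det (τ : Equiv.Perm ι) (d : ι → ℂ) :
    (mono τ d).det = (∏ i, d i) * (Equiv.Perm.sign τ : ℤ) := by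
  have : mono τ d = diagonal d * τ.permMatrix ℂ := by
    ext i j
    rw [diagonal_mul]
    simp only [mono, of_apply, Equiv.Perm.permMatrix, PEquiv.toMatrix_apply,
      Equiv.toPEquiv_apply, Option.mem_def, Option.some.injEq]
    by_cases h : j = τ i
    · subst h; simp
    · rw [if_neg h, if_neg (fun h' => h h'.symm), mul_zero]
  rw [this, det_mul, det_diagonal, det_permutation]

theorem mono_isInv (τ : Equiv.Perm ι) (hτ : ∀ i, τ (τ i) = i) (d : ι → ℂ)
    (h1 : ∀ i, d i * star (d i) = 1) (h2 : ∀ i, d i * d (τ i) = 1)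
    (h3 : (∏ i, d i) * (Equiv.Perm.sign τ : ℤ) = 1) : IsInv (mono τ d) := by
  refine ⟨?_, ?_, ?_⟩
  · rw [mem_unitaryGroup_iff, mono_star τ hτ, mono_mul τ hτ]
    simp only [hτ, h1]
    exact diagonal_one
  · rw [mono_det, h3]
  · rw [mono_mul τ hτ]
    simp only [h2]
    exact diagonal_one

/-- the main factorisation -/
theorem pr_two (τ : Equiv.Perm ι) (hτ : ∀ i, τ (τ i) = i) (b e : ι → ℂ)
    (h1 : ∀ i, b i * star (b i) = 1) (h2 : ∀ i, b i * b (τ i) = 1) (h3 : ∏ i, b i = 1)
    (he1 : ∀ i, e i * e i = 1) (he2 : ∀ i, star (e i) = e i) (he3 : ∀ i, e (τ i) = e i)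
    (he4 : (∏ i, e i) * (Equiv.Perm.sign τ : ℤ) = 1) : Pr 2 (diagonal b) := by
  refine ⟨mono τ fun i => b i * e i, mono τ e, ?_, ⟨mono τ e, 1, ?_, rfl, (mul_one _).symm⟩, ?_⟩
  · apply mono_isInv τ hτ
    · intro i
      rw [star_mul, he2]
      linear_combination (e i * e i) * h1 i + he1 i
    · intro i
      rw [he3]
      linear_combination (e i * e i) * h2 i + he1 i
    · rw [Finset.prod_mul_distrib, h3, one_mul, he4]
  · apply mono_isInv τ hτ
    · intro i; rw [he2, he1]
    · intro i; rw [he3, he1]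
    · exact he4
  · rw [mono_mul τ hτ]
    congr 1
    funext i
    rw [he3, mul_assoc, he1, mul_one]

theorem sign_sq (τ : Equiv.Perm ι) :
    ((Equiv.Perm.sign τ : ℤ) : ℂ) * ((Equiv.Perm.sign τ : ℤ) : ℂ) = 1 := by
  rcases Int.units_eq_one_or (Equiv.Perm.sign τ) with h | h <;> simp [h]

theorem star_sign (τ : Equiv.Perm ι) :
    star ((Equiv.Perm.sign τ : ℤ) : ℂ) = ((Equiv.Perm.sign τ : ℤ) : ℂ) := by
  rcases Int.units_eq_one_or (Equiv.Perm.sign τ) with h | h <;> simp [h]

/-- if `τ` has a fixed point -/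
theorem pr_two_fixed (τ : Equiv.Perm ι) (hτ : ∀ i, τ (τ i) = i) (b : ι → ℂ)
    (h1 : ∀ i, b i * star (b i) = 1) (h2 : ∀ i, b i * b (τ i) = 1) (h3 : ∏ i, b i = 1)
    (i₀ : ι) (hi₀ : τ i₀ = i₀) : Pr 2 (diagonal b) := by
  apply pr_two τ hτ b (fun i => if i = i₀ then ((Equiv.Perm.sign τ : ℤ) : ℂ) else 1) h1 h2 h3
  · intro i
    by_cases h : i = i₀
    · simp only [if_pos h, sign_sq]
    · simp only [if_neg h, mul_one]
  · intro i
    by_cases h : i = i₀
    · simp only [if_pos h, star_sign]
    · simp only [if_neg h, star_one]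
  · intro i
    have : τ i = i₀ ↔ i = i₀ := by
      constructor
      · intro h
        rw [← hτ i, h, hi₀]
      · intro h; rw [h, hi₀]
    simp only [this]
  · rw [Finset.prod_ite_eq' Finset.univ i₀]
    simp only [Finset.mem_univ, if_true, sign_sq]

/-- if `τ` is even -/
theorem pr_two_even (τ : Equiv.Perm ι) (hτ : ∀ i, τ (τ i) = i) (b : ι → ℂ)
    (h1 : ∀ i, b i * star (b i) = 1) (h2 : ∀ i, b i * b (τ i) = 1) (h3 : ∏ i, b i = 1)
    (hs : Equiv.Perm.sign τ = 1) : Pr 2 (diagonal b) := by
  apply pr_two τ hτ b (fun _ => 1) h1 h2 h3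
  · intro i; simp
  · intro i; simp
  · intro i; rfl
  · simp [hs]

end products


section factor

open Equiv.Perm

/-- a fixed point free involution of a set with `4 k` elements is even -/
theorem sign_free {ι : Type*} [Fintype ι] [DecidableEq ι] (τ : Equiv.Perm ι)
    (hτ : ∀ i, τ (τ i) = i) (hfree : ∀ i, τ i ≠ i) (h4 : 4 ∣ Fintype.card ι) :
    Equiv.Perm.sign τ = 1 := by
  have hpow : τ ^ 2 = 1 := by
    ext i
    simp [pow_two, hτ]
  have hsupp : τ.support = Finset.univ := by
    ext i
    simp [hfree i]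
  have hct : τ.cycleType = Multiset.replicate (Multiset.card τ.cycleType) 2 := by
    rw [Multiset.eq_replicate]
    refine ⟨rfl, fun b hb => ?_⟩
    have h1 : b ∣ orderOf τ := dvd_of_mem_cycleType hb
    have h2 : orderOf τ ∣ 2 := orderOf_dvd_of_pow_eq_one hpow
    have h3 := two_le_of_mem_cycleType hb
    exact le_antisymm (Nat.le_of_dvd (by norm_num) (h1.trans h2)) h3
  have hsum : τ.cycleType.sum = Fintype.card ι := by
    rw [sum_cycleType, hsupp, Finset.card_univ]
  rw [sign_of_cycleType]
  set k := Multiset.card τ.cycleType with hk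
  have h5 : τ.cycleType.sum = 2 * k := by
    rw [hct, Multiset.sum_replicate, smul_eq_mul, mul_comm]
  rw [h5]
  have h6 : Even (2 * k + k) := by
    obtain ⟨c, hc⟩ := h4
    have : k = 2 * c := by omega
    rw [this]
    exact ⟨3 * c, by ring⟩
  exact h6.neg_one_pow

/-- pairing `(0 1)(2 3)...` on `Fin n` -/
def tauFun (n : ℕ) (i : Fin n) : Fin n :=
  if h : i.val % 2 = 0 then (if h' : i.val + 1 < n then ⟨i.val + 1, h'⟩ else i)
  else ⟨i.val - 1, by omega⟩

theorem tauFun_tauFun (n : ℕ) (i : Fin n) : tauFun n (tauFun n i) = i := by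
  unfold tauFun
  apply Fin.ext
  split_ifs <;> simp_all <;> omega

/-- pairing `(1 2)(3 4)...` on `Fin n` -/
def rhoFun (n : ℕ) (i : Fin n) : Fin n :=
  if h : i.val % 2 = 1 then (if h' : i.val + 1 < n then ⟨i.val + 1, h'⟩ else i)
  else ⟨i.val - 1, by omega⟩

theorem rhoFun_rhoFun (n : ℕ) (i : Fin n) : rhoFun n (rhoFun n i) = i := by
  unfold rhoFun
  apply Fin.ext
  split_ifs <;> simp_all <;> omega

/-- pairing `(0 1)(2 3)...` without `(m-1 m)` -/
def tau'Fun (n m : ℕ) (i : Fin n) : Fin n :=
  if i.val = m - 1 ∨ i.val = m then i else tauFun n i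

theorem tau'Fun_tau'Fun (n m : ℕ) (hm : m % 2 = 1) (i : Fin n) :
    tau'Fun n m (tau'Fun n m i) = i := by
  unfold tau'Fun tauFun
  apply Fin.ext
  split_ifs <;> simp_all <;> omega


/-- partial products -/
noncomputable def pp {n : ℕ} (d : Fin n → ℂ) (k : ℕ) : ℂ :=
  ∏ i ∈ Finset.range k, if h : i < n then d ⟨i, h⟩ else 1

theorem pp_succ {n : ℕ} (d : Fin n → ℂ) (i : Fin n) :
    pp d (i.val + 1) = pp d i.val * d i := by
  rw [pp, pp, Finset.prod_range_succ, dif_pos i.isLt]

theorem pp_zero {n : ℕ} (d : Fin n → ℂ) : pp d 0 = 1 := by simp [pp]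

theorem pp_full {n : ℕ} (d : Fin n → ℂ) : pp d n = ∏ i, d i := by
  rw [pp, Finset.prod_range]
  apply Finset.prod_congr rfl
  intro i _
  rw [dif_pos i.isLt]

theorem pp_unit {n : ℕ} (d : Fin n → ℂ) (hd : ∀ i, d i * star (d i) = 1) (k : ℕ) :
    pp d k * star (pp d k) = 1 := by
  rw [pp, star_prod, ← Finset.prod_mul_distrib]
  apply Finset.prod_eq_one
  intro i _
  by_cases h : i < n
  · rw [dif_pos h, hd]
  · rw [dif_neg h, star_one, mul_one]

theorem diag_four {n : ℕ} (hn : 0 < n) (d : Fin n → ℂ) (hd : ∀ i, d i * star (d i) = 1)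
    (hprod : ∏ i, d i = 1)
    (hcase : n % 2 = 1 ∨ 4 ∣ n ∨ ∃ m, m % 2 = 1 ∧ m < n ∧ n % 2 = 0 ∧ pp d m * pp d m = 1) :
    Pr 4 (diagonal d) := by
  set b : Fin n → ℂ := fun i => if i.val % 2 = 0 then pp d (i.val + 1) else star (pp d i.val)
    with hb
  set c : Fin n → ℂ := fun i => if i.val % 2 = 1 then pp d (i.val + 1) else star (pp d i.val)
    with hc
  have hu := pp_unit d hd
  have hu' : ∀ k, star (pp d k) * pp d k = 1 := fun k => by rw [mul_comm]; exact hu k
  have hpn : pp d n = 1 := by rw [pp_full, hprod]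
  have hpn' : ∀ k, k = n → pp d k = 1 := fun k hk => by rw [hk, hpn]
  have hbc : ∀ i, b i * c i = d i := by
    intro i
    simp only [hb, hc]
    by_cases h : i.val % 2 = 0
    · rw [if_pos h, if_neg (by omega), pp_succ]
      linear_combination (d i) * hu i.val
    · rw [if_neg h, if_pos (by omega), pp_succ]
      linear_combination (d i) * hu i.val
  have hbu : ∀ i, b i * star (b i) = 1 := by
    intro i
    simp only [hb]
    split_ifs
    · exact hu _
    · rw [star_star]; exact hu' _
  have hcu : ∀ i, c i * star (c i) = 1 := by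
    intro i
    simp only [hc]
    split_ifs
    · exact hu _
    · rw [star_star]; exact hu' _
  -- the two pairings
  have hbt : ∀ i, b i * b (tauFun n i) = 1 := by
    intro i
    simp only [hb]
    unfold tauFun
    by_cases h : i.val % 2 = 0
    · by_cases h' : i.val + 1 < n
      · rw [dif_pos h, dif_pos h', if_pos h]
        simp only
        rw [if_neg (by omega)]
        exact hu _
      · rw [dif_pos h, dif_neg h', if_pos h, hpn' (i.val + 1) (by omega), one_mul]
    · rw [dif_neg h, if_neg h]
      simp only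
      rw [if_pos (by omega), show i.val - 1 + 1 = i.val by omega]
      exact hu' _
  have hcr : ∀ i, c i * c (rhoFun n i) = 1 := by
    intro i
    simp only [hc]
    unfold rhoFun
    by_cases h : i.val % 2 = 1
    · by_cases h' : i.val + 1 < n
      · rw [dif_pos h, dif_pos h', if_pos h]
        simp only
        rw [if_neg (by omega)]
        exact hu _
      · rw [dif_pos h, dif_neg h', if_pos h, hpn' (i.val + 1) (by omega), one_mul]
    · rw [dif_neg h, if_neg h]
      simp only
      by_cases h0 : i.val = 0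
      · rw [h0]
        simp [pp_zero]
      · rw [if_pos (by omega), show i.val - 1 + 1 = i.val by omega]
        exact hu' _
  have hbp : ∏ i, b i = 1 := by
    refine Finset.prod_involution (fun i _ => tauFun n i) (fun i _ => hbt i) ?_
      (fun _ _ => Finset.mem_univ _) (fun i _ => tauFun_tauFun n i)
    intro i _ hne heq
    apply hne
    unfold tauFun at heq
    simp only [hb]
    by_cases h : i.val % 2 = 0
    · by_cases h' : i.val + 1 < n
      · rw [dif_pos h, dif_pos h'] at heq
        have := congrArg Fin.val heq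
        simp at this
      · rw [if_pos h, hpn' _ (by omega)]
    · rw [dif_neg h] at heq
      have := congrArg Fin.val heq
      simp only at this
      omega
  have hcp : ∏ i, c i = 1 := by
    refine Finset.prod_involution (fun i _ => rhoFun n i) (fun i _ => hcr i) ?_
      (fun _ _ => Finset.mem_univ _) (fun i _ => rhoFun_rhoFun n i)
    intro i _ hne heq
    apply hne
    unfold rhoFun at heq
    simp only [hc]
    by_cases h : i.val % 2 = 1
    · by_cases h' : i.val + 1 < n
      · rw [dif_pos h, dif_pos h'] at heq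
        have := congrArg Fin.val heq
        simp at this
      · rw [if_pos h, hpn' _ (by omega)]
    · rw [dif_neg h] at heq
      have := congrArg Fin.val heq
      simp only at this
      have h0 : i.val = 0 := by omega
      rw [if_neg h, h0, pp_zero, star_one]
  have hP2c : Pr 2 (diagonal c) := by
    let ρ : Equiv.Perm (Fin n) := ⟨rhoFun n, rhoFun n, rhoFun_rhoFun n, rhoFun_rhoFun n⟩
    refine pr_two_fixed ρ (rhoFun_rhoFun n) c hcu hcr hcp ⟨0, hn⟩ ?_
    apply Fin.ext
    show (rhoFun n ⟨0, hn⟩).val = 0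
    unfold rhoFun
    simp
  have hP2b : Pr 2 (diagonal b) := by
    rcases hcase with h | h | ⟨m, hm1, hmn, hn2, hm⟩
    · let τ : Equiv.Perm (Fin n) := ⟨tauFun n, tauFun n, tauFun_tauFun n, tauFun_tauFun n⟩
      refine pr_two_fixed τ (tauFun_tauFun n) b hbu hbt hbp ⟨n - 1, by omega⟩ ?_
      apply Fin.ext
      show (tauFun n ⟨n - 1, _⟩).val = n - 1
      unfold tauFun
      simp only
      rw [dif_pos (by omega), dif_neg (by omega)]
    · let τ : Equiv.Perm (Fin n) := ⟨tauFun n, tauFun n, tauFun_tauFun n, tauFun_tauFun n⟩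
      refine pr_two_even τ (tauFun_tauFun n) b hbu hbt hbp ?_
      apply sign_free τ (tauFun_tauFun n)
      · intro i heq
        have : tauFun n i = i := heq
        unfold tauFun at this
        split_ifs at this with h1 h2
        · have := congrArg Fin.val this
          simp at this
        · omega
        · have := congrArg Fin.val this
          simp only at this
          omega
      · simpa using h
    · let τ : Equiv.Perm (Fin n) :=
        ⟨tau'Fun n m, tau'Fun n m, tau'Fun_tau'Fun n m hm1, tau'Fun_tau'Fun n m hm1⟩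
      have hm' : star (pp d m) * star (pp d m) = 1 := by
        rw [← star_mul, hm, star_one]
      refine pr_two_fixed τ (tau'Fun_tau'Fun n m hm1) b hbu ?_ hbp ⟨m, hmn⟩ ?_
      · intro i
        show b i * b (tau'Fun n m i) = 1
        unfold tau'Fun
        by_cases h : i.val = m - 1 ∨ i.val = m
        · rw [if_pos h]
          simp only [hb]
          rcases h with h | h
          · rw [if_pos (by omega), show i.val + 1 = m by omega, hm]
          · rw [if_neg (by omega), h, hm']
        · rw [if_neg h]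
          exact hbt i
      · show tau'Fun n m ⟨m, hmn⟩ = _
        unfold tau'Fun
        rw [if_pos (Or.inr rfl)]
  have : diagonal d = diagonal b * diagonal c := by
    rw [diagonal_mul_diagonal]
    congr 1
    funext i
    exact (hbc i).symm
  rw [this]
  exact hP2b.mul hP2c

end factor

end Pool.R712.SU
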