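import Pool.Agent.R712.SUDiag

/-!
The exceptional case `n ≡ 2 mod 4`: five involutions.
-/

set_option autoImplicit false

namespace Pool.R712.SU

open Matrix

/-- the unit complex number with angle `x` -/
noncomputable def ex (x : ℝ) : ℂ := Complex.exp (x * Complex.I)

theorem ex_add (x y : ℝ) : ex (x + y) = ex x * ex y := by
  unfold ex
  rw [← Complex.exp_add]
  congr 1
  push_cast
  ring

theorem ex_neg (x : ℝ) : ex (-x) * ex x = 1 := by
  rw [← ex_add]; simp [ex]

theorem ex_star (x : ℝ) : star (ex x) = ex (-x) := by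
  unfold ex
  show (starRingEnd ℂ) _ = _
  rw [← Complex.exp_conj]
  congr 1
  simp

theorem ex_unit (x : ℝ) : ex x * star (ex x) = 1 := by
  rw [ex_star, mul_comm, ex_neg]

theorem ex_re_im (x : ℝ) : ex x = Real.cos x + Real.sin x * Complex.I := by
  unfold ex
  rw [Complex.exp_mul_I, Complex.ofReal_cos, Complex.ofReal_sin]

theorem ex_sub_neg (x : ℝ) : ex x - ex (-x) = 2 * Real.sin x * Complex.I := by
  rw [ex_re_im, ex_re_im, Real.cos_neg, Real.sin_neg]
  push_cast
  ring

/-- the key trigonometric fact -/
theorem exists_c (α β ψ : ℝ) (hαβ : |α - β| ≤ Real.pi) (hψ : |ψ - (α + β) / 2| ≤ |α - β| / 2) :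
    ∃ c : ℝ, |c| ≤ 1 ∧ (c : ℂ) * (ex α - ex β) = ex ψ - ex (α + β - ψ) := by
  set μ := (α + β) / 2 with hμ
  set v := (α - β) / 2 with hv
  set u := ψ - μ with hu
  have huv : |u| ≤ |v| := by
    rw [hv, abs_div, abs_two]
    exact hψ
  have hvpi : |v| ≤ Real.pi / 2 := by
    rw [hv, abs_div, abs_two]
    linarith
  have e1 : ex α - ex β = ex μ * (2 * Real.sin v * Complex.I) := by
    rw [← ex_sub_neg, mul_sub, ← ex_add, ← ex_add]
    congr 2 <;> ring
  have e2 : ex ψ - ex (α + β - ψ) = ex μ * (2 * Real.sin u * Complex.I) := by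
    rw [← ex_sub_neg, mul_sub, ← ex_add, ← ex_add]
    congr 2 <;> ring
  have hsin : |Real.sin u| ≤ |Real.sin v| := by
    have hmono := Real.strictMonoOn_sin.monotoneOn
    have hu2 : |u| ≤ Real.pi / 2 := huv.trans hvpi
    have hpi := Real.pi_pos
    have k1 : Real.sin |u| ≤ Real.sin |v| := by
      apply hmono _ _ huv
      · exact ⟨by linarith [abs_nonneg u], hu2⟩
      · exact ⟨by linarith [abs_nonneg v], hvpi⟩
    have k2 : ∀ x : ℝ, |x| ≤ Real.pi / 2 → |Real.sin x| = Real.sin |x| := by
      intro x hx
      rcases abs_cases x with ⟨h, h0⟩ | ⟨h, h0⟩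
      · rw [h, abs_of_nonneg]
        exact Real.sin_nonneg_of_nonneg_of_le_pi h0 (by rw [h] at hx; linarith)
      · rw [h, Real.sin_neg, abs_of_nonpos]
        have := Real.sin_nonneg_of_nonneg_of_le_pi (x := -x) (by linarith)
          (by rw [h] at hx; linarith)
        rw [Real.sin_neg] at this
        linarith
    rw [k2 u hu2, k2 v hvpi]
    exact k1
  by_cases hs : Real.sin v = 0
  · have hs' : Real.sin u = 0 := by
      rw [hs, abs_zero] at hsin
      exact abs_eq_zero.mp (le_antisymm hsin (abs_nonneg _))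
    refine ⟨1, by simp, ?_⟩
    rw [e1, e2, hs, hs']
    simp
  · refine ⟨Real.sin u / Real.sin v, ?_, ?_⟩
    · rw [abs_div]
      exact div_le_one_of_le₀ hsin (abs_nonneg _)
    · rw [e1, e2]
      push_cast
      have hs2 : (Complex.sin (v : ℂ)) ≠ 0 := by
        rw [← Complex.ofReal_sin]
        exact_mod_cast hs
      field_simp

/-- The `2 × 2` block: an involution `I'` of determinant `-1` such that `I' * diag(e^{iα}, e^{iβ})`
is unitarily similar to `diag(e^{iψ}, μ)`. -/
theorem block_two (α β ψ : ℝ) (hαβ : |α - β| ≤ Real.pi) (hψ : |ψ - (α + β) / 2| ≤ |α - β| / 2) :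
    ∃ I' ∈ unitaryGroup (Fin 2) ℂ, I' * I' = 1 ∧ I'.det = -1 ∧
      ∃ V ∈ unitaryGroup (Fin 2) ℂ, ∃ μ : ℂ, μ * star μ = 1 ∧
        I' * diagonal ![ex α, ex β] = V * diagonal ![ex ψ, μ] * star V := by
  obtain ⟨c, hc, hce⟩ := exists_c α β ψ hαβ hψ
  set s := Real.sqrt (1 - c ^ 2) with hs
  have hcs : c ^ 2 + s ^ 2 = 1 := by
    rw [hs, Real.sq_sqrt]
    · ring
    · have := (sq_le_one_iff_abs_le_one c).mpr hc
      linarith
  have hcs' : (c : ℂ) * c + s * s = 1 := by
    have : ((c ^ 2 + s ^ 2 : ℝ) : ℂ) = 1 := by rw [hcs]; simp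
    push_cast at this
    linear_combination this
  set I' : Matrix (Fin 2) (Fin 2) ℂ := !![(c : ℂ), s; s, -c] with hI
  have hII : I' * I' = 1 := by
    ext i j
    fin_cases i <;> fin_cases j <;> simp [hI, Matrix.mul_apply, Fin.sum_univ_two]
    · exact hcs'
    · ring
    · ring
    · linear_combination hcs'
  have hstar : star I' = I' := by
    ext i j
    rw [star_apply]
    fin_cases i <;> fin_cases j <;> simp [hI]
  have hIu : I' ∈ unitaryGroup (Fin 2) ℂ := by
    rw [mem_unitaryGroup_iff, hstar, hII]
  have hIdet : I'.det = -1 := by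
    rw [hI, det_fin_two_of]
    linear_combination -hcs'
  set D : Matrix (Fin 2) (Fin 2) ℂ := diagonal ![ex α, ex β] with hD
  have hDu : D ∈ unitaryGroup (Fin 2) ℂ := by
    rw [mem_unitaryGroup_iff, hD, star_eq_conjTranspose, diagonal_conjTranspose,
      diagonal_mul_diagonal]
    ext i j
    fin_cases i <;> fin_cases j <;> simp
    · exact ex_unit α
    · exact ex_unit β
  have hMu : I' * D ∈ unitaryGroup (Fin 2) ℂ := Submonoid.mul_mem _ hIu hDu
  obtain ⟨V, hV, x, hx, hM⟩ := unitary_diag (I' * D) hMu
  have hV1 : star V * V = 1 := mem_unitaryGroup_iff'.mp hV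
  -- trace and determinant
  have htr : x 0 + x 1 = c * (ex α - ex β) := by
    have h1 : (I' * D).trace = x 0 + x 1 := by
      rw [hM, Matrix.trace_mul_comm, ← Matrix.mul_assoc, hV1, Matrix.one_mul, trace_diagonal,
        Fin.sum_univ_two]
    rw [← h1, hI, hD, Matrix.trace_fin_two, mul_diagonal, mul_diagonal]
    simp
    ring
  have hdet : x 0 * x 1 = -(ex α * ex β) := by
    have h1 : (I' * D).det = x 0 * x 1 := by
      rw [hM, det_mul, det_mul, mul_comm, ← mul_assoc, ← det_mul, hV1, det_one, one_mul,
        det_diagonal, Fin.prod_univ_two]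
    rw [← h1, det_mul, hIdet, hD, det_diagonal, Fin.prod_univ_two]
    simp
  have hprod : ex ψ * ex (α + β - ψ) = ex α * ex β := by
    rw [← ex_add, ← ex_add]
    congr 1
    ring
  have hroot : (x 0 - ex ψ) * (x 1 - ex ψ) = 0 := by
    have h2 : x 0 + x 1 = ex ψ - ex (α + β - ψ) := by rw [htr, hce]
    linear_combination hdet - (ex ψ) * h2 + hprod
  refine ⟨I', hIu, hII, hIdet, ?_⟩
  rcases mul_eq_zero.mp hroot with h | h
  · refine ⟨V, hV, x 1, hx 1, ?_⟩
    rw [hM]
    congr 2
    ext i j
    fin_cases i <;> fin_cases j <;> simp [sub_eq_zero.mp h]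
  · -- swap the two eigenvalues
    set P : Matrix (Fin 2) (Fin 2) ℂ := !![0, 1; 1, 0] with hP
    have hPs : star P = P := by
      ext i j
      rw [star_apply]
      fin_cases i <;> fin_cases j <;> simp [hP]
    have hPP : P * P = 1 := by
      ext i j
      fin_cases i <;> fin_cases j <;> simp [hP, Matrix.mul_apply, Fin.sum_univ_two]
    have hPu : P ∈ unitaryGroup (Fin 2) ℂ := by rw [mem_unitaryGroup_iff, hPs, hPP]
    refine ⟨V * P, Submonoid.mul_mem _ hV hPu, x 0, hx 0, ?_⟩
    have d1 : diagonal ![ex ψ, x 0] = !![ex ψ, 0; 0, x 0] := by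
      ext i j
      fin_cases i <;> fin_cases j <;> simp
    have d2 : diagonal x = !![x 0, 0; 0, x 1] := by
      ext i j
      fin_cases i <;> fin_cases j <;> simp
    have hsw : diagonal x = P * diagonal ![ex ψ, x 0] * P := by
      rw [d1, d2, hP, sub_eq_zero.mp h]
      simp
    rw [hM, hsw, star_mul, hPs]
    simp only [Matrix.mul_assoc]


/-- discrete intermediate value theorem -/
theorem discrete_ivt (f : ℕ → ℝ) (m : ℕ) (hm : 1 ≤ m) (h : f 0 + f m = 0) :
    ∃ i < m, (f i ≤ 0 ∧ 0 ≤ f (i + 1)) ∨ (f (i + 1) ≤ 0 ∧ 0 ≤ f i) := by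
  by_contra hcon
  push Not at hcon
  have key : ∀ i, i ≤ m → 1 ≤ i → (f 0 ≤ 0 → f i < 0) ∧ (0 ≤ f 0 → 0 < f i) := by
    intro i
    induction i with
    | zero => intro _ h; omega
    | succ i ih =>
      intro hi _
      obtain ⟨h1, h2⟩ := hcon i (by omega)
      by_cases h0 : i = 0
      · subst h0
        exact ⟨fun h => h1 h, fun h => by
          by_contra hc
          exact absurd (h2 (not_lt.mp hc)) (not_lt.mpr h)⟩
      · obtain ⟨k1, k2⟩ := ih (by omega) (by omega)
        refine ⟨fun h => h1 (k1 h).le, fun h => ?_⟩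
        by_contra hc
        exact absurd (h2 (not_lt.mp hc)) (not_lt.mpr (k2 h).le)
  obtain ⟨k1, k2⟩ := key m le_rfl hm
  rcases le_total (f 0) 0 with h0 | h0
  · have := k1 h0; linarith
  · have := k2 h0; linarith

section final

variable {m : ℕ}

/-- The core of the exceptional case.  The diagonal matrix with entries `e^{i x_j}`, `e^{i y_j}`
on `Fin 2 × Fin m`, `m` odd, is a product of five involutions as soon as an exchange `x_{j₀} ↦ y_{j₀}`
makes `∑ x_j` cross a multiple of `π`. -/
theorem five_core (hm : m % 2 = 1) (x y : Fin m → ℝ) (j₀ j₁ : Fin m) (hj : j₁ ≠ j₀) (k : ℤ)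
    (hxy : |x j₀ - y j₀| ≤ Real.pi)
    (hprod : ∏ j, (ex (x j) * ex (y j)) = 1)
    (hcross : (∑ j, x j ≤ k * Real.pi ∧ k * Real.pi ≤ ∑ j, x j - x j₀ + y j₀) ∨
      (∑ j, x j - x j₀ + y j₀ ≤ k * Real.pi ∧ k * Real.pi ≤ ∑ j, x j)) :
    Pr 5 (diagonal fun p : Fin 2 × Fin m => (![ex (x p.2), ex (y p.2)] : Fin 2 → ℂ) p.1) := by
  classical
  set s := ∑ j, x j with hs
  set ψ := k * Real.pi - (s - x j₀) with hψ
  have hψ2 : |ψ - (x j₀ + y j₀) / 2| ≤ |x j₀ - y j₀| / 2 := by
    rcases hcross with ⟨h1, h2⟩ | ⟨h1, h2⟩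
    · have : x j₀ ≤ y j₀ := by linarith
      rw [abs_le, abs_of_nonpos (by linarith : x j₀ - y j₀ ≤ 0)]
      constructor <;> rw [hψ] <;> linarith
    · have : y j₀ ≤ x j₀ := by linarith
      rw [abs_le, abs_of_nonneg (by linarith : 0 ≤ x j₀ - y j₀)]
      constructor <;> rw [hψ] <;> linarith
  obtain ⟨I', hIu, hII, hIdet, V, hV, μ, hμ, hIV⟩ := block_two (x j₀) (y j₀) ψ hxy hψ2
  -- the involution
  set J : Fin m → Matrix (Fin 2) (Fin 2) ℂ := fun j =>
    if j = j₀ then I' else if j = j₁ then diagonal ![-1, 1] else 1 with hJ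
  set W : Fin m → Matrix (Fin 2) (Fin 2) ℂ := fun j => if j = j₀ then V else 1 with hW
  set d : Fin m → Fin 2 → ℂ := fun j =>
    if j = j₀ then ![ex ψ, μ] else if j = j₁ then ![-ex (x j), ex (y j)]
      else ![ex (x j), ex (y j)] with hd
  have hstarJ : ∀ j, J j * star (J j) = 1 := by
    intro j
    simp only [hJ]
    split_ifs
    · exact mem_unitaryGroup_iff.mp hIu
    · rw [star_eq_conjTranspose, diagonal_conjTranspose, diagonal_mul_diagonal]
      ext a b
      fin_cases a <;> fin_cases b <;> simp
    · simp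
  have hstarW : ∀ j, W j * star (W j) = 1 := by
    intro j
    simp only [hW]
    split_ifs
    · exact mem_unitaryGroup_iff.mp hV
    · simp
  have hJJ : ∀ j, J j * J j = 1 := by
    intro j
    simp only [hJ]
    split_ifs
    · exact hII
    · rw [diagonal_mul_diagonal]
      ext a b
      fin_cases a <;> fin_cases b <;> simp
    · simp
  have hblockJ : blockDiagonal J * star (blockDiagonal J) = 1 := by
    rw [star_eq_conjTranspose, blockDiagonal_conjTranspose, ← blockDiagonal_mul]
    rw [← blockDiagonal_one]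
    congr 1
    funext j
    exact hstarJ j
  have hblockW : blockDiagonal W * star (blockDiagonal W) = 1 := by
    rw [star_eq_conjTranspose, blockDiagonal_conjTranspose, ← blockDiagonal_mul]
    rw [← blockDiagonal_one]
    congr 1
    funext j
    exact hstarW j
  have hWu : blockDiagonal W ∈ unitaryGroup (Fin 2 × Fin m) ℂ := mem_unitaryGroup_iff.mpr hblockW
  have hJinv : IsInv (blockDiagonal J) := by
    refine ⟨mem_unitaryGroup_iff.mpr hblockJ, ?_, ?_⟩
    · rw [det_blockDiagonal]
      have h1 : ∀ j, (J j).det = (if j = j₀ then (-1 : ℂ) else 1) * (if j = j₁ then -1 else 1) := by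
        intro j
        simp only [hJ]
        by_cases h0 : j = j₀
        · rw [if_pos h0, if_pos h0, if_neg (by rw [h0]; exact hj.symm), hIdet, mul_one]
        · by_cases h1 : j = j₁
          · rw [if_neg h0, if_neg h0, if_pos h1, if_pos h1, det_diagonal]
            simp
          · rw [if_neg h0, if_neg h0, if_neg h1, if_neg h1, det_one, mul_one]
      rw [Finset.prod_congr rfl (fun j _ => h1 j), Finset.prod_mul_distrib,
        Finset.prod_ite_eq' Finset.univ j₀, Finset.prod_ite_eq' Finset.univ j₁]
      simp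
    · rw [← blockDiagonal_mul, ← blockDiagonal_one]
      congr 1
      funext j
      exact hJJ j
  -- `J * A = W * diag d * W⋆`
  set A : Matrix (Fin 2 × Fin m) (Fin 2 × Fin m) ℂ :=
    diagonal fun p : Fin 2 × Fin m => (![ex (x p.2), ex (y p.2)] : Fin 2 → ℂ) p.1 with hA
  have hAb : A = blockDiagonal fun j => diagonal ![ex (x j), ex (y j)] := by
    rw [hA, blockDiagonal_diagonal]
  set D : Matrix (Fin 2 × Fin m) (Fin 2 × Fin m) ℂ :=
    diagonal fun p : Fin 2 × Fin m => d p.2 p.1 with hD
  have hDb : D = blockDiagonal fun j => diagonal (d j) := by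
    rw [hD, blockDiagonal_diagonal]
  have hJA : blockDiagonal J * A = blockDiagonal W * D * star (blockDiagonal W) := by
    rw [hAb, hDb, star_eq_conjTranspose, blockDiagonal_conjTranspose, ← blockDiagonal_mul,
      ← blockDiagonal_mul, ← blockDiagonal_mul]
    congr 1
    funext j
    simp only [hJ, hW, hd]
    by_cases h0 : j = j₀
    · subst h0
      simp only [if_true]
      rw [hIV, star_eq_conjTranspose]
    · simp only [if_neg h0]
      by_cases h1 : j = j₁
      · simp only [if_pos h1]
        rw [diagonal_mul_diagonal, conjTranspose_one, mul_one, one_mul]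
        congr 1
        funext a
        fin_cases a <;> simp
      · simp only [if_neg h1]
        rw [conjTranspose_one, mul_one, one_mul]
  have hA2 : A = blockDiagonal J * (blockDiagonal W * D * star (blockDiagonal W)) := by
    rw [← hJA, ← Matrix.mul_assoc, hJinv.2.2, Matrix.one_mul]
  -- the diagonal matrix `D` is a product of four involutions
  have hdu : ∀ j a, d j a * star (d j a) = 1 := by
    intro j a
    simp only [hd]
    split_ifs
    · fin_cases a
      · exact ex_unit ψ
      · exact hμ
    · fin_cases a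
      · show -ex (x j) * star (-ex (x j)) = 1
        rw [star_neg, neg_mul_neg]
        exact ex_unit _
      · exact ex_unit _
    · fin_cases a
      · exact ex_unit _
      · exact ex_unit _
  have hdetA : A.det = 1 := by
    rw [hA, det_diagonal, Fintype.prod_prod_type_right]
    simp only [Fin.prod_univ_two]
    exact hprod
  have hdetD : ∏ p : Fin 2 × Fin m, d p.2 p.1 = 1 := by
    have h1 := congrArg det hJA
    have hWW : star (blockDiagonal W) * blockDiagonal W = 1 := mul_eq_one_comm.mp hblockW
    rw [det_mul, hdetA, hJinv.2.1, one_mul, det_mul, det_mul, mul_comm, ← mul_assoc, ← det_mul,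
      hWW, det_one, one_mul, hD, det_diagonal] at h1
    exact h1.symm
  have hDfour : Pr 4 D := by
    -- reindex by `Fin (2 * m)`
    let g : Fin 2 × Fin m ≃ Fin (2 * m) := finProdFinEquiv
    let d' : Fin (2 * m) → ℂ := fun i => d (g.symm i).2 (g.symm i).1
    have hmpos : 0 < m := by omega
    have h4 : Pr 4 (diagonal d') := by
      apply diag_four (by omega) d'
      · intro i; exact hdu _ _
      · rw [← hdetD]
        exact Fintype.prod_equiv g.symm _ _ (fun i => rfl)
      · right; right
        refine ⟨m, hm, by omega, by omega, ?_⟩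
        have hpm : pp d' m = ∏ j : Fin m, d j 0 := by
          rw [pp, Finset.prod_range]
          apply Finset.prod_congr rfl
          intro j _
          rw [dif_pos (by omega)]
          show d (g.symm _).2 (g.symm _).1 = _
          have : g.symm ⟨j.val, by omega⟩ = (0, j) := by
            rw [Equiv.symm_apply_eq]
            apply Fin.ext
            simp [g, finProdFinEquiv]
          rw [this]
        have hd0 : ∀ j, d j 0 = ex (x j) *
            ((if j = j₀ then ex (ψ - x j₀) else 1) * (if j = j₁ then -1 else 1)) := by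
          intro j
          simp only [hd]
          by_cases h0 : j = j₀
          · subst h0
            rw [if_pos rfl, if_pos rfl, if_neg hj.symm, mul_one, ← ex_add]
            simp
          · by_cases h1 : j = j₁
            · simp [if_neg h0, if_pos h1]
            · simp [if_neg h0, if_neg h1]
        have hexsum : ∏ j, ex (x j) = ex s := by
          unfold ex
          rw [← Complex.exp_sum]
          congr 1
          rw [hs]
          push_cast
          rw [Finset.sum_mul]
        have hval : pp d' m = -ex (k * Real.pi) := by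
          rw [hpm, Finset.prod_congr rfl (fun j _ => hd0 j), Finset.prod_mul_distrib,
            Finset.prod_mul_distrib, Finset.prod_ite_eq' Finset.univ j₀,
            Finset.prod_ite_eq' Finset.univ j₁, hexsum]
          simp only [Finset.mem_univ, if_true]
          rw [mul_neg_one, mul_neg, ← ex_add]
          congr 2
          rw [hψ]
          ring
        rw [hval, neg_mul_neg, ← ex_add]
        have : k * Real.pi + k * Real.pi = k * (2 * Real.pi) := by ring
        rw [this]
        unfold ex
        rw [Complex.exp_eq_one_iff]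
        refine ⟨k, ?_⟩
        push_cast
        ring
    have h5 := h4.submatrix g
    have : (diagonal d').submatrix g g = D := by
      rw [submatrix_diagonal_equiv, hD]
      congr 1
      funext p
      show d (g.symm (g p)).2 (g.symm (g p)).1 = _
      rw [Equiv.symm_apply_apply]
    rwa [this] at h5
  rw [hA2]
  exact ⟨_, _, hJinv, hDfour.conj hWu, rfl⟩


theorem ex_arg {z : ℂ} (hz : z * star z = 1) : ex (Complex.arg z) = z := by
  have h1 : ‖z‖ = 1 := by
    have h2 : Complex.normSq z = 1 := by
      have := Complex.mul_conj z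
      have h3 : z * star z = (Complex.normSq z : ℂ) := this
      rw [hz] at h3
      exact_mod_cast h3.symm
    rw [Complex.normSq_eq_norm_sq] at h2
    nlinarith [norm_nonneg z, sq_nonneg (‖z‖ - 1)]
  unfold ex
  have := Complex.norm_mul_exp_arg_mul_I z
  rw [h1] at this
  simpa using this

theorem five_diag (hm : m % 2 = 1) (hm3 : 3 ≤ m) (a : Fin 2 × Fin m → ℂ)
    (ha : ∀ p, a p * star (a p) = 1) (hprod : ∏ p, a p = 1) : Pr 5 (diagonal a) := by
  classical
  set x0 : Fin m → ℝ := fun j => Complex.arg (a (0, j)) with hx0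
  set z : Fin m → ℂ := fun j => a (1, j) * star (a (0, j)) with hz
  have hzu : ∀ j, z j * star (z j) = 1 := by
    intro j
    simp only [hz]
    rw [star_mul, star_star]
    linear_combination (a (0, j) * star (a (0, j))) * ha (1, j) + ha (0, j)
  set y0 : Fin m → ℝ := fun j => x0 j + Complex.arg (z j) with hy0
  have hex : ∀ j, ex (x0 j) = a (0, j) := fun j => ex_arg (ha _)
  have hey : ∀ j, ex (y0 j) = a (1, j) := by
    intro j
    simp only [hy0]
    rw [ex_add, hex, ex_arg (hzu j)]
    simp only [hz]
    linear_combination (a (1, j)) * ha (0, j)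
  have hdist : ∀ j, |x0 j - y0 j| ≤ Real.pi := by
    intro j
    simp only [hy0]
    rw [sub_add_cancel_left, abs_neg]
    exact Complex.abs_arg_le_pi _
  have hprod' : ∏ j, (ex (x0 j) * ex (y0 j)) = 1 := by
    rw [Fintype.prod_prod_type_right] at hprod
    simp only [Fin.prod_univ_two] at hprod
    rw [← hprod]
    exact Finset.prod_congr rfl fun j _ => by rw [hex, hey]
  obtain ⟨k, hk⟩ : ∃ k : ℤ, ∑ j, x0 j + ∑ j, y0 j = k * (2 * Real.pi) := by
    have h1 : ex (∑ j, x0 j + ∑ j, y0 j) = 1 := by
      rw [← hprod']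
      unfold ex
      rw [← Finset.sum_add_distrib]
      push_cast
      rw [Finset.sum_mul, Complex.exp_sum]
      apply Finset.prod_congr rfl
      intro j _
      rw [← Complex.exp_add]
      congr 1
      ring
    unfold ex at h1
    rw [Complex.exp_eq_one_iff] at h1
    obtain ⟨k, hk⟩ := h1
    refine ⟨k, ?_⟩
    have h2 : ((∑ j, x0 j + ∑ j, y0 j : ℝ) : ℂ) = ((k * (2 * Real.pi) : ℝ) : ℂ) := by
      apply mul_right_cancel₀ Complex.I_ne_zero
      rw [hk]
      push_cast
      ring
    exact_mod_cast h2
  set f : ℕ → ℝ := fun i => ∑ j : Fin m, (if j.val < i then y0 j else x0 j) - k * Real.pi with hf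
  have hf0 : f 0 = ∑ j, x0 j - k * Real.pi := by
    simp [hf]
  have hfm : f m = ∑ j, y0 j - k * Real.pi := by
    simp only [hf]
    congr 1
    apply Finset.sum_congr rfl
    intro j _
    rw [if_pos j.isLt]
  obtain ⟨i, him, hcr⟩ := discrete_ivt f m (by omega) (by rw [hf0, hfm]; linarith)
  set x : Fin m → ℝ := fun j => if j.val < i then y0 j else x0 j with hx
  set y : Fin m → ℝ := fun j => if j.val < i then x0 j else y0 j with hy
  set j₀ : Fin m := ⟨i, him⟩ with hj₀
  have hxj : x j₀ = x0 j₀ := by simp [hx, hj₀]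
  have hyj : y j₀ = y0 j₀ := by simp [hy, hj₀]
  have hfi : f i = ∑ j, x j - k * Real.pi := rfl
  have hfi1 : f (i + 1) = ∑ j, x j - x j₀ + y j₀ - k * Real.pi := by
    have h1 : ∀ j : Fin m, (if j.val < i + 1 then y0 j else x0 j) =
        x j + (if j = j₀ then y0 j₀ - x0 j₀ else 0) := by
      intro j
      simp only [hx]
      by_cases h : j.val < i
      · rw [if_pos (by omega), if_pos h, if_neg, add_zero]
        intro h'
        rw [h'] at h
        simp [hj₀] at h
      · by_cases h' : j = j₀
        · subst h'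
          rw [if_pos (by simp [hj₀]), if_neg h, if_pos rfl]
          ring
        · rw [if_neg, if_neg h, if_neg h', add_zero]
          intro h2
          apply h'
          apply Fin.ext
          simp only [hj₀]
          omega
    have h2 : f (i + 1) = ∑ j, (x j + (if j = j₀ then y0 j₀ - x0 j₀ else 0)) - k * Real.pi := by
      simp only [hf]
      congr 1
      exact Finset.sum_congr rfl fun j _ => h1 j
    rw [h2, Finset.sum_add_distrib, Finset.sum_ite_eq' Finset.univ j₀, hxj, hyj]
    simp only [Finset.mem_univ, if_true]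
    ring
  obtain ⟨j₁, hj₁⟩ : ∃ j₁ : Fin m, j₁ ≠ j₀ := by
    by_cases h : i = 0
    · exact ⟨⟨1, by omega⟩, by simp [hj₀, h]⟩
    · exact ⟨⟨0, by omega⟩, by simp [hj₀]; omega⟩
  have hcore := five_core hm x y j₀ j₁ hj₁ k (by rw [hxj, hyj]; exact hdist j₀) (by
      rw [← hprod']
      apply Finset.prod_congr rfl
      intro j _
      simp only [hx, hy]
      split_ifs
      · rw [mul_comm]
      · rfl) (by
      rcases hcr with ⟨h1, h2⟩ | ⟨h1, h2⟩
      · left
        rw [hfi] at h1
        rw [hfi1] at h2
        constructor <;> linarith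
      · right
        rw [hfi1] at h1
        rw [hfi] at h2
        constructor <;> linarith)
  -- undo the swaps
  let sw : Fin 2 × Fin m → Fin 2 × Fin m := fun p => (if p.2.val < i then 1 - p.1 else p.1, p.2)
  have hsw : ∀ p, sw (sw p) = p := by
    rintro ⟨l, j⟩
    simp only [sw]
    split_ifs
    · fin_cases l <;> rfl
    · rfl
  let σ : Fin 2 × Fin m ≃ Fin 2 × Fin m := ⟨sw, sw, hsw, hsw⟩
  have h5 := hcore.submatrix σ
  have : (diagonal fun p : Fin 2 × Fin m =>
      (![ex (x p.2), ex (y p.2)] : Fin 2 → ℂ) p.1).submatrix σ σ = diagonal a := by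
    rw [submatrix_diagonal_equiv]
    congr 1
    funext p
    obtain ⟨l, j⟩ := p
    show (![ex (x j), ex (y j)] : Fin 2 → ℂ) (if j.val < i then 1 - l else l) = a (l, j)
    simp only [hx, hy]
    by_cases h : j.val < i
    · simp only [if_pos h]
      fin_cases l
      · exact hex j
      · exact hey j
    · simp only [if_neg h]
      fin_cases l
      · exact hex j
      · exact hey j
  rwa [this] at h5

/-- Every element of `SU(n)`, `n ≥ 3`, is a product of five involutions; four suffice unless
`n ≡ 2 mod 4`. -/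
theorem main {n : ℕ} (hn : 3 ≤ n) (A : Matrix (Fin n) (Fin n) ℂ) (hA : A ∈ unitaryGroup (Fin n) ℂ)
    (hdet : A.det = 1) : Pr 5 A ∧ (n % 4 ≠ 2 → Pr 4 A) := by
  obtain ⟨V, hV, a, ha, rfl⟩ := unitary_diag A hA
  have hV1 : star V * V = 1 := mem_unitaryGroup_iff'.mp hV
  have hprod : ∏ i, a i = 1 := by
    rw [det_mul, det_mul, mul_comm, ← mul_assoc, ← det_mul, hV1, det_one, one_mul,
      det_diagonal] at hdet
    exact hdet
  by_cases h4 : n % 4 = 2
  · refine ⟨?_, fun h => absurd h4 h⟩
    obtain ⟨m, rfl⟩ : ∃ m, n = 2 * m := ⟨n / 2, by omega⟩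
    let g : Fin 2 × Fin m ≃ Fin (2 * m) := finProdFinEquiv
    have h5 : Pr 5 (diagonal fun p => a (g p)) := by
      apply five_diag (by omega) (by omega)
      · intro p; exact ha _
      · rw [← hprod]
        exact Fintype.prod_equiv g _ _ (fun p => rfl)
    have h6 := h5.submatrix g.symm
    have : (diagonal fun p => a (g p)).submatrix g.symm g.symm = diagonal a := by
      rw [submatrix_diagonal_equiv]
      congr 1
      funext p
      show a (g (g.symm p)) = a p
      rw [Equiv.apply_symm_apply]
    rw [this] at h6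
    exact h6.conj hV
  · have h5 : Pr 4 (diagonal a) := by
      apply diag_four (by omega) a ha hprod
      omega
    exact ⟨(h5.conj hV).succ, fun _ => h5.conj hV⟩

end final

end Pool.R712.SU
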