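import Pool.Agent.R712.SoFactor

/-!
Admissible triples.
-/

set_option autoImplicit false

namespace Pool.R712.So3

open Matrix

/-- Data `E_i ∈ U`, `E_i = e_i/λ + O(1)`. -/
def IsBasic (R : Fin 3 → L) : Prop := ∀ i, R i - lam (-1) • eb i ∈ Taylor

/-- The matrix `A`. -/
def matA (u v w : ℂ) : Matrix (Fin 3) (Fin 3) ℂ := !![-u, w, 0; u, 0, -v; 0, -w, v]

/-- The matrix `C`. -/
def matC (u v w x y z : ℂ) : Matrix (Fin 3) (Fin 3) ℂ := !![x, v, -w; -v, y, u; w, -u, z]

/-- The relations between double commutators. -/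
def DoubleRel (E : Fin 3 → L) (A B C D : Matrix (Fin 3) (Fin 3) ℂ) : Prop :=
  (∀ i, ![br (E 0) (br (E 1) (E 2)), br (E 2) (br (E 0) (E 1)), br (E 1) (br (E 2) (E 0))] i =
    (∑ j, A i j • ![br (E 2) (E 0), br (E 0) (E 1), br (E 1) (E 2)] j) +
      ∑ j, B i j • ![E 1, E 2, E 0] j) ∧
  (∀ i, ![br (E 2) (br (E 1) (E 2)) + br (E 0) (br (E 0) (E 1)),
      br (E 0) (br (E 2) (E 0)) + br (E 1) (br (E 1) (E 2)),
      br (E 1) (br (E 0) (E 1)) + br (E 2) (br (E 2) (E 0))] i =
    (∑ j, C i j • ![br (E 2) (E 0), br (E 0) (E 1), br (E 1) (E 2)] j) +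
      ∑ j, D i j • ![E 1, E 2, E 0] j)

/-- The relations of an admissible triple. -/
def AdmRel (E : Fin 3 → L) (A C : Matrix (Fin 3) (Fin 3) ℂ) (R : Fin 3 → L) : Prop :=
  (∀ i, ![br (E 0) (R 0), br (E 2) (R 2), br (E 1) (R 1)] i =
    ∑ j, A i j • ![R 1, R 2, R 0] j) ∧
  (∀ i, ![br (E 2) (R 0) + br (E 0) (R 2), br (E 0) (R 1) + br (E 1) (R 0),
      br (E 1) (R 2) + br (E 2) (R 1)] i =
    ∑ j, C i j • ![R 1, R 2, R 0] j)

/-- The unit vectors of `ℂ³`. -/
def ec (i : Fin 3) : Fin 3 → ℂ := Pi.single i 1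

theorem ord_of_taylor {X : L} (h : X ∈ Taylor) (i : Fin 3) : Ord (X i) 0 := h i

theorem basic_exp {R : Fin 3 → L} (hR : IsBasic R) (i : Fin 3) :
    Exp3 (R i) (-1) (ec i) (fun j => (R i j).coeff 0) := by
  intro j
  have h := ord_of_taylor (hR i) j
  have h1 : R i j = (R i - lam (-1) • eb i) j + lam (-1) * eb i j := by simp
  refine ⟨?_, ?_, rfl⟩
  · intro k hk
    rw [h1, HahnSeries.coeff_add, h k (by omega), zero_add]
    by_cases hij : j = i
    · subst hij
      simp only [eb, Pi.single_eq_same, mul_one, lam]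
      exact HahnSeries.coeff_single_of_ne hk.ne
    · simp [eb, hij]
  · rw [h1, HahnSeries.coeff_add, h (-1) (by omega), zero_add]
    by_cases hij : j = i
    · subst hij
      simp only [eb, ec, Pi.single_eq_same, mul_one, lam]
      exact HahnSeries.coeff_single_same _ _
    · simp [eb, ec, hij]

/-- Consequences of the double commutator relations for the zeroth coefficients. -/
theorem double_coeffs {E : Fin 3 → L} (hE : IsBasic E) {u v w x y z : ℂ}
    {B D : Matrix (Fin 3) (Fin 3) ℂ} (h : DoubleRel E (matA u v w) B (matC u v w x y z) D) :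
    let a : Fin 3 → Fin 3 → ℂ := fun i j => (E i j).coeff 0
    u = a 0 2 + a 2 0 ∧ v = a 1 2 + a 2 1 ∧ w = a 0 1 + a 1 0 ∧
      x = 2 * (a 0 0 - a 2 2) ∧ y = 2 * (a 1 1 - a 0 0) ∧ z = 2 * (a 2 2 - a 1 1) := by
  intro a
  have e0 := basic_exp hE 0
  have e1 := basic_exp hE 1
  have e2 := basic_exp hE 2
  have e12 := e1.br e2
  have e01 := e0.br e1
  have e20 := e2.br e0
  have zero3 : ∀ (X : L), (∀ i, Ord (X i) (-1)) → Exp3 X (-3) 0 0 := by
    intro X hX i
    exact ⟨(hX i).mono (by norm_num), hX i _ (by norm_num), hX i _ (by norm_num)⟩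
  have hE1 : ∀ i j, Ord (E i j) (-1) := fun i j => (basic_exp hE i j).1
  have lowB : ∀ (B : Matrix (Fin 3) (Fin 3) ℂ) i,
      Exp3 (∑ j, B i j • ![E 1, E 2, E 0] j) (-3) 0 0 := by
    intro B i
    apply zero3
    intro k
    rw [Fin.sum_univ_three]
    exact (((hE1 1 k).smul _).add ((hE1 2 k).smul _)).add ((hE1 0 k).smul _)
  have rhs : ∀ (A : Matrix (Fin 3) (Fin 3) ℂ) i,
      Exp3 (∑ j, A i j • ![br (E 2) (E 0), br (E 0) (E 1), br (E 1) (E 2)] j) (-3) 0
        (A i 0 • br (ec 2) (ec 0) + A i 1 • br (ec 0) (ec 1) + A i 2 • br (ec 1) (ec 2)) := by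
    intro A i
    rw [Fin.sum_univ_three]
    exact (((e20.smul (A i 0)).add (e01.smul (A i 1))).add (e12.smul (A i 2))).shift
  have r1 := fun i => (rhs (matA u v w) i).add (lowB B i)
  have r2 := fun i => (rhs (matC u v w x y z) i).add (lowB D i)
  have l10 := e0.br e12
  have l11 := e2.br e01
  have l12 := e1.br e20
  have l20 := (e2.br e12).add (e0.br e01)
  have l21 := (e0.br e20).add (e1.br e12)
  have l22 := (e1.br e01).add (e2.br e20)
  have h10 := h.1 0
  have h11 := h.1 1
  have h20 := h.2 0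
  have h21 := h.2 1
  have h22 := h.2 2
  have q10 := r1 0
  have q11 := r1 1
  have q20 := r2 0
  have q21 := r2 1
  have q22 := r2 2
  rw [← h10] at q10
  rw [← h11] at q11
  rw [← h20] at q20
  rw [← h21] at q21
  rw [← h22] at q22
  have c10 := (Exp3.unique l10 q10).2
  have c11 := (Exp3.unique l11 q11).2
  have c20 := (Exp3.unique l20 q20).2
  have c21 := (Exp3.unique l21 q21).2
  have c22 := (Exp3.unique l22 q22).2
  have d1 := congrFun c10 1
  have d2 := congrFun c10 2
  have d3 := congrFun c11 0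
  have d4 := congrFun c20 1
  have d5 := congrFun c21 2
  have d6 := congrFun c22 0
  simp [br, ec, matA, matC] at d1 d2 d3 d4 d5 d6
  refine ⟨?_, ?_, ?_, ?_, ?_, ?_⟩ <;> simp only [a]
  · linear_combination -d1
  · linear_combination -d3
  · linear_combination d2
  · linear_combination d4
  · linear_combination d5
  · linear_combination d6

/-- Every vector is Taylor modulo a closed subspace containing a basic triple. -/
theorem taylor_sup {U : Submodule ℂ L} (hU : Factoring U) {E R : Fin 3 → L}
    (hE : IsBasic E) (hEU : ∀ i, E i ∈ U) (hR : IsBasic R) (N : Submodule ℂ L)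
    (hRN : ∀ i, R i ∈ N) (hN : ∀ Y ∈ U, ∀ X ∈ N, br Y X ∈ N) : Taylor ⊔ N = ⊤ := by
  have hlead : ∀ k : ℕ, ∀ c : Fin 3 → ℂ, ∃ m ∈ N, ∃ q, Exp3 m (-1 - k) c q := by
    intro k
    induction k with
    | zero =>
      intro c
      have hmem : c 0 • R 0 + c 1 • R 1 + c 2 • R 2 ∈ N :=
        N.add_mem (N.add_mem (N.smul_mem _ (hRN 0)) (N.smul_mem _ (hRN 1)))
          (N.smul_mem _ (hRN 2))
      have this := (((basic_exp hR 0).smul (c 0)).add ((basic_exp hR 1).smul (c 1))).add
            ((basic_exp hR 2).smul (c 2))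
      have hc : c 0 • ec 0 + c 1 • ec 1 + c 2 • ec 2 = c := by
        funext i; fin_cases i <;> simp [ec]
      rw [hc] at this
      have h0 : (-1 - ((0 : ℕ) : ℤ)) = -1 := by simp
      rw [h0]
      exact ⟨_, hmem, _, this⟩
    | succ k ih =>
      intro c
      obtain ⟨m0, hm0, q0, h0⟩ := ih (![0, 0, -c 0])
      obtain ⟨m1, hm1, q1, h1⟩ := ih (![-c 1, 0, 0])
      obtain ⟨m2, hm2, q2, h2⟩ := ih (![0, -c 2, 0])
      have hmem : br (E 1) m0 + br (E 2) m1 + br (E 0) m2 ∈ N :=
        N.add_mem (N.add_mem (hN _ (hEU 1) _ hm0) (hN _ (hEU 2) _ hm1))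
          (hN _ (hEU 0) _ hm2)
      have this := (((basic_exp hE 1).br h0).add ((basic_exp hE 2).br h1)).add
            ((basic_exp hE 0).br h2)
      have hc : br (ec 1) (![0, 0, -c 0]) + br (ec 2) (![-c 1, 0, 0]) +
          br (ec 0) (![0, -c 2, 0]) = c := by
        funext i; fin_cases i <;> simp [br, ec]
      rw [hc] at this
      have h3 : (-1 - ((k + 1 : ℕ) : ℤ)) = -1 + (-1 - (k : ℤ)) := by push_cast; ring
      rw [h3]
      exact ⟨_, hmem, _, this⟩
  have hmain : ∀ k : ℕ, ∀ X : L, (∀ i, Ord (X i) (-(k : ℤ))) → X ∈ Taylor ⊔ N := by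
    intro k
    induction k with
    | zero =>
      intro X hX
      apply Submodule.mem_sup_left
      intro i
      have h0 : Ord (X i) 0 := by simpa using hX i
      exact h0
    | succ k ih =>
      intro X hX
      obtain ⟨m, hm, q, hmq⟩ := hlead k (fun i => (X i).coeff (-1 - k))
      have h1 : X - m ∈ Taylor ⊔ N := by
        apply ih
        intro i j hj
        rw [Pi.sub_apply, HahnSeries.coeff_sub]
        by_cases hjk : j = -1 - k
        · subst hjk
          rw [(hmq i).2.1, sub_self]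
        · rw [(hmq i).1 j (by omega), hX i j (by push_cast; omega), sub_zero]
      have h2 : X = (X - m) + m := by abel
      rw [h2]
      exact Submodule.add_mem _ h1 (Submodule.mem_sup_right hm)
  rw [eq_top_iff]
  intro X _
  have hord : ∀ f : F, ∃ k : ℕ, ∀ k' : ℕ, k ≤ k' → Ord f (-(k' : ℤ)) := by
    intro f
    refine ⟨(-f.order).toNat, fun k' hk' j hj => ?_⟩
    apply HahnSeries.coeff_eq_zero_of_lt_order
    omega
  obtain ⟨k0, h0⟩ := hord (X 0)
  obtain ⟨k1, h1⟩ := hord (X 1)
  obtain ⟨k2, h2⟩ := hord (X 2)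
  apply hmain (k0 + k1 + k2) X
  intro i
  fin_cases i
  · exact h0 _ (by omega)
  · exact h1 _ (by omega)
  · exact h2 _ (by omega)

/-- A basic triple in `U^{⊥_1}`. -/
theorem exists_R0 {U : Submodule ℂ L} (hU : Factoring U) :
    ∃ R0 : Fin 3 → L, IsBasic R0 ∧ ∀ i, R0 i ∈ perp 1 U := by
  have hY : ∀ (k : ℕ) (j : Fin 3), ∃ Y ∈ U, Y - lam (-1 - k) • eb j ∈ Taylor := by
    intro k j
    have : lam (-1 - k) • eb j ∈ Taylor ⊔ U := by rw [hU.2.sup_eq_top]; trivial
    obtain ⟨t, ht, Y, hY, hsum⟩ := Submodule.mem_sup.mp this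
    refine ⟨Y, hY, ?_⟩
    rw [← hsum]
    have : Y - (t + Y) = -t := by abel
    rw [this]
    exact Taylor.neg_mem ht
  choose Y hYU hYT using hY
  set Ψ : Fin 3 → L := fun i j => ((PowerSeries.mk fun k => (Y k j i).coeff 0 : PowerSeries ℂ) : F)
    with hΨ
  have hΨT : ∀ i, Ψ i ∈ Taylor := fun i j => ord_coe _
  refine ⟨fun i => lam (-1) • eb i - Ψ i, ?_, ?_⟩
  · intro i
    have : lam (-1) • eb i - Ψ i - lam (-1) • eb i = -Ψ i := by abel
    rw [this]
    exact Taylor.neg_mem (hΨT i)
  · intro i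
    set R : L := lam (-1) • eb i - Ψ i with hR
    have hYk : ∀ (k : ℕ) (j : Fin 3), (pair R (Y k j)).coeff (-1) = 0 := by
      intro k j
      set η := Y k j - lam (-1 - k) • eb j with hη
      have hηT : η ∈ Taylor := hYT k j
      have hYe : Y k j = lam (-1 - k) • eb j + η := by rw [hη]; abel
      have h1 : pair R (Y k j) = lam (-1 - k) * (lam (-1) * eb i j) - lam (-1 - k) * Ψ i j +
          lam (-1) * η i - pair (Ψ i) η := by
        rw [hYe, pair_add_right, eb_pair, hR, pair_sub_left]
        have h2 : pair (lam (-1) • eb i) η = lam (-1) * η i := by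
          rw [pair_smul_left]
          fin_cases i <;> simp [pair, eb]
        rw [h2, Pi.sub_apply, Pi.smul_apply, smul_eq_mul]
        ring
      rw [h1, HahnSeries.coeff_sub, HahnSeries.coeff_add, HahnSeries.coeff_sub,
        coeff_lam_mul, coeff_lam_mul, coeff_lam_mul, coeff_lam_mul]
      have h3 : (pair (Ψ i) η).coeff (-1) = 0 :=
        pair_ord (hΨT i) hηT (-1) (by norm_num)
      have h4 : (eb i j).coeff (-1 - (-1 - (k : ℤ)) - -1) = 0 := by
        by_cases hij : j = i
        · subst hij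
          simp only [eb, Pi.single_eq_same]
          rw [HahnSeries.coeff_one, if_neg (by omega)]
        · simp [eb, hij]
      have h5 : (Ψ i j).coeff (-1 - (-1 - (k : ℤ))) = (Y k j i).coeff 0 := by
        have : (-1 - (-1 - (k : ℤ))) = k := by ring
        rw [this, hΨ]
        simp only
        rw [PowerSeries.coeff_coe, if_neg (by omega), PowerSeries.coeff_mk]
        simp
      have h6 : (η i).coeff (-1 - -1) = (Y k j i).coeff 0 := by
        rw [hη, Pi.sub_apply, HahnSeries.coeff_sub, Pi.smul_apply, smul_eq_mul, coeff_lam_mul]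
        have : (eb j i).coeff (-1 - -1 - (-1 - (k : ℤ))) = 0 := by
          by_cases hij : i = j
          · subst hij
            simp only [eb, Pi.single_eq_same]
            rw [HahnSeries.coeff_one, if_neg (by omega)]
          · simp [eb, hij]
        rw [this, sub_zero]
        norm_num
      rw [h3, h4, h5, h6]
      ring
    have hall : ∀ k : ℕ, ∀ Z ∈ U, (∀ j, Ord (Z j) (-(k : ℤ))) → (pair R Z).coeff (-1) = 0 := by
      intro k
      induction k with
      | zero =>
        intro Z hZ hZo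
        have hZT : Z ∈ Taylor := by
          intro j
          have h0 : Ord (Z j) 0 := by simpa using hZo j
          exact h0
        have : Z = 0 := by
          have := hU.2.disjoint
          rw [Submodule.disjoint_def] at this
          exact this Z hZT hZ
        rw [this]; simp [pair]
      | succ k ih =>
        intro Z hZ hZo
        set c : Fin 3 → ℂ := fun j => (Z j).coeff (-1 - k) with hc
        set Z' := Z - (c 0 • Y k 0 + c 1 • Y k 1 + c 2 • Y k 2) with hZ'
        have hZ'U : Z' ∈ U := by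
          apply U.sub_mem hZ
          exact U.add_mem (U.add_mem (U.smul_mem _ (hYU k 0)) (U.smul_mem _ (hYU k 1)))
            (U.smul_mem _ (hYU k 2))
        have hYc : ∀ (j l : Fin 3) (m : ℤ), m < 0 →
            (Y k j l).coeff m = (eb j l).coeff (m - (-1 - k)) := by
          intro j l m hm
          have := hYT k j l m hm
          rw [Pi.sub_apply, HahnSeries.coeff_sub, Pi.smul_apply, smul_eq_mul, coeff_lam_mul,
            sub_eq_zero] at this
          exact this
        have hZ'o : ∀ j, Ord (Z' j) (-(k : ℤ)) := by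
          intro l m hm
          rw [hZ', Pi.sub_apply, Pi.add_apply, Pi.add_apply, Pi.smul_apply, Pi.smul_apply,
            Pi.smul_apply, HahnSeries.coeff_sub, HahnSeries.coeff_add, HahnSeries.coeff_add,
            HahnSeries.coeff_smul, HahnSeries.coeff_smul, HahnSeries.coeff_smul,
            hYc 0 l m (by omega), hYc 1 l m (by omega), hYc 2 l m (by omega)]
          by_cases hmk : m = -1 - k
          · subst hmk
            rw [sub_self]
            fin_cases l <;> simp [eb, hc]
          · have hz : (Z l).coeff m = 0 := hZo l m (by push_cast; omega)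
            rw [hz]
            have he : ∀ j, (eb j l).coeff (m - (-1 - (k : ℤ))) = 0 := by
              intro j
              by_cases hij : l = j
              · subst hij
                simp only [eb, Pi.single_eq_same]
                rw [HahnSeries.coeff_one, if_neg (by omega)]
              · simp [eb, hij]
            rw [he, he, he]; simp
        have h1 := ih Z' hZ'U hZ'o
        have h2 : Z = Z' + (c 0 • Y k 0 + c 1 • Y k 1 + c 2 • Y k 2) := by rw [hZ']; abel
        rw [h2, pair_add_right, pair_add_right, pair_add_right, pair_smulC_right,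
          pair_smulC_right, pair_smulC_right, HahnSeries.coeff_add, HahnSeries.coeff_add,
          HahnSeries.coeff_add, HahnSeries.coeff_smul, HahnSeries.coeff_smul,
          HahnSeries.coeff_smul, h1, hYk, hYk, hYk]
        simp
    intro Z hZ
    have hord : ∀ f : F, ∃ k : ℕ, ∀ k' : ℕ, k ≤ k' → Ord f (-(k' : ℤ)) := by
      intro f
      refine ⟨(-f.order).toNat, fun k' hk' j hj => ?_⟩
      apply HahnSeries.coeff_eq_zero_of_lt_order
      omega
    obtain ⟨k0, h0⟩ := hord (Z 0)
    obtain ⟨k1, h1⟩ := hord (Z 1)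
    obtain ⟨k2, h2⟩ := hord (Z 2)
    have h3 := hall (k0 + k1 + k2) Z hZ (by
      intro j
      fin_cases j
      · exact h0 _ (by omega)
      · exact h1 _ (by omega)
      · exact h2 _ (by omega))
    have h4 : ((1 : PowerSeries ℂ) : F) = 1 := by simp
    rw [h4, one_mul]
    exact h3

end Pool.R712.So3
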