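import Pool.Agent.R712.SoLoop

/-!
Factoring subalgebras of `so_3((λ))`, orthogonal complements and generated modules.
-/

set_option autoImplicit false

namespace Pool.R712.So3

/-- `so_3((λ))`: coordinates with respect to `e_1, e_2, e_3`. -/
abbrev L := Fin 3 → F

/-- The vector `e_i`. -/
noncomputable def eb (i : Fin 3) : L := Pi.single i 1

/-- `λ^n` as a Laurent series. -/
noncomputable def lam (n : ℤ) : F := HahnSeries.single n (1 : ℂ)

/-- `so_3[[λ]]`. -/
def Taylor : Submodule ℂ L where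
  carrier := {X | ∀ i, ∀ k < (0 : ℤ), (X i).coeff k = 0}
  add_mem' hX hY i := Ord.add (hX i) (hY i)
  zero_mem' _ := Ord.zero 0
  smul_mem' c _ hX i := Ord.smul c (hX i)

/-- Factoring subalgebras. -/
def Factoring (U : Submodule ℂ L) : Prop :=
  (∀ X ∈ U, ∀ Y ∈ U, br X Y ∈ U) ∧ IsCompl Taylor U

theorem smul_eq (c : ℂ) (f : F) : c • f = (HahnSeries.C c : F) * f :=
  HahnSeries.C_mul_eq_smul.symm

theorem smul_eq' (c : ℂ) (X : L) : c • X = (HahnSeries.C c : F) • X := by
  funext i
  exact smul_eq c (X i)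

theorem pair_smulC_left (c : ℂ) (X Y : L) : pair (c • X) Y = c • pair X Y := by
  rw [smul_eq', pair_smul_left, ← smul_eq]

theorem pair_smulC_right (c : ℂ) (X Y : L) : pair X (c • Y) = c • pair X Y := by
  rw [smul_eq', pair_smul_right, ← smul_eq]

theorem br_smulC_right (c : ℂ) (X Y : L) : br X (c • Y) = c • br X Y := by
  rw [smul_eq', br_smul_right, ← smul_eq']

theorem br_smulC_left (c : ℂ) (X Y : L) : br (c • X) Y = c • br X Y := by
  rw [smul_eq', br_smul_left, ← smul_eq']

/-- The orthogonal complement with respect to `res P (X, Y)`. -/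
noncomputable def perp (P : PowerSeries ℂ) (U : Submodule ℂ L) : Submodule ℂ L where
  carrier := {X | ∀ Y ∈ U, ((P : F) * pair X Y).coeff (-1) = 0}
  add_mem' hX hY Z hZ := by
    rw [pair_add_left, mul_add, HahnSeries.coeff_add, hX Z hZ, hY Z hZ, add_zero]
  zero_mem' Z _ := by simp [pair]
  smul_mem' c X hX Z hZ := by
    rw [pair_smulC_left, smul_eq, mul_left_comm, ← smul_eq, HahnSeries.coeff_smul, hX Z hZ,
      smul_zero]

/-- The `U`-module generated by a triple. -/
def genMod (U : Submodule ℂ L) (R : Fin 3 → L) : Submodule ℂ L :=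
  sInf {N | (∀ i, R i ∈ N) ∧ ∀ Y ∈ U, ∀ X ∈ N, br Y X ∈ N}

theorem genMod_mem (U : Submodule ℂ L) (R : Fin 3 → L) (i : Fin 3) : R i ∈ genMod U R := by
  rw [genMod, Submodule.mem_sInf]
  exact fun N hN => hN.1 i

theorem genMod_closed (U : Submodule ℂ L) (R : Fin 3 → L) (Y : L) (hY : Y ∈ U) (X : L)
    (hX : X ∈ genMod U R) : br Y X ∈ genMod U R := by
  rw [genMod, Submodule.mem_sInf] at hX ⊢
  exact fun N hN => hN.2 Y hY X (hX N hN)

/-! ### Power series -/

theorem ord_coe (P : PowerSeries ℂ) : Ord (P : F) 0 := by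
  intro k hk
  rw [PowerSeries.coeff_coe, if_pos hk]

theorem exists_powerSeries (f : F) (h : Ord f 0) : ∃ P : PowerSeries ℂ, (P : F) = f := by
  refine ⟨PowerSeries.mk fun n => f.coeff n, ?_⟩
  ext k
  rw [PowerSeries.coeff_coe]
  by_cases hk : k < 0
  · rw [if_pos hk, h k hk]
  · rw [if_neg hk, PowerSeries.coeff_mk]
    congr 1
    omega

theorem lam_mul (n m : ℤ) : lam n * lam m = lam (n + m) := by
  rw [lam, lam, lam, HahnSeries.single_mul_single, mul_one]

theorem lam_zero : lam 0 = 1 := rfl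

theorem coeff_lam_mul (f : F) (n k : ℤ) : (lam n * f).coeff k = f.coeff (k - n) := by
  have := HahnSeries.coeff_single_mul_add (r := (1 : ℂ)) (x := f) (a := k - n) (b := n)
  rw [sub_add_cancel, one_mul] at this
  exact this

/-! ### Nondegeneracy -/

theorem eb_pair (X : L) (j : Fin 3) (f : F) : pair X (f • eb j) = f * X j := by
  fin_cases j <;> simp [pair, eb, mul_comm]

theorem eq_zero_of_pair (X : L) (h : ∀ Y : L, (pair X Y).coeff (-1) = 0) : X = 0 := by
  funext j
  ext k
  have := h (lam (-1 - k) • eb j)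
  rw [eb_pair, coeff_lam_mul] at this
  rw [Pi.zero_apply, HahnSeries.coeff_zero]
  rw [← this]; congr 1; ring

theorem pair_ord {X Y : L} {n m : ℤ} (hX : ∀ i, Ord (X i) n) (hY : ∀ i, Ord (Y i) m) :
    Ord (pair X Y) (n + m) :=
  (((hX 0).mul (hY 0)).add ((hX 1).mul (hY 1))).add ((hX 2).mul (hY 2))

theorem perp_taylor {P : PowerSeries ℂ} (hP : P ≠ 0) {U : Submodule ℂ L}
    (hU : Factoring U) {X : L} (hX : X ∈ perp P U) (hT : X ∈ Taylor) : X = 0 := by
  have hPF : (P : F) ≠ 0 := by
    intro h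
    apply hP
    have h' : HahnSeries.ofPowerSeries ℤ ℂ P = HahnSeries.ofPowerSeries ℤ ℂ 0 := by
      rw [map_zero]; exact h
    exact HahnSeries.ofPowerSeries_injective h'
  have h1 : (P : F) • X = 0 := by
    apply eq_zero_of_pair
    intro Y
    rw [pair_smul_left]
    have hY : Y ∈ Taylor ⊔ U := by rw [hU.2.sup_eq_top]; trivial
    obtain ⟨Y1, h1, Y2, h2, rfl⟩ := Submodule.mem_sup.mp hY
    rw [pair_add_right, mul_add, HahnSeries.coeff_add, hX Y2 h2, add_zero]
    exact ((ord_coe P).mul (pair_ord hT h1)) (-1) (by norm_num)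
  funext i
  have h2 := congrFun h1 i
  rw [Pi.smul_apply, smul_eq_mul] at h2
  exact (mul_eq_zero.mp h2).resolve_left hPF

theorem perp_closed (P : PowerSeries ℂ) {U : Submodule ℂ L} (hU : Factoring U) {X Y : L}
    (hY : Y ∈ U) (hX : X ∈ perp P U) : br Y X ∈ perp P U := by
  intro Z hZ
  have h1 : pair (br Y X) Z = -pair X (br Y Z) := by simp [pair, br]; ring
  rw [h1, mul_neg, HahnSeries.coeff_neg, hX _ (hU.1 Y hY Z hZ), neg_zero]

end Pool.R712.So3
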