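import Mathlib

/-!
Laurent expansions up to second order, and the bracket of `so_3`.
-/

set_option autoImplicit false

namespace Pool.R712.So3

/-- The field of formal Laurent series. -/
abbrev F := LaurentSeries ℂ

/-- The bracket of `so_3` in the basis `e_1 = E_12 - E_21`, `e_2 = E_13 - E_31`,
`e_3 = E_23 - E_32`: `[e_1,e_2] = -e_3`, `[e_2,e_3] = -e_1`, `[e_3,e_1] = -e_2`. -/
def br {A : Type*} [CommRing A] (X Y : Fin 3 → A) : Fin 3 → A :=
  ![X 2 * Y 1 - X 1 * Y 2, X 0 * Y 2 - X 2 * Y 0, X 1 * Y 0 - X 0 * Y 1]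

/-- The skew-symmetric matrix with coordinates `X`. -/
def toMat {A : Type*} [CommRing A] (X : Fin 3 → A) : Matrix (Fin 3) (Fin 3) A :=
  !![0, X 0, X 1; -X 0, 0, X 2; -X 1, -X 2, 0]

theorem toMat_br {A : Type*} [CommRing A] (X Y : Fin 3 → A) :
    toMat (br X Y) = toMat X * toMat Y - toMat Y * toMat X := by
  ext i j
  fin_cases i <;> fin_cases j <;>
    simp [toMat, br] <;> ring

/-- The invariant form. -/
def pair {A : Type*} [CommRing A] (X Y : Fin 3 → A) : A := X 0 * Y 0 + X 1 * Y 1 + X 2 * Y 2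

section
variable {A : Type*} [CommRing A]

theorem br_add_right (X Y Z : Fin 3 → A) : br X (Y + Z) = br X Y + br X Z := by
  ext i; fin_cases i <;> simp [br] <;> ring

theorem br_sub_right (X Y Z : Fin 3 → A) : br X (Y - Z) = br X Y - br X Z := by
  ext i; fin_cases i <;> simp [br] <;> ring

theorem br_add_left (X Y Z : Fin 3 → A) : br (X + Y) Z = br X Z + br Y Z := by
  ext i; fin_cases i <;> simp [br] <;> ring

theorem br_smul_right (c : A) (X Y : Fin 3 → A) : br X (c • Y) = c • br X Y := by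
  ext i; fin_cases i <;> simp [br] <;> ring

theorem br_smul_left (c : A) (X Y : Fin 3 → A) : br (c • X) Y = c • br X Y := by
  ext i; fin_cases i <;> simp [br] <;> ring

theorem br_skew (X Y : Fin 3 → A) : br X Y = -br Y X := by
  ext i; fin_cases i <;> simp [br] <;> ring

theorem pair_inv (X Y Z : Fin 3 → A) : pair (br X Y) Z = -pair Y (br X Z) := by
  simp [pair, br]; ring

theorem pair_smul_left (c : A) (X Y : Fin 3 → A) : pair (c • X) Y = c * pair X Y := by
  simp [pair]; ring

theorem pair_smul_right (c : A) (X Y : Fin 3 → A) : pair X (c • Y) = c * pair X Y := by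
  simp [pair]; ring

theorem pair_add_left (X Y Z : Fin 3 → A) : pair (X + Y) Z = pair X Z + pair Y Z := by
  simp [pair]; ring

theorem pair_sub_left (X Y Z : Fin 3 → A) : pair (X - Y) Z = pair X Z - pair Y Z := by
  simp [pair]; ring

theorem pair_add_right (X Y Z : Fin 3 → A) : pair X (Y + Z) = pair X Y + pair X Z := by
  simp [pair]; ring
end

/-! ### Orders -/

/-- `f` has order at least `n`. -/
def Ord (f : F) (n : ℤ) : Prop := ∀ k < n, f.coeff k = 0

theorem Ord.mono {f : F} {n m : ℤ} (h : Ord f n) (hm : m ≤ n) : Ord f m :=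
  fun k hk => h k (lt_of_lt_of_le hk hm)

theorem Ord.add {f g : F} {n : ℤ} (hf : Ord f n) (hg : Ord g n) : Ord (f + g) n := by
  intro k hk; rw [HahnSeries.coeff_add, hf k hk, hg k hk, add_zero]

theorem Ord.sub {f g : F} {n : ℤ} (hf : Ord f n) (hg : Ord g n) : Ord (f - g) n := by
  intro k hk; rw [HahnSeries.coeff_sub, hf k hk, hg k hk, sub_zero]

theorem Ord.neg {f : F} {n : ℤ} (hf : Ord f n) : Ord (-f) n := by
  intro k hk; rw [HahnSeries.coeff_neg, hf k hk, neg_zero]

theorem Ord.smul {f : F} {n : ℤ} (c : ℂ) (hf : Ord f n) : Ord (c • f) n := by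
  intro k hk; rw [HahnSeries.coeff_smul, hf k hk, smul_zero]

theorem Ord.zero (n : ℤ) : Ord 0 n := fun _ _ => rfl

theorem Ord.mul {f g : F} {n m : ℤ} (hf : Ord f n) (hg : Ord g m) : Ord (f * g) (n + m) := by
  intro k hk
  rw [HahnSeries.coeff_mul]
  apply Finset.sum_eq_zero
  intro p hp
  rw [Finset.mem_antidiagonal] at hp
  obtain ⟨-, -, hp⟩ := hp
  by_cases h : p.1 < n
  · rw [hf _ h, zero_mul]
  · rw [hg _ (by omega), mul_zero]

theorem Ord.single (n : ℤ) (c : ℂ) : Ord (HahnSeries.single n c) n := by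
  intro k hk
  exact HahnSeries.coeff_single_of_ne hk.ne

/-- `f = c λ^n + d λ^{n+1} + …`. -/
def Exp (f : F) (n : ℤ) (c d : ℂ) : Prop := Ord f n ∧ f.coeff n = c ∧ f.coeff (n + 1) = d

theorem Exp.unique {f : F} {n : ℤ} {c d c' d' : ℂ} (h : Exp f n c d) (h' : Exp f n c' d') :
    c = c' ∧ d = d' := ⟨h.2.1.symm.trans h'.2.1, h.2.2.symm.trans h'.2.2⟩

theorem Exp.add {f g : F} {n : ℤ} {c d c' d' : ℂ} (hf : Exp f n c d) (hg : Exp g n c' d') :
    Exp (f + g) n (c + c') (d + d') :=
  ⟨hf.1.add hg.1, by rw [HahnSeries.coeff_add, hf.2.1, hg.2.1],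
    by rw [HahnSeries.coeff_add, hf.2.2, hg.2.2]⟩

theorem Exp.sub {f g : F} {n : ℤ} {c d c' d' : ℂ} (hf : Exp f n c d) (hg : Exp g n c' d') :
    Exp (f - g) n (c - c') (d - d') :=
  ⟨hf.1.sub hg.1, by rw [HahnSeries.coeff_sub, hf.2.1, hg.2.1],
    by rw [HahnSeries.coeff_sub, hf.2.2, hg.2.2]⟩

theorem Exp.smul {f : F} {n : ℤ} {c d : ℂ} (a : ℂ) (hf : Exp f n c d) :
    Exp (a • f) n (a * c) (a * d) :=
  ⟨hf.1.smul a, by rw [HahnSeries.coeff_smul, hf.2.1, smul_eq_mul],
    by rw [HahnSeries.coeff_smul, hf.2.2, smul_eq_mul]⟩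

theorem Exp.shift {f : F} {n : ℤ} {c d : ℂ} (hf : Exp f (n + 1) c d) : Exp f n 0 c :=
  ⟨hf.1.mono (by omega), hf.1 n (by omega), hf.2.1⟩

theorem Exp.iff {f : F} {n : ℤ} {c d : ℂ} : Exp f n c d ↔
    Ord (f - (HahnSeries.single n c + HahnSeries.single (n + 1) d)) (n + 2) := by
  constructor
  · rintro ⟨h1, h2, h3⟩ k hk
    rw [HahnSeries.coeff_sub, HahnSeries.coeff_add]
    rcases (by omega : k < n ∨ k = n ∨ k = n + 1) with h | h | h
    · rw [h1 k h, HahnSeries.coeff_single_of_ne (by omega),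
        HahnSeries.coeff_single_of_ne (by omega)]
      simp
    · subst h
      rw [h2, HahnSeries.coeff_single_same, HahnSeries.coeff_single_of_ne (by omega)]
      simp
    · subst h
      rw [h3, HahnSeries.coeff_single_same, HahnSeries.coeff_single_of_ne (by omega)]
      simp
  · intro h
    refine ⟨fun k hk => ?_, ?_, ?_⟩
    · have := h k (by omega)
      rw [HahnSeries.coeff_sub, HahnSeries.coeff_add, HahnSeries.coeff_single_of_ne (by omega),
        HahnSeries.coeff_single_of_ne (by omega)] at this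
      simpa using this
    · have := h n (by omega)
      rw [HahnSeries.coeff_sub, HahnSeries.coeff_add, HahnSeries.coeff_single_same,
        HahnSeries.coeff_single_of_ne (by omega), add_zero, sub_eq_zero] at this
      exact this
    · have := h (n + 1) (by omega)
      rw [HahnSeries.coeff_sub, HahnSeries.coeff_add, HahnSeries.coeff_single_same,
        HahnSeries.coeff_single_of_ne (by omega), zero_add, sub_eq_zero] at this
      exact this

theorem Exp.mul {f g : F} {n m : ℤ} {c d c' d' : ℂ} (hf : Exp f n c d) (hg : Exp g m c' d') :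
    Exp (f * g) (n + m) (c * c') (c * d' + d * c') := by
  rw [Exp.iff] at hf hg ⊢
  set f' := f - (HahnSeries.single n c + HahnSeries.single (n + 1) d) with hf'
  set g' := g - (HahnSeries.single m c' + HahnSeries.single (m + 1) d') with hg'
  have e1 : f = HahnSeries.single n c + HahnSeries.single (n + 1) d + f' := by rw [hf']; ring
  have e2 : g = HahnSeries.single m c' + HahnSeries.single (m + 1) d' + g' := by rw [hg']; ring
  have s1 : (HahnSeries.single n c : F) * HahnSeries.single m c' =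
      HahnSeries.single (n + m) (c * c') := HahnSeries.single_mul_single
  have s2 : (HahnSeries.single n c : F) * HahnSeries.single (m + 1) d' =
      HahnSeries.single (n + m + 1) (c * d') := by
    rw [HahnSeries.single_mul_single, ← add_assoc]
  have s3 : (HahnSeries.single (n + 1) d : F) * HahnSeries.single m c' =
      HahnSeries.single (n + m + 1) (d * c') := by
    rw [HahnSeries.single_mul_single, add_right_comm]
  have s4 : (HahnSeries.single (n + m + 1) (c * d' + d * c') : F) =
      HahnSeries.single (n + m + 1) (c * d') + HahnSeries.single (n + m + 1) (d * c') := by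
    ext k
    rw [HahnSeries.coeff_add]
    by_cases h : k = n + m + 1
    · subst h
      rw [HahnSeries.coeff_single_same, HahnSeries.coeff_single_same,
        HahnSeries.coeff_single_same]
    · rw [HahnSeries.coeff_single_of_ne h, HahnSeries.coeff_single_of_ne h,
        HahnSeries.coeff_single_of_ne h, add_zero]
  have key : f * g - (HahnSeries.single (n + m) (c * c') +
      HahnSeries.single (n + m + 1) (c * d' + d * c')) =
      (HahnSeries.single n c + HahnSeries.single (n + 1) d) * g' +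
        f' * (HahnSeries.single m c' + HahnSeries.single (m + 1) d' + g') +
        HahnSeries.single (n + 1) d * HahnSeries.single (m + 1) d' := by
    rw [s4, ← s1, ← s2, ← s3]
    rw [e1, e2]
    ring
  rw [key]
  have o1 : Ord (HahnSeries.single n c + HahnSeries.single (n + 1) d) n :=
    (Ord.single n c).add ((Ord.single (n + 1) d).mono (by omega))
  have o2 : Ord (HahnSeries.single m c' + HahnSeries.single (m + 1) d') m :=
    (Ord.single m c').add ((Ord.single (m + 1) d').mono (by omega))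
  refine ((Ord.mono (o1.mul hg) (by omega)).add (Ord.mono (hf.mul (o2.add (hg.mono (by omega))))
    (by omega))).add (Ord.mono ((Ord.single (n + 1) d).mul (Ord.single (m + 1) d')) (by omega))

/-- Vector expansions. -/
def Exp3 (X : Fin 3 → F) (n : ℤ) (p q : Fin 3 → ℂ) : Prop := ∀ i, Exp (X i) n (p i) (q i)

theorem Exp3.unique {X : Fin 3 → F} {n : ℤ} {p q p' q' : Fin 3 → ℂ} (h : Exp3 X n p q)
    (h' : Exp3 X n p' q') : p = p' ∧ q = q' :=
  ⟨funext fun i => ((h i).unique (h' i)).1, funext fun i => ((h i).unique (h' i)).2⟩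

theorem Exp3.add {X Y : Fin 3 → F} {n : ℤ} {p q p' q' : Fin 3 → ℂ} (h : Exp3 X n p q)
    (h' : Exp3 Y n p' q') : Exp3 (X + Y) n (p + p') (q + q') := fun i => (h i).add (h' i)

theorem Exp3.sub {X Y : Fin 3 → F} {n : ℤ} {p q p' q' : Fin 3 → ℂ} (h : Exp3 X n p q)
    (h' : Exp3 Y n p' q') : Exp3 (X - Y) n (p - p') (q - q') := fun i => (h i).sub (h' i)

theorem Exp3.smul {X : Fin 3 → F} {n : ℤ} {p q : Fin 3 → ℂ} (a : ℂ) (h : Exp3 X n p q) :
    Exp3 (a • X) n (a • p) (a • q) := fun i => (h i).smul a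

theorem Exp3.shift {X : Fin 3 → F} {n : ℤ} {p q : Fin 3 → ℂ} (h : Exp3 X (n + 1) p q) :
    Exp3 X n 0 p := fun i => (h i).shift

theorem Exp.congr {f : F} {n : ℤ} {c d c' d' : ℂ} (h : Exp f n c d) (hc : c = c')
    (hd : d = d') : Exp f n c' d' := by rw [← hc, ← hd]; exact h

theorem Exp3.mk' {X : Fin 3 → F} {n : ℤ} {p q : Fin 3 → ℂ} (h0 : Exp (X 0) n (p 0) (q 0))
    (h1 : Exp (X 1) n (p 1) (q 1)) (h2 : Exp (X 2) n (p 2) (q 2)) : Exp3 X n p q := by
  intro i
  fin_cases i
  · exact h0
  · exact h1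
  · exact h2

theorem Exp3.br {X Y : Fin 3 → F} {n m : ℤ} {p q p' q' : Fin 3 → ℂ} (h : Exp3 X n p q)
    (h' : Exp3 Y m p' q') :
    Exp3 (br X Y) (n + m) (br p p') (So3.br p q' + So3.br q p') := by
  refine Exp3.mk' ?_ ?_ ?_
  · refine (((h 2).mul (h' 1)).sub ((h 1).mul (h' 2))).congr ?_ ?_
    · simp [So3.br]
    · simp [So3.br]; ring
  · refine (((h 0).mul (h' 2)).sub ((h 2).mul (h' 0))).congr ?_ ?_
    · simp [So3.br]
    · simp [So3.br]; ring
  · refine (((h 1).mul (h' 0)).sub ((h 0).mul (h' 1))).congr ?_ ?_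
    · simp [So3.br]
    · simp [So3.br]; ring

end Pool.R712.So3
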