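import Pool.Agent.R712.SoAdm

/-!
Admissible triples are the scalar multiples of the one in `U^⊥`, and the modules they generate.
-/

set_option autoImplicit false

namespace Pool.R712.So3

open Matrix

theorem pair_exp {X Y : L} {n m : ℤ} {p q p' q' : Fin 3 → ℂ} (h : Exp3 X n p q)
    (h' : Exp3 Y m p' q') : Exp (pair X Y) (n + m) (pair p p') (pair p q' + pair q p') := by
  refine ((((h 0).mul (h' 0)).add ((h 1).mul (h' 1))).add ((h 2).mul (h' 2))).congr ?_ ?_
  · simp [pair]
  · simp [pair]; ring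

theorem taylor_of_exp {X : L} {p q : Fin 3 → ℂ} (h : Exp3 X (-2) p q) (hp : p = 0)
    (hq : q = 0) : X ∈ Taylor := by
  subst hp; subst hq
  intro i k hk
  rcases (by omega : k < -2 ∨ k = -2 ∨ k = -2 + 1) with h1 | h1 | h1
  · exact (h i).1 k h1
  · subst h1; exact (h i).2.1
  · subst h1; exact (h i).2.2

theorem adm_R0 {U : Submodule ℂ L} (hU : Factoring U) {E R : Fin 3 → L}
    (hE : IsBasic E) (hEU : ∀ i, E i ∈ U) (hR : IsBasic R) (hRp : ∀ i, R i ∈ perp 1 U)
    {u v w x y z : ℂ} {B D : Matrix (Fin 3) (Fin 3) ℂ}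
    (h : DoubleRel E (matA u v w) B (matC u v w x y z) D) :
    AdmRel E (matA u v w) (matC u v w x y z) R := by
  obtain ⟨hu, hv, hw, hx, hy, hz⟩ := double_coeffs hE h
  have hb : ∀ i j, (R i j).coeff 0 = -(E j i).coeff 0 := by
    intro i j
    have h1 := pair_exp (basic_exp hR i) (basic_exp hE j)
    have h2 := hRp i (E j) (hEU j)
    have h4 : ((1 : PowerSeries ℂ) : F) = 1 := by simp
    rw [h4, one_mul] at h2
    have h3 := h1.2.2
    rw [show (-1 : ℤ) + -1 + 1 = -1 by norm_num, h2] at h3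
    have h5 : pair (ec i) (fun l => (E j l).coeff 0) = (E j i).coeff 0 := by
      fin_cases i <;> simp [pair, ec]
    have h6 : pair (fun l => (R i l).coeff 0) (ec j) = (R i j).coeff 0 := by
      fin_cases j <;> simp [pair, ec]
    rw [h5, h6] at h3
    linear_combination -h3
  have hb' : ∀ i, (fun j => (R i j).coeff 0) = fun j => -(E j i).coeff 0 :=
    fun i => funext fun j => hb i j
  have eE := basic_exp hE
  have eR : ∀ i, Exp3 (R i) (-1) (ec i) (fun j => -(E j i).coeff 0) := by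
    intro i
    rw [← hb']
    exact basic_exp hR i
  have ebr : ∀ i j, Exp3 (br (E i) (R j)) (-2) (br (ec i) (ec j))
      (br (ec i) (fun l => -(E l j).coeff 0) + br (fun l => (E i l).coeff 0) (ec j)) :=
    fun i j => (eE i).br (eR j)
  have rhs : ∀ (A : Matrix (Fin 3) (Fin 3) ℂ) i, Exp3 (∑ j, A i j • ![R 1, R 2, R 0] j) (-2) 0
      (A i 0 • ec 1 + A i 1 • ec 2 + A i 2 • ec 0) := by
    intro A i
    rw [Fin.sum_univ_three]
    exact ((((eR 1).smul (A i 0)).add ((eR 2).smul (A i 1))).add ((eR 0).smul (A i 2))).shift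
  have pbr : ∀ i j, br (E i) (R j) ∈ perp 1 U := fun i j => perp_closed 1 hU (hEU i) (hRp j)
  have prhs : ∀ (A : Matrix (Fin 3) (Fin 3) ℂ) i,
      ∑ j, A i j • ![R 1, R 2, R 0] j ∈ perp 1 U := by
    intro A i
    rw [Fin.sum_univ_three]
    exact (perp 1 U).add_mem ((perp 1 U).add_mem ((perp 1 U).smul_mem _ (hRp 1))
      ((perp 1 U).smul_mem _ (hRp 2))) ((perp 1 U).smul_mem _ (hRp 0))
  have fin : ∀ {X Y : L} {p q : Fin 3 → ℂ}, X ∈ perp 1 U → Y ∈ perp 1 U →
      Exp3 (X - Y) (-2) p q → p = 0 → q = 0 → X = Y := by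
    intro X Y p q hX hY he hp hq
    exact sub_eq_zero.mp (perp_taylor one_ne_zero hU ((perp 1 U).sub_mem hX hY)
      (taylor_of_exp he hp hq))
  constructor
  · intro i
    fin_cases i
    · refine fin (pbr 0 0) (prhs _ 0) ((ebr 0 0).sub (rhs _ 0)) ?_ ?_
      · funext k; fin_cases k <;> simp [br, ec]
      · funext k; fin_cases k <;> simp [br, ec, matA, hu, hv, hw] <;> ring
    · refine fin (pbr 2 2) (prhs _ 1) ((ebr 2 2).sub (rhs _ 1)) ?_ ?_
      · funext k; fin_cases k <;> simp [br, ec]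
      · funext k; fin_cases k <;> simp [br, ec, matA, hu, hv, hw] <;> ring
    · refine fin (pbr 1 1) (prhs _ 2) ((ebr 1 1).sub (rhs _ 2)) ?_ ?_
      · funext k; fin_cases k <;> simp [br, ec]
      · funext k; fin_cases k <;> simp [br, ec, matA, hu, hv, hw] <;> ring
  · intro i
    fin_cases i
    · refine fin ((perp 1 U).add_mem (pbr 2 0) (pbr 0 2)) (prhs _ 0)
        (((ebr 2 0).add (ebr 0 2)).sub (rhs _ 0)) ?_ ?_
      · funext k; fin_cases k <;> simp [br, ec]
      · funext k; fin_cases k <;> simp [br, ec, matC, hu, hv, hw, hx, hy, hz] <;> ring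
    · refine fin ((perp 1 U).add_mem (pbr 0 1) (pbr 1 0)) (prhs _ 1)
        (((ebr 0 1).add (ebr 1 0)).sub (rhs _ 1)) ?_ ?_
      · funext k; fin_cases k <;> simp [br, ec]
      · funext k; fin_cases k <;> simp [br, ec, matC, hu, hv, hw, hx, hy, hz] <;> ring
    · refine fin ((perp 1 U).add_mem (pbr 1 2) (pbr 2 1)) (prhs _ 2)
        (((ebr 1 2).add (ebr 2 1)).sub (rhs _ 2)) ?_ ?_
      · funext k; fin_cases k <;> simp [br, ec]
      · funext k; fin_cases k <;> simp [br, ec, matC, hu, hv, hw, hx, hy, hz] <;> ring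

theorem lead_coeffs {E T : Fin 3 → L} (hE : IsBasic E) {A C : Matrix (Fin 3) (Fin 3) ℂ}
    (hT : AdmRel E A C T) (k : ℤ) (hk : ∀ i j, Ord (T i j) k) :
    ∀ i j, (T i j).coeff k = if i = j then (T 0 0).coeff k else 0 := by
  have eE := basic_exp hE
  have eT : ∀ i, Exp3 (T i) k (fun j => (T i j).coeff k) (fun j => (T i j).coeff (k + 1)) :=
    fun i j => ⟨hk i j, rfl, rfl⟩
  have ebr := fun i j => (eE i).br (eT j)
  have rhs : ∀ (A : Matrix (Fin 3) (Fin 3) ℂ) i,
      ∃ q, Exp3 (∑ j, A i j • ![T 1, T 2, T 0] j) (-1 + k) 0 q := by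
    intro A i
    rw [Fin.sum_univ_three]
    have h1 := ((((eT 1).smul (A i 0)).add ((eT 2).smul (A i 1))).add ((eT 0).smul (A i 2)))
    have h2 : k = (-1 + k) + 1 := by ring
    generalize hq : (fun j => (T 1 j).coeff (k + 1)) = q1 at h1
    generalize hq : (fun j => (T 2 j).coeff (k + 1)) = q2 at h1
    generalize hq : (fun j => (T 0 j).coeff (k + 1)) = q3 at h1
    generalize hq : (fun j => (T 1 j).coeff k) = p1 at h1
    generalize hq : (fun j => (T 2 j).coeff k) = p2 at h1
    generalize hq : (fun j => (T 0 j).coeff k) = p3 at h1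
    rw [h2] at h1
    exact ⟨_, h1.shift⟩
  obtain ⟨q10, h10⟩ := rhs A 0
  obtain ⟨q11, h11⟩ := rhs A 1
  obtain ⟨q12, h12⟩ := rhs A 2
  obtain ⟨q20, h20⟩ := rhs C 0
  obtain ⟨q21, h21⟩ := rhs C 1
  obtain ⟨q22, h22⟩ := rhs C 2
  rw [← hT.1 0] at h10
  rw [← hT.1 1] at h11
  rw [← hT.1 2] at h12
  rw [← hT.2 0] at h20
  rw [← hT.2 1] at h21
  rw [← hT.2 2] at h22
  have c10 := (Exp3.unique (ebr 0 0) h10).1
  have c11 := (Exp3.unique (ebr 2 2) h11).1
  have c12 := (Exp3.unique (ebr 1 1) h12).1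
  have c20 := (Exp3.unique ((ebr 2 0).add (ebr 0 2)) h20).1
  have c21 := (Exp3.unique ((ebr 0 1).add (ebr 1 0)) h21).1
  have c22 := (Exp3.unique ((ebr 1 2).add (ebr 2 1)) h22).1
  have a1 := congrFun c10 1
  have a2 := congrFun c10 2
  have a3 := congrFun c11 0
  have a4 := congrFun c11 1
  have a5 := congrFun c12 0
  have a6 := congrFun c12 2
  have b1 := congrFun c20 1
  have b2 := congrFun c21 2
  simp [br, ec] at a1 a2 a3 a4 a5 a6 b1 b2
  intro i j
  have b1' : (T 2 2).coeff k = (T 0 0).coeff k := by linear_combination b1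
  have b2' : (T 1 1).coeff k = (T 0 0).coeff k := by linear_combination -b2
  fin_cases i <;> fin_cases j <;> simp [a1, a2, a3, a4, a5, a6, b1', b2']

theorem smulF_add (c : F) (X Y : L) : c • (X + Y) = c • X + c • Y := by
  funext i
  simp only [Pi.add_apply, Pi.smul_apply, smul_eq_mul, mul_add]

theorem add_smulF (c d : F) (X : L) : (c + d) • X = c • X + d • X := by
  funext i
  simp only [Pi.add_apply, Pi.smul_apply, smul_eq_mul, add_mul]

theorem one_smulF (X : L) : (1 : F) • X = X := by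
  funext i
  simp only [Pi.smul_apply, smul_eq_mul, one_mul]

theorem AdmRel.smul {E R : Fin 3 → L} {A C : Matrix (Fin 3) (Fin 3) ℂ}
    (h : AdmRel E A C R) (c : F) : AdmRel E A C (fun i => c • R i) := by
  have hs : ∀ (a : ℂ) (X : L), a • c • X = c • a • X := by
    intro a X
    rw [smul_eq', smul_eq', smul_smul, smul_smul, mul_comm]
  constructor
  · intro i
    have h1 := congrArg (fun X : L => c • X) (h.1 i)
    simp only [Fin.sum_univ_three] at h1 ⊢
    fin_cases i <;> simp [smulF_add, br_smul_right, hs] at h1 ⊢ <;> exact h1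
  · intro i
    have h1 := congrArg (fun X : L => c • X) (h.2 i)
    simp only [Fin.sum_univ_three] at h1 ⊢
    fin_cases i <;> simp [smulF_add, br_smul_right, hs] at h1 ⊢ <;> exact h1

theorem AdmRel.sub {E R R' : Fin 3 → L} {A C : Matrix (Fin 3) (Fin 3) ℂ}
    (h : AdmRel E A C R) (h' : AdmRel E A C R') : AdmRel E A C (fun i => R i - R' i) := by
  constructor
  · intro i
    have h1 := congrArg₂ (fun X Y : L => X - Y) (h.1 i) (h'.1 i)
    simp only [Fin.sum_univ_three] at h1 ⊢
    fin_cases i <;> simp [smul_sub, br_sub_right] at h1 ⊢ <;> rw [h1] <;> abel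
  · intro i
    have h1 := congrArg₂ (fun X Y : L => X - Y) (h.2 i) (h'.2 i)
    simp only [Fin.sum_univ_three] at h1 ⊢
    fin_cases i <;> simp [smul_sub, br_sub_right] at h1 ⊢ <;>
    · rw [← sub_eq_zero] at h1 ⊢
      rw [← h1]
      abel

theorem eq_zero_of_adm {E T : Fin 3 → L} (hE : IsBasic E) {A C : Matrix (Fin 3) (Fin 3) ℂ}
    (hT : AdmRel E A C T) (h0 : T 0 0 = 0) : ∀ i, T i = 0 := by
  obtain ⟨k0, hk0⟩ : ∃ k0 : ℤ, ∀ i j, Ord (T i j) k0 := by
    refine ⟨-(∑ i, ∑ j, (|(T i j).order|)), fun i j k hk => ?_⟩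
    apply HahnSeries.coeff_eq_zero_of_lt_order
    have h1 : |(T i j).order| ≤ ∑ j, |(T i j).order| :=
      Finset.single_le_sum (f := fun j => |(T i j).order|) (fun j _ => abs_nonneg _)
        (Finset.mem_univ j)
    have h2 : ∑ j, |(T i j).order| ≤ ∑ i, ∑ j, |(T i j).order| :=
      Finset.single_le_sum (f := fun i => ∑ j, |(T i j).order|)
        (fun i _ => Finset.sum_nonneg fun j _ => abs_nonneg _) (Finset.mem_univ i)
    have h3 := neg_abs_le (T i j).order
    linarith
  have hall : ∀ n : ℕ, ∀ i j, Ord (T i j) (k0 + n) := by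
    intro n
    induction n with
    | zero => simpa using hk0
    | succ n ih =>
      intro i j k hk
      by_cases h1 : k < k0 + n
      · exact ih i j k h1
      · have h2 : k = k0 + n := by push_cast at hk; omega
        subst h2
        rw [lead_coeffs hE hT _ ih i j, h0]
        simp
  intro i
  funext j
  ext k
  rw [Pi.zero_apply, HahnSeries.coeff_zero]
  exact hall (k - k0 + 1).toNat i j k (by omega)

/-- Every admissible triple is a scalar multiple of the one in `U^⊥`. -/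
theorem adm_unique {E R R0 : Fin 3 → L} (hE : IsBasic E) (hR : IsBasic R) (hR0 : IsBasic R0)
    {A C : Matrix (Fin 3) (Fin 3) ℂ} (h : AdmRel E A C R) (h0 : AdmRel E A C R0) :
    ∃ S : PowerSeries ℂ, ∀ i, R i = ((1 + PowerSeries.X * S : PowerSeries ℂ) : F) • R0 i := by
  have hR00 : R0 0 0 ≠ 0 := by
    intro hz
    have := (basic_exp hR0 0 0).2.1
    rw [hz] at this
    simp [ec] at this
  set c : F := R 0 0 / R0 0 0 with hc
  have hT := h.sub (h0.smul c)
  have hz := eq_zero_of_adm hE hT (by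
    simp only [Pi.sub_apply, Pi.smul_apply, smul_eq_mul, hc]
    rw [div_mul_cancel₀ _ hR00, sub_self])
  have hRc : ∀ i, R i = c • R0 i := fun i => sub_eq_zero.mp (hz i)
  -- `c` is a power series with constant term one
  have hs : ∀ {X : Fin 3 → L}, IsBasic X → ∃ s : PowerSeries ℂ,
      PowerSeries.constantCoeff s = 1 ∧ (s : F) = lam 1 * X 0 0 := by
    intro X hX
    have he := basic_exp hX 0 0
    obtain ⟨s, hs⟩ := exists_powerSeries (lam 1 * X 0 0) (by
      intro k hk
      rw [coeff_lam_mul]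
      exact he.1 _ (by omega))
    refine ⟨s, ?_, hs⟩
    have h1 : (s : F).coeff 0 = 1 := by
      rw [hs, coeff_lam_mul]
      have := he.2.1
      simpa [ec] using this
    rw [PowerSeries.coeff_coe] at h1
    simpa using h1
  obtain ⟨s, hs1, hs2⟩ := hs hR
  obtain ⟨r, hr1, hr2⟩ := hs hR0
  have hr3 : r * r⁻¹ = 1 := PowerSeries.mul_inv_cancel r (by rw [hr1]; exact one_ne_zero)
  have hcs : c * (r : F) = (s : F) := by
    rw [hr2, hs2, hc]
    field_simp
  have hcs2 : c = ((s * r⁻¹ : PowerSeries ℂ) : F) := by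
    have h1 : ((r * r⁻¹ : PowerSeries ℂ) : F) = 1 := by rw [hr3]; simp
    rw [map_mul] at h1
    rw [map_mul, ← hcs, mul_assoc, h1, mul_one]
  have hconst : PowerSeries.constantCoeff (s * r⁻¹ - 1) = 0 := by
    rw [map_sub, map_mul, PowerSeries.constantCoeff_inv, hs1, hr1]
    simp
  obtain ⟨S, hS⟩ := PowerSeries.X_dvd_iff.mpr hconst
  refine ⟨S, fun i => ?_⟩
  rw [hRc i, hcs2, ← hS]
  congr 2
  ring

/-- Scalar multiples are admissible. -/
theorem basic_smul {R : Fin 3 → L} (hR : IsBasic R) (S : PowerSeries ℂ) :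
    IsBasic (fun i => ((1 + PowerSeries.X * S : PowerSeries ℂ) : F) • R i) := by
  intro i
  have h1 : ((1 + PowerSeries.X * S : PowerSeries ℂ) : F) • R i - lam (-1) • eb i =
      (R i - lam (-1) • eb i) + ((PowerSeries.X * S : PowerSeries ℂ) : F) • R i := by
    rw [map_add, map_one, add_smulF, one_smulF]; abel
  simp only
  rw [h1]
  apply Taylor.add_mem (hR i)
  intro j
  have h2 : ((PowerSeries.X * S : PowerSeries ℂ) : F) = lam 1 * (S : F) := by
    rw [map_mul]; congr 1
    exact PowerSeries.coe_X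
  rw [h2, Pi.smul_apply, smul_eq_mul, mul_assoc]
  have h3 : Ord ((S : F) * R i j) (0 + -1) := (ord_coe S).mul (basic_exp hR i j).1
  intro k hk
  rw [coeff_lam_mul]
  exact h3 _ (by omega)

/-- The module generated by `(1 + λS) R0` is `U^{⊥_P}` with `P = (1+λS)⁻¹`. -/
theorem genMod_eq {U : Submodule ℂ L} (hU : Factoring U) {E R R0 : Fin 3 → L}
    (hE : IsBasic E) (hEU : ∀ i, E i ∈ U) (hR : IsBasic R) (hR0 : ∀ i, R0 i ∈ perp 1 U)
    (S : PowerSeries ℂ) (hRS : ∀ i, R i = ((1 + PowerSeries.X * S : PowerSeries ℂ) : F) • R0 i) :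
    genMod U R = perp (1 + PowerSeries.X * S)⁻¹ U := by
  set σ : PowerSeries ℂ := 1 + PowerSeries.X * S with hσ
  have hσ0 : PowerSeries.constantCoeff σ = 1 := by rw [hσ]; simp
  have hinv : σ⁻¹ * σ = 1 := PowerSeries.inv_mul_cancel σ (by rw [hσ0]; exact one_ne_zero)
  have hinv0 : σ⁻¹ ≠ 0 := by
    intro h; rw [h, zero_mul] at hinv; exact zero_ne_one hinv
  have hinvF : ((σ⁻¹ : PowerSeries ℂ) : F) * (σ : F) = 1 := by
    rw [← map_mul, hinv, map_one]
  have hle : genMod U R ≤ perp σ⁻¹ U := by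
    apply sInf_le
    refine ⟨fun i => ?_, fun Y hY X hX => perp_closed _ hU hY hX⟩
    intro Y hY
    rw [hRS i, pair_smul_left, ← mul_assoc, hinvF, one_mul]
    have := hR0 i Y hY
    rwa [map_one, one_mul] at this
  apply le_antisymm hle
  intro X hX
  have htop := taylor_sup hU hE hEU hR (genMod U R) (genMod_mem U R) (genMod_closed U R)
  have hXt : X ∈ Taylor ⊔ genMod U R := by rw [htop]; trivial
  obtain ⟨t, ht, n, hn, hsum⟩ := Submodule.mem_sup.mp hXt
  have h1 : t ∈ perp σ⁻¹ U := by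
    have : t = X - n := by rw [← hsum]; abel
    rw [this]
    exact (perp σ⁻¹ U).sub_mem hX (hle hn)
  have h2 := perp_taylor hinv0 hU h1 ht
  rw [← hsum, h2, zero_add]
  exact hn

end Pool.R712.So3
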