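import Pool.Agent.R497.TB.Defs

set_option autoImplicit false

/-! Project TB (MP_f720ae_an), piece BD: the mean square bound for `D(δ)` over boxes enumerated by lines,
blocks of length `K ^ (4 (k + 1))` inside the lines. Model: `Pool/Agent/R497/TD/Core1.lean`. -/

namespace Pool.Agent.R712.TB

open MeasureTheory Filter Finset
open Pool.Agent.Y957.MC (IsFlow flowInv smo)
open Pool.Agent.R497.TD (S_OSC S_DBD S_PINC NiceG)
open Pool.Agent.R497.TB (S_BBAD S_BD cut)

universe u

/-- sums of increments -/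
lemma inc_sum' {Q : ℕ → ℝ} {α β : ℝ} {m : ℕ} : ∀ k : ℕ,
    (∀ i, m ≤ i → i < m + k → α ≤ Q (i + 1) - Q i ∧ Q (i + 1) - Q i ≤ β) →
    (k : ℝ) * α ≤ Q (m + k) - Q m ∧ Q (m + k) - Q m ≤ (k : ℝ) * β := by
  intro k
  induction k with
  | zero => intro _; simp
  | succ k ih =>
    intro h
    have h1 := ih (fun i h1 h2 => h i h1 (by omega))
    have h2 := h (m + k) (by omega) (by omega)
    push_cast
    rw [← add_assoc]
    constructor
    · linarith [h1.1, h2.1]
    · linarith [h1.2, h2.2]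

lemma card_one (S H v : ℕ) :
    (((range (S * H)) ×ˢ (range (S * H))).filter (fun p : ℕ × ℕ => p.1 % H = v)).card ≤ S * (S * H) := by
  have h3 : (range S ×ˢ range (S * H)).card = S * (S * H) := by rw [card_product, card_range, card_range]
  rw [← h3]
  refine card_le_card_of_injOn (fun p : ℕ × ℕ => (p.1 / H, p.2)) ?_ ?_
  · intro p hp
    simp only [coe_filter, mem_product, mem_range, Set.mem_ofPred_eq] at hp
    simp only [coe_product, Set.mem_prod, coe_range, Set.mem_Iio]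
    exact ⟨Nat.div_lt_of_lt_mul (by rw [mul_comm]; exact hp.1.1), hp.1.2⟩
  · intro p hp q hq h
    simp only [coe_filter, mem_product, mem_range, Set.mem_ofPred_eq] at hp hq
    simp only [Prod.mk.injEq] at h
    refine Prod.ext ?_ h.2
    rw [← Nat.div_add_mod p.1 H, ← Nat.div_add_mod q.1 H, h.1, hp.2, hq.2]

lemma card_two (S H v : ℕ) :
    (((range (S * H)) ×ˢ (range (S * H))).filter (fun p : ℕ × ℕ => p.2 % H = v)).card ≤ S * (S * H) := by
  have h3 : (range S ×ˢ range (S * H)).card = S * (S * H) := by rw [card_product, card_range, card_range]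
  rw [← h3]
  refine card_le_card_of_injOn (fun p : ℕ × ℕ => (p.2 / H, p.1)) ?_ ?_
  · intro p hp
    simp only [coe_filter, mem_product, mem_range, Set.mem_ofPred_eq] at hp
    simp only [coe_product, Set.mem_prod, coe_range, Set.mem_Iio]
    exact ⟨Nat.div_lt_of_lt_mul (by rw [mul_comm]; exact hp.1.2), hp.1.1⟩
  · intro p hp q hq h
    simp only [coe_filter, mem_product, mem_range, Set.mem_ofPred_eq] at hp hq
    simp only [Prod.mk.injEq] at h
    refine Prod.ext h.2 ?_
    rw [← Nat.div_add_mod p.2 H, ← Nat.div_add_mod q.2 H, h.1, hp.2, hq.2]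

theorem bcore (hO : S_OSC) (hD : S_DBD.{u}) (hB : S_BBAD) {X : Type u} [MeasurableSpace X] {μ : Measure X}
    [IsProbabilityMeasure μ] {σ : ℝ → X → X} (hσ : IsFlow μ σ) {g : X → ℝ} (hgm : Measurable g)
    (hg1 : ∀ x, |g x| ≤ 1) {C : ℝ}
    (hgl : ∀ u v x, |g (σ u x) - g (σ v x)| ≤ C * |u - v|) (hgp : ∀ u v x, |∫ r in u..v, g (σ r x)| ≤ C)
    {f Q : ℕ → ℝ} {κ L S : ℕ} (hκ : 1 ≤ κ) (hS : 0 < S) {c C' S0 : ℝ} (hc : 0 < c) (hC' : 0 < C') (hS0 : 0 < S0)
    (hinc : ∀ n, L ≤ n → n ≤ κ ^ 8 → c * S0 ≤ f (n + 1) - f n ∧ f (n + 1) - f n ≤ C' * S0 ∧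
      f (n + 1) - f n ≤ f (n + 2) - f (n + 1))
    (hQ : ∀ u w, u < S → w < κ ^ 8 → Q (u * κ ^ 8 + w) = Q (u * κ ^ 8) + (f w - f 0))
    {δ : ℝ} (hδ1 : 1 / (S0 * (κ : ℝ) ^ 3) ≤ |δ|) (hδ2 : |δ| ≤ 1 / (S0 * (κ : ℝ))) :
    ∫ a in (1 / 2 : ℝ)..3, ∫ x, ((1 / ((S * κ ^ 8 : ℕ) : ℝ)) * ∑ n ∈ range (S * κ ^ 8),
      (if L ≤ n % κ ^ 8 then g (σ (a * Q n) x) * g (σ (δ * Q n) (σ (a * Q n) x)) else 0)) ^ 2 ∂μ ≤
      (9 + 6 / c + 6 * C' / c + 6 * C' + 3 * (C / c + C * C') ^ 2) / (κ : ℝ) ^ 2 := by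
  classical
  have hne : Nonempty X := nonempty_of_isProbabilityMeasure μ
  have hC0 : 0 ≤ C := by
    obtain ⟨x⟩ := hne
    exact (abs_nonneg _).trans (hgp 0 0 x)
  have hKR : (1 : ℝ) ≤ κ := by exact_mod_cast hκ
  have hK0 : (0 : ℝ) < κ := by linarith
  have hSR : (0 : ℝ) < S := by exact_mod_cast hS
  have hδ0 : 0 < |δ| := lt_of_lt_of_le (by positivity) hδ1
  have hδne : δ ≠ 0 := abs_pos.1 hδ0
  set V : ℕ → X → ℝ := fun n y => if L ≤ n % κ ^ 8 then g y * g (σ (δ * Q n) y) else 0 with hV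
  have hVm : ∀ n, Measurable (V n) := by
    intro n
    simp only [hV]
    have h1 : Measurable fun y => g (σ (δ * Q n) y) := hgm.comp (hσ.meas.comp (measurable_const.prodMk measurable_id))
    split_ifs
    · exact hgm.mul h1
    · exact measurable_const
  have hV1 : ∀ n x, |V n x| ≤ 1 := by
    intro n x
    simp only [hV]
    split_ifs
    · rw [abs_mul]
      exact mul_le_one₀ (hg1 _) (abs_nonneg _) (hg1 _)
    · simp
  obtain ⟨H, hHdef⟩ : ∃ H : ℕ, H = κ ^ 4 := ⟨_, rfl⟩
  have hH : 0 < H := by rw [hHdef]; positivity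
  have hHH : κ ^ 8 = H * H := by rw [hHdef]; ring
  have hHR : (H : ℝ) = (κ : ℝ) ^ 4 := by rw [hHdef]; push_cast; ring
  have hHR0 : (0 : ℝ) < H := by exact_mod_cast hH
  set ε : ℝ := (C / c + C * C') / (κ : ℝ) with hε
  set Y : ℝ := (κ : ℝ) ^ 6 * S0 with hY
  set Z : ℝ := (κ : ℝ) ^ 4 * (C' * S0) with hZ
  have hYpos : 0 < Y := by positivity
  have hZpos : 0 < Z := by positivity
  -- decomposition of the blocks
  have hdec : ∀ b r, b < S * H → r < H → b * H + r = (b / H) * κ ^ 8 + (b % H * H + r) ∧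
      b % H * H + r < κ ^ 8 ∧ b / H < S := by
    intro b r hb hr
    have h1 : H * (b / H) + b % H = b := Nat.div_add_mod b H
    have h2 : b % H < H := Nat.mod_lt _ hH
    refine ⟨?_, ?_, Nat.div_lt_of_lt_mul (by rw [mul_comm]; exact hb)⟩
    · rw [hHH]
      calc b * H + r = (H * (b / H) + b % H) * H + r := by rw [h1]
        _ = _ := by ring
    · rw [hHH]
      have h3 : (b % H + 1) * H ≤ H * H := Nat.mul_le_mul_right _ h2
      nlinarith
  have hmod : ∀ b r, b < S * H → r < H → (b * H + r) % κ ^ 8 = b % H * H + r := by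
    intro b r hb hr
    obtain ⟨h1, h2, -⟩ := hdec b r hb hr
    rw [h1, Nat.mul_add_mod_self_right, Nat.mod_eq_of_lt h2]
  have hQb : ∀ b r, b < S * H → r < H →
      Q (b * H + r) = Q ((b / H) * κ ^ 8) + (f (b % H * H + r) - f 0) := by
    intro b r hb hr
    obtain ⟨h1, h2, h3⟩ := hdec b r hb hr
    rw [h1]
    exact hQ _ _ h3 h2
  have hQb0 : ∀ b, b < S * H → Q (b * H) = Q ((b / H) * κ ^ 8) + (f (b % H * H) - f 0) := by
    intro b hb
    have := hQb b 0 hb hH
    simpa using this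
  have hlow : ∀ b r, b % H < L / H → r < H → b % H * H + r < L := by
    intro b r h1 h2
    have h3 : (b % H + 1) * H ≤ L / H * H := Nat.mul_le_mul_right _ h1
    have h4 := Nat.div_mul_le_self L H
    nlinarith
  have hhigh : ∀ v, L / H < v → L ≤ v * H := by
    intro v h1
    have h2 := Nat.lt_div_mul_add (a := L) hH
    have h3 : (L / H + 1) * H ≤ v * H := Nat.mul_le_mul_right _ h1
    nlinarith
  have hup : ∀ v r, v < H → r < H → v * H + r < κ ^ 8 := by
    intro v r h1 h2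
    rw [hHH]
    have h3 : (v + 1) * H ≤ H * H := Nat.mul_le_mul_right _ h1
    nlinarith
  -- the bad pairs
  set Bad : Finset (ℕ × ℕ) := ((range (S * H)) ×ˢ (range (S * H))).filter
    (fun p => p.1 % H = L / H ∨ p.2 % H = L / H ∨
      (L / H < p.1 % H ∧ L / H < p.2 % H ∧ |Q (p.1 * H) - Q (p.2 * H)| < Y + Z)) with hBad
  have hBB := hB S H (L / H) (fun b => Q (b * H)) (c * S0 * H) (Y + Z) hH (by positivity) (by positivity)
    (by
      intro u v hu hv hv1
      have e1 : (u * H + (v + 1)) * H = u * κ ^ 8 + (v + 1) * H := by rw [hHH]; ring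
      have e2 : (u * H + v) * H = u * κ ^ 8 + v * H := by rw [hHH]; ring
      have h1 : (v + 1) * H < κ ^ 8 := by have := hup (v + 1) 0 hv1 hH; simpa using this
      have h2 : v * H < κ ^ 8 := by have := hup v 0 (by omega) hH; simpa using this
      rw [e1, e2, hQ u _ hu h1, hQ u _ hu h2]
      have e3 : (v + 1) * H = v * H + H := by ring
      have hL := hhigh v hv
      have h3 := inc_sum' (Q := f) (α := c * S0) (β := C' * S0) (m := v * H) H (fun i hi1 hi2 => by
        have h5 := hinc i (by omega) (by rw [e3] at h1; omega)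
        exact ⟨h5.1, h5.2.1⟩)
      rw [e3]
      calc c * S0 * H = (H : ℝ) * (c * S0) := by ring
        _ ≤ f (v * H + H) - f (v * H) := h3.1
        _ = _ := by ring)
  have hBadcard : (Bad.card : ℝ) ≤ 2 * ((S : ℝ) * (S * H)) + (S * H) * (S * (2 * (Y + Z) / (c * S0 * H) + 1)) := by
    have h1 : Bad ⊆ ((((range (S * H)) ×ˢ (range (S * H))).filter (fun p : ℕ × ℕ => p.1 % H = L / H)) ∪
        (((range (S * H)) ×ˢ (range (S * H))).filter (fun p : ℕ × ℕ => p.2 % H = L / H))) ∪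
        (((range (S * H)) ×ˢ (range (S * H))).filter
          (fun p => L / H < p.1 % H ∧ L / H < p.2 % H ∧ |Q (p.1 * H) - Q (p.2 * H)| < Y + Z)) := by
      intro p hp
      rw [hBad, mem_filter] at hp
      rw [mem_union, mem_union, mem_filter, mem_filter, mem_filter]
      tauto
    have h2 := (card_le_card h1).trans ((card_union_le _ _).trans (Nat.add_le_add_right (card_union_le _ _) _))
    have h3 := card_one S H (L / H)
    have h4 := card_two S H (L / H)
    have h5 : (Bad.card : ℝ) ≤ (S : ℝ) * (S * H) + (S : ℝ) * (S * H) +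
        ((((range (S * H)) ×ˢ (range (S * H))).filter
          (fun p => L / H < p.1 % H ∧ L / H < p.2 % H ∧ |Q (p.1 * H) - Q (p.2 * H)| < Y + Z)).card : ℝ) := by
      have h3' : ((((range (S * H)) ×ˢ (range (S * H))).filter (fun p : ℕ × ℕ => p.1 % H = L / H)).card : ℝ) ≤
          (S : ℝ) * (S * H) := by exact_mod_cast h3
      have h4' : ((((range (S * H)) ×ˢ (range (S * H))).filter (fun p : ℕ × ℕ => p.2 % H = L / H)).card : ℝ) ≤
          (S : ℝ) * (S * H) := by exact_mod_cast h4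
      have h2' : (Bad.card : ℝ) ≤
          ((((range (S * H)) ×ˢ (range (S * H))).filter (fun p : ℕ × ℕ => p.1 % H = L / H)).card : ℝ) +
          ((((range (S * H)) ×ˢ (range (S * H))).filter (fun p : ℕ × ℕ => p.2 % H = L / H)).card : ℝ) +
          ((((range (S * H)) ×ˢ (range (S * H))).filter
          (fun p => L / H < p.1 % H ∧ L / H < p.2 % H ∧ |Q (p.1 * H) - Q (p.2 * H)| < Y + Z)).card : ℝ) := by
        exact_mod_cast h2
      linarith
    have h6 : (((S * H : ℕ)) : ℝ) = (S : ℝ) * H := by push_cast; ring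
    rw [h6] at hBB
    linarith [hBB]
  have hmain := hD X μ σ V Q (S * H) H Bad ε Y Z hσ hVm hV1 (by positivity) hH
    hYpos hZpos.le (by positivity) ?_
  · have e16 : S * H * H = S * κ ^ 8 := by rw [hHH]; ring
    rw [e16] at hmain
    refine hmain.trans ?_
    have hR2 : (((S * H : ℕ)) : ℝ) = (S : ℝ) * H := by push_cast; ring
    have hk4 : (κ : ℝ) ^ 2 ≤ (κ : ℝ) ^ 4 := pow_le_pow_right₀ hKR (by norm_num)
    have h2 : (Bad.card : ℝ) / (((S * H : ℕ) : ℝ)) ^ 2 ≤ (3 + 2 / c + 2 * C' / c) / (κ : ℝ) ^ 2 := by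
      rw [hR2, div_le_iff₀ (by positivity)]
      refine hBadcard.trans ?_
      have e1 : 2 * ((S : ℝ) * (S * H)) + (S * H) * (S * (2 * (Y + Z) / (c * S0 * H) + 1)) =
          ((S : ℝ) * H) ^ 2 * (3 / H + 2 * (Y + Z) / (c * S0 * H * H)) := by
        field_simp
        ring
      rw [e1]
      have e2 : 3 / (H : ℝ) ≤ 3 / (κ : ℝ) ^ 2 := by
        rw [hHR]
        exact div_le_div_of_nonneg_left (by norm_num) (by positivity) hk4
      have e3 : 2 * (Y + Z) / (c * S0 * H * H) = 2 / c / (κ : ℝ) ^ 2 + 2 * C' / c / (κ : ℝ) ^ 4 := by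
        rw [hY, hZ, hHR]
        field_simp
      have e4 : 2 * C' / c / (κ : ℝ) ^ 4 ≤ 2 * C' / c / (κ : ℝ) ^ 2 :=
        div_le_div_of_nonneg_left (by positivity) (by positivity) hk4
      have e5 : (3 + 2 / c + 2 * C' / c) / (κ : ℝ) ^ 2 = 3 / (κ : ℝ) ^ 2 + 2 / c / (κ : ℝ) ^ 2 +
          2 * C' / c / (κ : ℝ) ^ 2 := by rw [add_div, add_div]
      rw [e5, mul_comm]
      refine mul_le_mul_of_nonneg_right ?_ (by positivity)
      rw [e3]
      linarith
    have h3 : 6 * Z / Y = (6 * C') / (κ : ℝ) ^ 2 := by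
      rw [hZ, hY]
      field_simp
    have h4 : 3 * ε ^ 2 = 3 * (C / c + C * C') ^ 2 / (κ : ℝ) ^ 2 := by
      rw [hε]
      field_simp
    rw [h3, h4]
    have h5 : 3 * ((Bad.card : ℝ) / (((S * H : ℕ) : ℝ)) ^ 2) ≤ 3 * ((3 + 2 / c + 2 * C' / c) / (κ : ℝ) ^ 2) :=
      mul_le_mul_of_nonneg_left h2 (by norm_num)
    refine (add_le_add_left (add_le_add_left h5 _) _).trans (le_of_eq ?_)
    field_simp
    ring
  · intro b b' hb hb' hbad
    have hnb : ¬ (b % H = L / H ∨ b' % H = L / H ∨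
        (L / H < b % H ∧ L / H < b' % H ∧ |Q (b * H) - Q (b' * H)| < Y + Z)) := by
      intro h
      apply hbad
      rw [hBad, mem_filter, mem_product, mem_range, mem_range]
      exact ⟨⟨hb, hb'⟩, h⟩
    by_cases h1 : b % H < L / H
    · left
      intro r hr x
      simp only [hV]
      rw [hmod b r hb hr, if_neg (by have := hlow b r h1 hr; omega)]
    by_cases h2 : b' % H < L / H
    · right; left
      intro r hr x
      simp only [hV]
      rw [hmod b' r hb' hr, if_neg (by have := hlow b' r h2 hr; omega)]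
    right; right
    have hb1 : L / H < b % H := by
      have : b % H ≠ L / H := fun h => hnb (Or.inl h)
      omega
    have hb2 : L / H < b' % H := by
      have : b' % H ≠ L / H := fun h => hnb (Or.inr (Or.inl h))
      omega
    have hfar : Y + Z ≤ |Q (b * H) - Q (b' * H)| := by
      by_contra h
      push Not at h
      exact hnb (Or.inr (Or.inr ⟨hb1, hb2, h⟩))
    have hblock : ∀ b, b < S * H → L / H < b % H → ∀ r, r < H →
        0 ≤ Q (b * H + r) - Q (b * H) ∧ Q (b * H + r) - Q (b * H) ≤ Z := by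
      intro b hb hL r hr
      have hv : b % H < H := Nat.mod_lt _ hH
      have hLL := hhigh _ hL
      have h3 := inc_sum' (Q := f) (α := 0) (β := C' * S0) (m := b % H * H) r (fun i hi1 hi2 => by
        have h4 := hup (b % H) r hv hr
        have h5 := hinc i (by omega) (by omega)
        exact ⟨le_trans (by positivity) h5.1, h5.2.1⟩)
      rw [hQb b r hb hr, hQb0 b hb]
      refine ⟨by linarith [h3.1], ?_⟩
      have h6 : (r : ℝ) * (C' * S0) ≤ Z := by
        rw [hZ, ← hHR]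
        have : (r : ℝ) ≤ (H : ℝ) := by exact_mod_cast hr.le
        exact mul_le_mul_of_nonneg_right this (by positivity)
      linarith [h3.2]
    have hosc : ∀ b, b < S * H → L / H < b % H → ∀ x, |∑ r ∈ range H, V (b * H + r) x| ≤
        ε * (H : ℝ) := by
      intro b hb hL x
      have hv : b % H < H := Nat.mod_lt _ hH
      have hLL := hhigh _ hL
      have e1 : ∑ r ∈ range H, V (b * H + r) x =
          g x * ∑ r ∈ range H, g (σ (δ * (Q ((b / H) * κ ^ 8) + (f (b % H * H + r) - f 0))) x) := by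
        rw [mul_sum]
        refine sum_congr rfl fun r hr => ?_
        have hr' : r < H := mem_range.1 hr
        simp only [hV]
        rw [hmod b r hb hr', if_pos (by omega), hQb b r hb hr']
      rw [e1, abs_mul]
      have h3 := hO (fun u => g (σ u x)) (fun r => Q ((b / H) * κ ^ 8) + (f (b % H * H + r) - f 0)) C δ
        (c * S0) (C' * S0) H
        (fun u v => hgl u v x) (fun u v => hgp u v x) hδne (by positivity)
        (fun r hr => by
          have h4 := hup (b % H) r hv hr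
          have h5 := hinc (b % H * H + r) (by omega) (by omega)
          have e2 : b % H * H + (r + 1) = b % H * H + r + 1 := by ring
          simp only [e2]
          constructor
          · linarith [h5.1]
          · linarith [h5.2.1])
        (fun r hr => by
          have h4 := hup (b % H) (r + 1) hv hr
          have h5 := hinc (b % H * H + r) (by omega) (by omega)
          have e2 : b % H * H + (r + 1) = b % H * H + r + 1 := by ring
          have e3 : b % H * H + (r + 2) = b % H * H + r + 2 := by ring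
          simp only [e2, e3]
          linarith [h5.2.2])
      have h4 : C / (|δ| * (c * S0)) ≤ C / c * (κ : ℝ) ^ 3 := by
        rw [div_le_iff₀ (by positivity)]
        have h5 : 1 ≤ |δ| * (S0 * (κ : ℝ) ^ 3) := by
          rw [div_le_iff₀ (by positivity)] at hδ1
          exact hδ1
        calc C = C * 1 := by ring
          _ ≤ C * (|δ| * (S0 * (κ : ℝ) ^ 3)) := by gcongr
          _ = C / c * (κ : ℝ) ^ 3 * (|δ| * (c * S0)) := by field_simp
      have h6 : C * (H : ℝ) * |δ| * (C' * S0) ≤ C * C' * (κ : ℝ) ^ 3 := by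
        have h7 : |δ| * (S0 * (κ : ℝ)) ≤ 1 := by
          rwa [le_div_iff₀ (by positivity)] at hδ2
        rw [hHR]
        calc C * (κ : ℝ) ^ 4 * |δ| * (C' * S0) = C * C' * (κ : ℝ) ^ 3 * (|δ| * (S0 * (κ : ℝ))) := by ring
          _ ≤ C * C' * (κ : ℝ) ^ 3 * 1 := by gcongr
          _ = _ := by ring
      have h8 : ε * (H : ℝ) = (C / c + C * C') * (κ : ℝ) ^ 3 := by
        rw [hε, hHR]
        field_simp
      rw [h8]
      calc |g x| * |∑ r ∈ range H, g (σ (δ * (Q ((b / H) * κ ^ 8) + (f (b % H * H + r) - f 0))) x)| ≤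
            1 * |∑ r ∈ range H, g (σ (δ * (Q ((b / H) * κ ^ 8) + (f (b % H * H + r) - f 0))) x)| := by
              gcongr; exact hg1 x
        _ ≤ C / (|δ| * (c * S0)) + C * (H : ℝ) * |δ| * (C' * S0) := by rw [one_mul]; exact h3
        _ ≤ C / c * (κ : ℝ) ^ 3 + C * C' * (κ : ℝ) ^ 3 := add_le_add h4 h6
        _ = _ := by ring
    refine ⟨fun r r' hr hr' => ?_, hosc b hb hb1, hosc b' hb' hb2⟩
    have h3 := hblock b hb hb1 r hr
    have h4 := hblock b' hb' hb2 r' hr'
    have h5 : |(Q (b * H + r) - Q (b' * H + r')) - (Q (b * H) - Q (b' * H))| ≤ Z := by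
      rw [abs_le]
      constructor <;> linarith [h3.1, h3.2, h4.1, h4.2]
    refine ⟨?_, h5⟩
    have h6 : |Q (b * H) - Q (b' * H)| ≤ |Q (b * H + r) - Q (b' * H + r')| +
        |(Q (b * H + r) - Q (b' * H + r')) - (Q (b * H) - Q (b' * H))| := by
      have h7 := abs_sub_abs_le_abs_sub (Q (b * H) - Q (b' * H)) (Q (b * H + r) - Q (b' * H + r'))
      rw [abs_sub_comm (Q (b * H) - Q (b' * H)) (Q (b * H + r) - Q (b' * H + r'))] at h7
      linarith
    linarith

theorem t_BD (hO : S_OSC) (hD : S_DBD.{u}) (hP : S_PINC) (hB : S_BBAD) : S_BD.{u} := by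
  intro X _ μ _ σ g P k j hσ hg hg1 hdeg hlead
  obtain ⟨hgm, C, hgb, hgl, hgp⟩ := hg
  obtain ⟨c, C', hc, hC', hev⟩ := hP P hdeg hlead j
  obtain ⟨N0, hN0⟩ := eventually_atTop.1 hev
  refine ⟨9 + 6 / c + 6 * C' / c + 6 * C' + 3 * (C / c + C * C') ^ 2, max 1 N0, by positivity, ?_⟩
  intro K S Q δ hK hS hQ hδ1 hδ2
  have hK1 : 1 ≤ K := (le_max_left _ _).trans hK
  have hKR : (0 : ℝ) < K := by exact_mod_cast hK1
  obtain ⟨κ, hκdef⟩ : ∃ κ : ℕ, κ = K ^ (k + 1) := ⟨_, rfl⟩
  have hκ1 : 1 ≤ κ := by rw [hκdef]; exact Nat.one_le_pow _ _ hK1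
  have e8 : K ^ (8 * (k + 1)) = κ ^ 8 := by rw [hκdef, ← pow_mul]; ring_nf
  have hκR : (κ : ℝ) = (K : ℝ) ^ (k + 1) := by rw [hκdef]; push_cast; ring
  have hκ0 : (0 : ℝ) < κ := by exact_mod_cast hκ1
  have hNle : N0 ≤ κ ^ 8 := by
    rw [← e8]
    calc N0 ≤ K := (le_max_right _ _).trans hK
      _ = K ^ 1 := (pow_one K).symm
      _ ≤ K ^ (8 * (k + 1)) := Nat.pow_le_pow_right hK1 (by omega)
  have hinc := hN0 (κ ^ 8) hNle
  set S0 : ℝ := ((κ ^ 8 : ℕ) : ℝ) ^ (P.natDegree - 1) with hS0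
  have hS0pos : 0 < S0 := by positivity
  have hS0e : S0 = (K : ℝ) ^ (8 * (k + 1) * (P.natDegree - 1)) := by
    rw [hS0, ← e8]
    push_cast
    rw [← pow_mul]
  rw [e8] at hQ
  simp only [e8]
  have e2 : (K : ℝ) ^ (2 * (k + 1)) = (κ : ℝ) ^ 2 := by rw [hκR, ← pow_mul]; ring_nf
  rw [e2]
  refine bcore (f := fun w => P.eval ((w : ℝ) + 1)) (S0 := S0) hO hD hB hσ hgm hg1 hgl hgp hκ1 hS hc hC' hS0pos
    ?_ ?_ ?_ ?_
  · intro n h1 h2
    have h3 := hinc n h1 h2
    have a1 : ((n + 1 : ℕ) : ℝ) + 1 = (n : ℝ) + 2 := by push_cast; ring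
    have a2 : ((n + 2 : ℕ) : ℝ) + 1 = (n : ℝ) + 3 := by push_cast; ring
    simp only [a1, a2]
    exact h3
  · intro u w hu hw
    have h3 := hQ u w hu hw
    rw [h3]
    simp
  · refine le_trans (le_of_eq ?_) hδ1
    rw [hS0e, hκR, pow_add (K : ℝ) (8 * (k + 1) * (P.natDegree - 1)) (3 * (k + 1)), ← pow_mul,
      mul_comm (k + 1) 3]
  · refine hδ2.trans (le_of_eq ?_)
    rw [hS0e, hκR, pow_add (K : ℝ) (8 * (k + 1) * (P.natDegree - 1)) (k + 1)]

end Pool.Agent.R712.TB
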